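import Pool.Agent.Helper85.LC.Defs

/-!
# Module E1 of MP_816dee_pr: the Erdős–Gallai theorem on paths
-/

namespace Pool.H85.LC

open Finset

namespace EG

variable {V : Type*}

open Classical in
/-- the number of ordered adjacent pairs inside `W` -/
noncomputable def mm (R : SimpleGraph V) (W : Finset V) : ℕ :=
  ∑ a ∈ W, (W.filter (R.Adj a)).card

open Classical in
theorem mm_erase (R : SimpleGraph V) (W : Finset V) {x : V} (hx : x ∈ W) :
    mm R W = mm R (W.erase x) + 2 * (W.filter (R.Adj x)).card := by
  unfold mm
  rw [← Finset.add_sum_erase W _ hx]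
  have h1 : ∀ a ∈ W.erase x, (W.filter (R.Adj a)).card =
      ((W.erase x).filter (R.Adj a)).card + if R.Adj x a then 1 else 0 := by
    intro a ha
    rw [Finset.filter_erase]
    by_cases h : R.Adj x a
    · rw [if_pos h]
      have : x ∈ W.filter (R.Adj a) := by
        simp [hx, h.symm]
      rw [Finset.card_erase_of_mem this]
      have := Finset.card_pos.2 ⟨x, this⟩
      omega
    · rw [if_neg h, Finset.erase_eq_of_notMem]
      · rfl
      · simp only [Finset.mem_filter, not_and]
        exact fun _ h' => h h'.symm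
  rw [Finset.sum_congr rfl h1, Finset.sum_add_distrib]
  have h2 : ∑ a ∈ W.erase x, (if R.Adj x a then 1 else 0) = (W.filter (R.Adj x)).card := by
    rw [← Finset.card_filter, Finset.filter_erase, Finset.erase_eq_of_notMem]
    simp
  rw [h2]
  ring

open Classical in
theorem mm_split (R : SimpleGraph V) (W S : Finset V) (hS : S ⊆ W)
    (h : ∀ a ∈ S, ∀ b ∈ W, R.Adj a b → b ∈ S) : mm R W = mm R S + mm R (W \ S) := by
  unfold mm
  rw [← Finset.sum_sdiff hS, add_comm]
  congr 1
  · refine Finset.sum_congr rfl fun a ha => ?_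
    congr 1
    ext b
    simp only [Finset.mem_filter]
    exact ⟨fun hb => ⟨h a ha b hb.1 hb.2, hb.2⟩, fun hb => ⟨hS hb.1, hb.2⟩⟩
  · refine Finset.sum_congr rfl fun a ha => ?_
    congr 1
    ext b
    simp only [Finset.mem_filter, Finset.mem_sdiff] at ha ⊢
    exact ⟨fun hb => ⟨⟨hb.1, fun hbS => ha.2 (h b hbS a ha.1 hb.2.symm)⟩, hb.2⟩,
      fun hb => ⟨hb.1.1, hb.2⟩⟩

open Classical in
theorem mm_le (R : SimpleGraph V) (S : Finset V) : mm R S + S.card ≤ S.card * S.card := by
  unfold mm
  have : ∀ a ∈ S, (S.filter (R.Adj a)).card + 1 ≤ S.card := by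
    intro a ha
    have h1 : (S.filter (R.Adj a)) ⊆ S.erase a := by
      intro b hb
      simp only [Finset.mem_filter] at hb
      exact Finset.mem_erase.2 ⟨hb.2.ne', hb.1⟩
    have h2 := Finset.card_le_card h1
    rw [Finset.card_erase_of_mem ha] at h2
    have := Finset.card_pos.2 ⟨a, ha⟩
    omega
  calc ∑ a ∈ S, (S.filter (R.Adj a)).card + S.card
      = ∑ a ∈ S, ((S.filter (R.Adj a)).card + 1) := by
        rw [Finset.sum_add_distrib]; simp
    _ ≤ ∑ a ∈ S, S.card := Finset.sum_le_sum this
    _ = S.card * S.card := by simp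

/-- a closed chain can be opened anywhere -/
theorem rotate_closed {R : SimpleGraph V} {c : List V} (hn : c.Nodup) (hc : c.IsChain R.Adj)
    (hcl : ∀ x ∈ c.getLast?, ∀ y ∈ c.head?, R.Adj x y) {w u : V} (hw : w ∈ c) (hu : u ∉ c)
    (hwu : R.Adj u w) :
    ∃ l : List V, l.Nodup ∧ l.IsChain R.Adj ∧ (∀ v ∈ l, v = u ∨ v ∈ c) ∧
      l.length = c.length + 1 := by
  obtain ⟨c1, c2, rfl⟩ := List.append_of_mem hw
  refine ⟨u :: ((w :: c2) ++ c1), ?_, ?_, ?_, ?_⟩
  · rw [List.nodup_cons]
    refine ⟨fun h => hu ?_, ?_⟩
    · simp only [List.mem_append] at h ⊢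
      exact h.symm
    · exact (List.nodup_append_comm).1 hn
  · refine List.IsChain.cons ?_ (by simpa using hwu)
    have h1 := List.isChain_append.1 hc
    refine List.isChain_append.2 ⟨h1.2.1, h1.1, ?_⟩
    intro x hx y hy
    refine hcl x ?_ y ?_
    · rw [List.getLast?_append_of_ne_nil _ (by simp)]
      exact hx
    · rcases c1 with _ | ⟨a, c1⟩
      · simp at hy
      · simpa using hy
  · intro v hv
    simp only [List.mem_cons, List.mem_append] at hv ⊢
    tauto
  · simp
    ring

open Classical in
/-- crossing argument: the two ends of a longest path with an extension have small degree sum -/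
theorem ends_degree {R : SimpleGraph V} {W : Finset V} {l : List V} (hn : l.Nodup)
    (hc : l.IsChain R.Adj) (hW : ∀ v ∈ l, v ∈ W) (h0 : 0 < l.length)
    (hmax : ∀ l' : List V, l'.Nodup → l'.IsChain R.Adj → (∀ v ∈ l', v ∈ W) →
      l'.length ≤ l.length) {w u : V} (hw : w ∈ l) (hu : u ∈ W) (hul : u ∉ l)
    (huw : R.Adj u w) :
    (W.filter (R.Adj l[0])).card + (W.filter (R.Adj (l[l.length - 1]'(by omega)))).card + 1 ≤
      l.length := by
  have hN0 : ∀ b ∈ W, R.Adj l[0] b → b ∈ l := by
    intro b hb hab
    by_contra hbl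
    have := hmax (b :: l) (List.nodup_cons.2 ⟨hbl, hn⟩) (List.IsChain.cons hc (by
      intro y hy
      rw [List.head?_eq_getElem?, List.getElem?_eq_getElem h0] at hy
      simp only [Option.mem_def, Option.some.injEq] at hy
      rw [← hy]; exact hab.symm)) (by
      intro v hv
      rcases List.mem_cons.1 hv with rfl | hv
      · exact hb
      · exact hW v hv)
    simp at this
  have hN1 : ∀ b ∈ W, R.Adj (l[l.length - 1]'(by omega)) b → b ∈ l := by
    intro b hb hab
    by_contra hbl
    have := hmax (l ++ [b]) (by
        rw [List.nodup_append]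
        refine ⟨hn, by simp, ?_⟩
        intro x hx y hy hxy
        simp only [List.mem_singleton] at hy
        subst hy; subst hxy
        exact hbl hx) (List.isChain_append.2 ⟨hc, by simp, by
        intro x hx y hy
        rw [List.getLast?_eq_getElem?, List.getElem?_eq_getElem (by omega)] at hx
        simp only [Option.mem_def, Option.some.injEq, List.head?_cons] at hx hy
        rw [← hx, ← hy]; exact hab⟩) (by
        intro v hv
        rcases List.mem_append.1 hv with hv | hv
        · exact hW v hv
        · simp only [List.mem_singleton] at hv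
          subst hv; exact hb)
    simp at this
  -- index sets
  set A : Finset (Fin (l.length - 1)) :=
    univ.filter (fun i => R.Adj l[0] (l[(i : ℕ) + 1]'(by omega))) with hA
  set B : Finset (Fin (l.length - 1)) :=
    univ.filter (fun i => R.Adj (l[l.length - 1]'(by omega)) (l[(i : ℕ)]'(by omega))) with hB
  have hAc : (W.filter (R.Adj l[0])).card ≤ A.card := by
    have : W.filter (R.Adj l[0]) ⊆ A.image (fun i : Fin (l.length - 1) =>
        l[(i : ℕ) + 1]'(by omega)) := by
      intro b hb
      simp only [Finset.mem_filter] at hb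
      have hbl := hN0 b hb.1 hb.2
      obtain ⟨i, hi, rfl⟩ := List.getElem_of_mem hbl
      have hi0 : i ≠ 0 := by
        rintro rfl
        exact hb.2.ne rfl
      simp only [Finset.mem_image]
      refine ⟨⟨i - 1, by omega⟩, ?_, ?_⟩
      · simp only [hA, Finset.mem_filter, Finset.mem_univ, true_and]
        have : i - 1 + 1 = i := by omega
        simp only [this]
        exact hb.2
      · have : i - 1 + 1 = i := by omega
        simp only [this]
    exact (Finset.card_le_card this).trans Finset.card_image_le
  have hBc : (W.filter (R.Adj (l[l.length - 1]'(by omega)))).card ≤ B.card := by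
    have : W.filter (R.Adj (l[l.length - 1]'(by omega))) ⊆
        B.image (fun i : Fin (l.length - 1) => l[(i : ℕ)]'(by omega)) := by
      intro b hb
      simp only [Finset.mem_filter] at hb
      have hbl := hN1 b hb.1 hb.2
      obtain ⟨i, hi, rfl⟩ := List.getElem_of_mem hbl
      have hi0 : i ≠ l.length - 1 := by
        rintro rfl
        exact hb.2.ne rfl
      simp only [Finset.mem_image]
      refine ⟨⟨i, by omega⟩, ?_, rfl⟩
      simp only [hB, Finset.mem_filter, Finset.mem_univ, true_and]
      exact hb.2
    exact (Finset.card_le_card this).trans Finset.card_image_le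
  by_contra hcon
  push Not at hcon
  have hAB : ¬ Disjoint A B := by
    intro hd
    have h1 := Finset.card_union_of_disjoint hd
    have h2 : (A ∪ B).card ≤ l.length - 1 := by
      simpa using Finset.card_le_univ (A ∪ B)
    omega
  rw [Finset.not_disjoint_iff] at hAB
  obtain ⟨i, hiA, hiB⟩ := hAB
  simp only [hA, hB, Finset.mem_filter, Finset.mem_univ, true_and] at hiA hiB
  have hi := i.2
  set c : List V := l.take ((i : ℕ) + 1) ++ (l.drop ((i : ℕ) + 1)).reverse with hcdef
  have hperm : c.Perm l := by
    have : c.Perm (l.take ((i : ℕ) + 1) ++ l.drop ((i : ℕ) + 1)) :=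
      (List.reverse_perm _).append_left _
    rwa [List.take_append_drop] at this
  have hcn : c.Nodup := hperm.nodup_iff.2 hn
  have hcc : c.IsChain R.Adj := by
    refine List.isChain_append.2 ⟨hc.take _, ?_, ?_⟩
    · rw [List.isChain_reverse]
      exact (hc.drop _).imp fun _ _ h => h.symm
    · intro x hx y hy
      rw [List.getLast?_eq_getElem?, List.getElem?_take] at hx
      rw [List.head?_reverse, List.getLast?_eq_getElem?, List.getElem?_drop] at hy
      simp only [List.length_take, List.length_drop] at hx hy
      have e1 : min ((i : ℕ) + 1) l.length - 1 = i := by omega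
      have e2 : (i : ℕ) + 1 + (l.length - ((i : ℕ) + 1) - 1) = l.length - 1 := by omega
      rw [e1, if_pos (by omega), List.getElem?_eq_getElem (by omega)] at hx
      rw [e2, List.getElem?_eq_getElem (by omega)] at hy
      simp only [Option.mem_def, Option.some.injEq] at hx hy
      rw [← hx, ← hy]
      exact hiB.symm
  have hccl : ∀ x ∈ c.getLast?, ∀ y ∈ c.head?, R.Adj x y := by
    intro x hx y hy
    have hne : (l.drop ((i : ℕ) + 1)).reverse ≠ [] := by
      intro h
      have := congrArg List.length h
      simp at this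
      omega
    rw [hcdef, List.getLast?_append_of_ne_nil _ hne, List.getLast?_reverse,
      List.head?_drop, List.getElem?_eq_getElem (by omega)] at hx
    rw [hcdef, List.head?_append_of_ne_nil] at hy
    · rw [List.head?_take, if_neg (by omega), List.head?_eq_getElem?,
        List.getElem?_eq_getElem h0] at hy
      simp only [Option.mem_def, Option.some.injEq] at hx hy
      rw [← hx, ← hy]
      exact hiA.symm
    · intro h
      have := congrArg List.length h
      rw [List.length_take, List.length_nil] at this
      omega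
  obtain ⟨l', h1, h2, h3, h4⟩ := rotate_closed hcn hcc hccl (hperm.mem_iff.2 hw)
    (fun h => hul (hperm.mem_iff.1 h)) huw
  have := hmax l' h1 h2 (by
    intro v hv
    rcases h3 v hv with rfl | hv
    · exact hu
    · exact hW v (hperm.mem_iff.1 hv))
  rw [h4, hperm.length_eq] at this
  omega

open Classical in
theorem main (R : SimpleGraph V) (q : ℕ) : ∀ (n : ℕ) (W : Finset V), W.card = n →
    (∀ l : List V, l.Nodup → l.IsChain R.Adj → (∀ v ∈ l, v ∈ W) → l.length ≤ q) →
    mm R W + W.card ≤ q * W.card := by
  intro n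
  induction n using Nat.strong_induction_on with
  | _ n ih =>
    intro W hWn hq
    rcases W.eq_empty_or_nonempty with rfl | ⟨x, hx⟩
    · simp [mm]
    -- a longest path
    have hex : ∃ l : List V, (l.Nodup ∧ l.IsChain R.Adj ∧ (∀ v ∈ l, v ∈ W)) ∧
        ∀ l' : List V, (l'.Nodup ∧ l'.IsChain R.Adj ∧ (∀ v ∈ l', v ∈ W)) →
          l'.length ≤ l.length := by
      have hbdd : ∃ m : ℕ, (∃ l : List V, (l.Nodup ∧ l.IsChain R.Adj ∧ (∀ v ∈ l, v ∈ W)) ∧
          l.length = m) ∧ ∀ m', (∃ l : List V, (l.Nodup ∧ l.IsChain R.Adj ∧ (∀ v ∈ l, v ∈ W)) ∧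
          l.length = m') → m' ≤ m := by
        set s : Finset ℕ := (Finset.range (q + 1)).filter (fun m => ∃ l : List V,
          (l.Nodup ∧ l.IsChain R.Adj ∧ (∀ v ∈ l, v ∈ W)) ∧ l.length = m) with hs
        have hmem : ∀ m', (∃ l : List V, (l.Nodup ∧ l.IsChain R.Adj ∧ (∀ v ∈ l, v ∈ W)) ∧
          l.length = m') → m' ∈ s := by
          rintro m' ⟨l, hl, rfl⟩
          simp only [hs, Finset.mem_filter, Finset.mem_range]
          exact ⟨Nat.lt_succ_of_le (hq l hl.1 hl.2.1 hl.2.2), l, hl, rfl⟩
        have hne : s.Nonempty := ⟨0, hmem 0 ⟨[], by simp, rfl⟩⟩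
        refine ⟨s.max' hne, ?_, fun m' hm' => Finset.le_max' s m' (hmem m' hm')⟩
        have := Finset.max'_mem s hne
        simp only [hs, Finset.mem_filter] at this
        exact this.2
      obtain ⟨m, ⟨l, hl, rfl⟩, hm⟩ := hbdd
      exact ⟨l, hl, fun l' hl' => hm _ ⟨l', hl', rfl⟩⟩
    obtain ⟨l, ⟨hn, hc, hW⟩, hmax⟩ := hex
    have h0 : 0 < l.length := by
      have := hmax [x] (by simp [hx])
      rw [List.length_singleton] at this
      omega
    have hlq : l.length ≤ q := hq l hn hc hW
    set S : Finset V := l.toFinset with hS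
    have hSc : S.card = l.length := List.toFinset_card_of_nodup hn
    have hSW : S ⊆ W := fun v hv => hW v (by simpa [hS] using hv)
    by_cases hcl : ∀ a ∈ S, ∀ b ∈ W, R.Adj a b → b ∈ S
    · have h1 := mm_split R W S hSW hcl
      have h2 := mm_le R S
      have hWS : (W \ S).card = W.card - S.card := Finset.card_sdiff_of_subset hSW
      have hSW' : S.card ≤ W.card := Finset.card_le_card hSW
      have h3 := ih (W \ S).card (by omega) (W \ S) rfl (fun l' h1 h2 h3 => hq l' h1 h2
        (fun v hv => (Finset.mem_sdiff.1 (h3 v hv)).1))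
      have h4 : S.card * S.card ≤ q * S.card := Nat.mul_le_mul_right _ (by omega)
      have h5 : W.card = S.card + (W \ S).card := by omega
      calc mm R W + W.card = (mm R S + S.card) + (mm R (W \ S) + (W \ S).card) := by omega
        _ ≤ q * S.card + q * (W \ S).card := by omega
        _ = q * W.card := by rw [h5]; ring
    · push Not at hcl
      obtain ⟨w, hw, u, hu, hwu, huS⟩ := hcl
      have key := ends_degree hn hc hW h0 (fun l' h1 h2 h3 => hmax l' ⟨h1, h2, h3⟩)
        (w := w) (u := u) (by simpa [hS] using hw) hu (by simpa [hS] using huS) hwu.symm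
      have : ∃ y ∈ W, 2 * (W.filter (R.Adj y)).card + 1 ≤ q := by
        by_cases h : (W.filter (R.Adj l[0])).card ≤
            (W.filter (R.Adj (l[l.length - 1]'(by omega)))).card
        · exact ⟨l[0], hW _ (List.getElem_mem _), by omega⟩
        · exact ⟨l[l.length - 1]'(by omega), hW _ (List.getElem_mem _), by omega⟩
      obtain ⟨y, hy, hyq⟩ := this
      have h1 := mm_erase R W hy
      have h2 : (W.erase y).card = W.card - 1 := Finset.card_erase_of_mem hy
      have h3 : 0 < W.card := Finset.card_pos.2 ⟨y, hy⟩
      have h4 := ih (W.erase y).card (by omega) (W.erase y) rfl (fun l' h1 h2 h3 => hq l' h1 h2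
        (fun v hv => (Finset.mem_erase.1 (h3 v hv)).2))
      have h5 : W.card = (W.erase y).card + 1 := by omega
      calc mm R W + W.card = (mm R (W.erase y) + (W.erase y).card) +
            (2 * (W.filter (R.Adj y)).card + 1) := by omega
        _ ≤ q * (W.erase y).card + q := by omega
        _ = q * W.card := by rw [h5]; ring

end EG

theorem erdos_gallai {V : Type*} [Fintype V] (R : SimpleGraph V) (q : ℕ)
    (h : q * Fintype.card V < 2 * R.edgeSet.ncard + Fintype.card V) :
    ∃ l : List V, l.Nodup ∧ l.IsChain R.Adj ∧ q + 1 ≤ l.length := by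
  classical
  by_contra hcon
  push Not at hcon
  have h1 := EG.main R q _ (univ : Finset V) rfl (fun l hl hl' _ =>
    Nat.le_of_lt_succ (hcon l hl hl'))
  have h2 : 2 * R.edgeSet.ncard = EG.mm R univ := by
    have h3 : R.edgeSet.ncard = R.edgeFinset.card := by
      rw [← SimpleGraph.coe_edgeFinset, Set.ncard_coe_finset]
    rw [h3, ← SimpleGraph.sum_degrees_eq_twice_card_edges]
    unfold EG.mm
    refine Finset.sum_congr rfl fun v _ => ?_
    rw [← SimpleGraph.card_neighborFinset_eq_degree]
    congr 1
    ext w
    simp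
  rw [Finset.card_univ] at h1
  omega

end Pool.H85.LC
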