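import Mathlib

open Topology Set Filter

namespace Pool.Agent.Helper50

universe u

section KOmega

variable {G : Type u} [Group G] [TopologicalSpace G] [IsTopologicalGroup G] [T2Space G]

/-- The topology determined by a sequence of compact subsets: a set is open when it leaves a
compact remainder in every member of the sequence. -/
def kOmega (K : ℕ → Set G) (hK : ∀ n, IsCompact (K n)) : TopologicalSpace G where
  IsOpen U := ∀ n, IsCompact (K n \ U)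
  isOpen_univ := by intro n; simp
  isOpen_inter := by
    intro U V hU hV n
    rw [sdiff_inter]
    exact (hU n).union (hV n)
  isOpen_sUnion := by
    intro S hS n
    have h : K n \ ⋃₀ S = K n ∩ ⋂ U ∈ S, (K n \ U) := by
      ext x
      simp only [Set.mem_sdiff, mem_sUnion, mem_inter_iff, mem_iInter, not_exists, not_and]
      constructor
      · rintro ⟨h1, h2⟩
        exact ⟨h1, fun U hU => ⟨h1, h2 U hU⟩⟩
      · rintro ⟨h1, h2⟩
        exact ⟨h1, fun U hU => (h2 U hU).2⟩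
    rw [h]
    apply (hK n).inter_right
    exact isClosed_biInter fun U hU => (hS U hU n).isClosed

variable (K : ℕ → Set G) (hK : ∀ n, IsCompact (K n))

theorem isOpen_kOmega_iff (U : Set G) :
    IsOpen[kOmega K hK] U ↔ ∀ n, IsCompact (K n \ U) := Iff.rfl

theorem kOmega_le : kOmega K hK ≤ (inferInstance : TopologicalSpace G) := by
  intro U hU n
  exact (hK n).diff hU

/-- Relative openness: a `kOmega`-open set is traced on each `K n` by an open set. -/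
theorem exists_open_of_kOmega {U : Set G} (hU : IsOpen[kOmega K hK] U) (n : ℕ) :
    ∃ O : Set G, IsOpen O ∧ ∀ x ∈ K n, x ∈ O ↔ x ∈ U := by
  refine ⟨(K n \ U)ᶜ, (hU n).isClosed.isOpen_compl, ?_⟩
  intro x hx
  simp [hx]

theorem isOpen_kOmega_of_exists {U : Set G}
    (h : ∀ n, ∃ O : Set G, IsOpen O ∧ ∀ x ∈ K n, x ∈ O ↔ x ∈ U) :
    IsOpen[kOmega K hK] U := by
  intro n
  obtain ⟨O, hO, hx⟩ := h n
  have : K n \ U = K n \ O := by
    ext x
    simp only [Set.mem_sdiff]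
    constructor
    · rintro ⟨h1, h2⟩
      exact ⟨h1, fun h3 => h2 ((hx x h1).1 h3)⟩
    · rintro ⟨h1, h2⟩
      exact ⟨h1, fun h3 => h2 ((hx x h1).2 h3)⟩
  rw [this]
  exact (hK n).diff hO

/-- One step of the construction of product neighbourhoods. -/
theorem kOmega_step (hmono : Monotone K)
    (hmul : ∀ n, ∀ x ∈ K n, ∀ y ∈ K n, x * y ∈ K (2 * n))
    {U : Set G} (hU : IsOpen[kOmega K hK] U) (n : ℕ) (A B : Set G)
    (hA : IsCompact A) (hB : IsCompact B) (hAK : A ⊆ K n) (hBK : B ⊆ K n)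
    (hAB : ∀ x ∈ A, ∀ y ∈ B, x * y ∈ U) :
    ∃ A' B' : Set G, IsCompact A' ∧ IsCompact B' ∧ A' ⊆ K (n + 1) ∧ B' ⊆ K (n + 1) ∧
      (∀ x ∈ A', ∀ y ∈ B', x * y ∈ U) ∧
      (∃ O : Set G, IsOpen O ∧ A ⊆ O ∧ O ∩ K (n + 1) ⊆ A') ∧
      (∃ O : Set G, IsOpen O ∧ B ⊆ O ∧ O ∩ K (n + 1) ⊆ B') := by
  obtain ⟨O, hO, hOU⟩ := exists_open_of_kOmega K hK hU (2 * (n + 1))
  have hO' : IsOpen {p : G × G | p.1 * p.2 ∈ O} := hO.preimage continuous_mul
  have hsub : A ×ˢ B ⊆ {p : G × G | p.1 * p.2 ∈ O} := by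
    rintro ⟨x, y⟩ ⟨hx, hy⟩
    have hx' : x ∈ K (n + 1) := hmono (Nat.le_succ n) (hAK hx)
    have hy' : y ∈ K (n + 1) := hmono (Nat.le_succ n) (hBK hy)
    exact (hOU _ (hmul (n + 1) x hx' y hy')).2 (hAB x hx y hy)
  obtain ⟨V, W, hV, hW, hAV, hBW, hVW⟩ := generalized_tube_lemma hA hB hO' hsub
  obtain ⟨V', hV'o, hAV', hV'V⟩ := hA.exists_isOpen_closure_subset (hV.mem_nhdsSet.2 hAV)
  obtain ⟨W', hW'o, hBW', hW'W⟩ := hB.exists_isOpen_closure_subset (hW.mem_nhdsSet.2 hBW)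
  refine ⟨K (n + 1) ∩ closure V', K (n + 1) ∩ closure W', (hK _).inter_right isClosed_closure,
    (hK _).inter_right isClosed_closure, inter_subset_left, inter_subset_left, ?_, ?_, ?_⟩
  · rintro x ⟨hx1, hx2⟩ y ⟨hy1, hy2⟩
    have : (x, y) ∈ V ×ˢ W := ⟨hV'V hx2, hW'W hy2⟩
    exact (hOU _ (hmul (n + 1) x hx1 y hy1)).1 (hVW this)
  · exact ⟨V', hV'o, hAV', fun x hx => ⟨hx.2, subset_closure hx.1⟩⟩
  · exact ⟨W', hW'o, hBW', fun x hx => ⟨hx.2, subset_closure hx.1⟩⟩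

/-- Continuity of multiplication for the topology `kOmega`, in neighbourhood form. -/
theorem kOmega_mul_aux (hmono : Monotone K) (hcover : ∀ x, ∃ n, x ∈ K n)
    (hmul : ∀ n, ∀ x ∈ K n, ∀ y ∈ K n, x * y ∈ K (2 * n))
    {U : Set G} (hU : IsOpen[kOmega K hK] U) (a b : G) (hab : a * b ∈ U) :
    ∃ A B : Set G, IsOpen[kOmega K hK] A ∧ IsOpen[kOmega K hK] B ∧ a ∈ A ∧ b ∈ B ∧
      ∀ x ∈ A, ∀ y ∈ B, x * y ∈ U := by
  classical
  obtain ⟨na, hna⟩ := hcover a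
  obtain ⟨nb, hnb⟩ := hcover b
  set n0 := max na nb with hn0
  have ha0 : a ∈ K n0 := hmono (le_max_left _ _) hna
  have hb0 : b ∈ K n0 := hmono (le_max_right _ _) hnb
  let S : ℕ → Type u := fun n => {p : Set G × Set G // IsCompact p.1 ∧ IsCompact p.2 ∧
    p.1 ⊆ K (n0 + n) ∧ p.2 ⊆ K (n0 + n) ∧ ∀ x ∈ p.1, ∀ y ∈ p.2, x * y ∈ U}
  have hstep : ∀ n (p : S n), ∃ q : S (n + 1),
      (∃ O : Set G, IsOpen O ∧ p.1.1 ⊆ O ∧ O ∩ K (n0 + (n + 1)) ⊆ q.1.1) ∧
      (∃ O : Set G, IsOpen O ∧ p.1.2 ⊆ O ∧ O ∩ K (n0 + (n + 1)) ⊆ q.1.2) := by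
    rintro n ⟨⟨A, B⟩, hA, hB, hAK, hBK, hAB⟩
    obtain ⟨A', B', h1, h2, h3, h4, h5, h6, h7⟩ :=
      kOmega_step K hK hmono hmul hU (n0 + n) A B hA hB hAK hBK hAB
    exact ⟨⟨⟨A', B'⟩, h1, h2, h3, h4, h5⟩, h6, h7⟩
  choose step hstepA hstepB using hstep
  let seq : ∀ n, S n := fun n => Nat.rec (motive := fun n => S n)
    ⟨⟨{a}, {b}⟩, isCompact_singleton, isCompact_singleton, by simpa using ha0,
      by simpa using hb0, by
        intro x hx y hy
        simp only [mem_singleton_iff] at hx hy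
        rw [hx, hy]; exact hab⟩ (fun n p => step n p) n
  have hseq : ∀ n, seq (n + 1) = step n (seq n) := fun n => rfl
  have hOA : ∀ n, ∃ O : Set G, IsOpen O ∧ (seq n).1.1 ⊆ O ∧
      O ∩ K (n0 + (n + 1)) ⊆ (seq (n + 1)).1.1 := fun n => hstepA n (seq n)
  have hOB : ∀ n, ∃ O : Set G, IsOpen O ∧ (seq n).1.2 ⊆ O ∧
      O ∩ K (n0 + (n + 1)) ⊆ (seq (n + 1)).1.2 := fun n => hstepB n (seq n)
  have hmonoA : Monotone fun n => (seq n).1.1 := by
    apply monotone_nat_of_le_succ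
    intro n x hx
    obtain ⟨O, _, h1, h2⟩ := hOA n
    exact h2 ⟨h1 hx, hmono (by omega) ((seq n).2.2.2.1 hx)⟩
  have hmonoB : Monotone fun n => (seq n).1.2 := by
    apply monotone_nat_of_le_succ
    intro n x hx
    obtain ⟨O, _, h1, h2⟩ := hOB n
    exact h2 ⟨h1 hx, hmono (by omega) ((seq n).2.2.2.2.1 hx)⟩
  have hopen : ∀ (T : ℕ → Set G), Monotone T →
      (∀ n, ∃ O : Set G, IsOpen O ∧ T n ⊆ O ∧ O ∩ K (n0 + (n + 1)) ⊆ T (n + 1)) →
      IsOpen[kOmega K hK] (⋃ n, T n) := by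
    intro T hT hO
    apply isOpen_kOmega_of_exists
    intro m
    choose O hOo hTO hOT using hO
    refine ⟨⋃ n, O (n + m), isOpen_iUnion fun n => hOo _, ?_⟩
    intro x hx
    simp only [mem_iUnion]
    constructor
    · rintro ⟨n, hn⟩
      exact ⟨n + m + 1, hOT _ ⟨hn, hmono (by omega) hx⟩⟩
    · rintro ⟨n, hn⟩
      exact ⟨n, hTO _ (hT (by omega) hn)⟩
  refine ⟨⋃ n, (seq n).1.1, ⋃ n, (seq n).1.2, hopen _ hmonoA hOA, hopen _ hmonoB hOB, ?_, ?_, ?_⟩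
  · exact mem_iUnion.2 ⟨0, mem_singleton a⟩
  · exact mem_iUnion.2 ⟨0, mem_singleton b⟩
  · intro x hx y hy
    obtain ⟨i, hi⟩ := mem_iUnion.1 hx
    obtain ⟨j, hj⟩ := mem_iUnion.1 hy
    exact (seq (max i j)).2.2.2.2.2 x (hmonoA (le_max_left i j) hi) y
      (hmonoB (le_max_right i j) hj)

theorem kOmega_isOpen_inv (hinv : ∀ n, ∀ x ∈ K n, x⁻¹ ∈ K n) {U : Set G}
    (hU : IsOpen[kOmega K hK] U) : IsOpen[kOmega K hK] ((fun p : G => p⁻¹) ⁻¹' U) := by
  intro n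
  have h4 : K n \ ((fun p : G => p⁻¹) ⁻¹' U) = (fun p : G => p⁻¹) '' (K n \ U) := by
    ext x
    simp only [Set.mem_sdiff, mem_preimage, mem_image]
    constructor
    · rintro ⟨h5, h6⟩
      exact ⟨x⁻¹, ⟨hinv n x h5, h6⟩, by simp⟩
    · rintro ⟨y, ⟨h5, h6⟩, rfl⟩
      exact ⟨hinv n y h5, by simpa using h6⟩
  rw [h4]
  exact (hU n).image continuous_inv

theorem kOmega_isOpen_mul (hmono : Monotone K) (hcover : ∀ x, ∃ n, x ∈ K n)
    (hmul : ∀ n, ∀ x ∈ K n, ∀ y ∈ K n, x * y ∈ K (2 * n)) {U : Set G}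
    (hU : IsOpen[kOmega K hK] U) :
    IsOpen[@instTopologicalSpaceProd G G (kOmega K hK) (kOmega K hK)]
      ((fun p : G × G => p.1 * p.2) ⁻¹' U) := by
  rw [@isOpen_prod_iff G G (kOmega K hK) (kOmega K hK)]
  intro a b hab
  obtain ⟨A, B, hA, hB, ha, hb, hAB⟩ := kOmega_mul_aux K hK hmono hcover hmul hU a b hab
  exact ⟨A, B, hA, hB, ha, hb, fun p hp => hAB _ hp.1 _ hp.2⟩

theorem kOmega_isTopologicalGroup (hmono : Monotone K) (hcover : ∀ x, ∃ n, x ∈ K n)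
    (hmul : ∀ n, ∀ x ∈ K n, ∀ y ∈ K n, x * y ∈ K (2 * n))
    (hinv : ∀ n, ∀ x ∈ K n, x⁻¹ ∈ K n) :
    @IsTopologicalGroup G (kOmega K hK) _ := by
  have h1 := @kOmega_isOpen_mul G _ _ _ _ K hK hmono hcover hmul
  have h2 := @kOmega_isOpen_inv G _ _ _ _ K hK hinv
  refine @IsTopologicalGroup.mk G (kOmega K hK) _ (@ContinuousMul.mk G (kOmega K hK) _ ?_)
    (@ContinuousInv.mk G (kOmega K hK) _ ?_)
  · rw [continuous_def]
    exact fun U hU => h1 hU
  · rw [continuous_def]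
    exact fun U hU => h2 hU

/-- A compact set for the topology `kOmega` lies in one of the `K n`. -/
theorem kOmega_isCompact_subset (hmono : Monotone K) (hcover : ∀ x, ∃ n, x ∈ K n)
    {S : Set G} (hS : @IsCompact G (kOmega K hK) S) : ∃ n, S ⊆ K n := by
  by_contra hcon
  push Not at hcon
  have h1 : ∀ n, ∃ x, x ∈ S ∧ x ∉ K n := fun n => by
    obtain ⟨x, hx, hx'⟩ := not_subset.1 (hcon n)
    exact ⟨x, hx, hx'⟩
  choose x hxS hxK using h1
  obtain ⟨g, hgS, hg⟩ : ∃ g ∈ S, @MapClusterPt G (kOmega K hK) ℕ g atTop x :=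
    @IsCompact.exists_mapClusterPt G (kOmega K hK) S ℕ hS atTop _ x
      (tendsto_principal.2 (Eventually.of_forall hxS))
  obtain ⟨M, hM⟩ := hcover g
  -- the complement of the other values of the sequence is an open neighbourhood of `g`
  have hfin : ∀ n, (K n ∩ (range x \ {g})).Finite := by
    intro n
    apply (Set.finite_lt_nat n |>.image x).subset
    rintro y ⟨hy1, ⟨m, rfl⟩, _⟩
    refine ⟨m, ?_, rfl⟩
    by_contra hmn
    simp only [mem_setOf_eq, not_lt] at hmn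
    exact hxK m (hmono hmn hy1)
  have hopen : IsOpen[kOmega K hK] (range x \ {g})ᶜ := by
    intro n
    have : K n \ (range x \ {g})ᶜ = K n ∩ (range x \ {g}) := by
      ext y; simp
    rw [this]
    exact (hfin n).isCompact
  have hmem : g ∈ (range x \ {g})ᶜ := by simp
  have hnhds : (range x \ {g})ᶜ ∈ @nhds G (kOmega K hK) g :=
    @IsOpen.mem_nhds G (kOmega K hK) _ _ hopen hmem
  have hfreq := (@mapClusterPt_iff_frequently G (kOmega K hK) ℕ _ _ _).1 hg _ hnhds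
  obtain ⟨m, hm1, hm2⟩ := (hfreq.and_eventually (eventually_ge_atTop M)).exists
  have hxm : x m = g := by
    by_contra hne
    exact hm1 ⟨mem_range_self m, hne⟩
  exact hxK m (hmono hm2 (hxm ▸ hM))

end KOmega

end Pool.Agent.Helper50
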