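import Mathlib
import Pool.Agent.Helper50.KOmega

open Topology Set Filter

namespace Pool.Agent.Helper50

universe u

section FinTop

variable (C : Type u) [TopologicalSpace C]

/-- The group topology on the free group induced by all continuous maps to `ℕ`. -/
def finTop : TopologicalSpace (FreeGroup C) :=
  ⨅ φ : C(C, ℕ), TopologicalSpace.induced (FreeGroup.map φ) ⊥

theorem finTop_isTopologicalGroup : @IsTopologicalGroup (FreeGroup C) (finTop C) _ := by
  apply topologicalGroup_iInf
  intro φ
  letI : TopologicalSpace (FreeGroup ℕ) := ⊥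
  haveI : DiscreteTopology (FreeGroup ℕ) := ⟨rfl⟩
  exact topologicalGroup_induced (FreeGroup.map φ)

theorem continuous_of_finTop : @Continuous C (FreeGroup C) _ (finTop C) FreeGroup.of := by
  rw [finTop, continuous_iInf_rng]
  intro φ
  rw [continuous_induced_rng]
  letI : TopologicalSpace (FreeGroup ℕ) := ⊥
  have : (FreeGroup.map φ ∘ FreeGroup.of : C → FreeGroup ℕ) = FreeGroup.of ∘ φ := by
    ext x; simp
  rw [this]
  exact (continuous_of_discreteTopology (f := (FreeGroup.of : ℕ → FreeGroup ℕ))).comp φ.continuous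

theorem exists_finset_map_eq (w : FreeGroup C) :
    ∃ E : Finset C, ∀ h : C → C, (∀ c ∈ E, h c = c) → FreeGroup.map h w = w := by
  classical
  induction w using FreeGroup.induction_on with
  | C1 => exact ⟨∅, fun h _ => by simp⟩
  | of x => exact ⟨{x}, fun h hx => by simp [hx x (Finset.mem_singleton_self x)]⟩
  | inv_of x ih =>
    obtain ⟨E, hE⟩ := ih
    exact ⟨E, fun h hx => by rw [map_inv, hE h hx]⟩
  | mul x y hx hy =>
    obtain ⟨E, hE⟩ := hx
    obtain ⟨F, hF⟩ := hy
    refine ⟨E ∪ F, fun h hh => ?_⟩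
    rw [map_mul, hE h fun c hc => hh c (Finset.mem_union_left _ hc),
      hF h fun c hc => hh c (Finset.mem_union_right _ hc)]

variable {C}

theorem exists_injOn (hsep : ∀ x y : C, x ≠ y → ∃ U : Set C, IsClopen U ∧ x ∈ U ∧ y ∉ U)
    (E : Finset C) : ∃ φ : C(C, ℕ), InjOn φ E := by
  classical
  induction E using Finset.induction_on with
  | empty => exact ⟨ContinuousMap.const _ 0, by simp⟩
  | insert a E ha ih =>
    obtain ⟨φ, hφ⟩ := ih
    have hU : ∀ b : C, ∃ U : Set C, IsClopen U ∧ a ∈ U ∧ (b ≠ a → b ∉ U) := by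
      intro b
      by_cases hb : b = a
      · exact ⟨univ, isClopen_univ, mem_univ _, fun h => (h hb).elim⟩
      · obtain ⟨U, h1, h2, h3⟩ := hsep a b (Ne.symm hb)
        exact ⟨U, h1, h2, fun _ => h3⟩
    choose U hU1 hU2 hU3 using hU
    set V : Set C := ⋂ b ∈ E, U b with hV
    have hVc : IsClopen V := by
      have := isClopen_biInter_finset (s := E) (f := U) fun b _ => hU1 b
      exact this
    have haV : a ∈ V := by
      simp only [hV, mem_iInter]
      exact fun b _ => hU2 b
    have hEV : ∀ b ∈ E, b ∉ V := by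
      intro b hb hbV
      have hba : b ≠ a := fun h => ha (h ▸ hb)
      simp only [hV, mem_iInter] at hbV
      exact hU3 b hba (hbV b hb)
    let ψ : C → ℕ := V.piecewise (fun c => 2 * φ c + 1) (fun c => 2 * φ c)
    have hψ : Continuous ψ := by
      apply Continuous.piecewise
      · intro c hc
        rw [hVc.frontier_eq] at hc
        exact hc.elim
      · exact (continuous_of_discreteTopology (f := fun n : ℕ => 2 * n + 1)).comp φ.continuous
      · exact (continuous_of_discreteTopology (f := fun n : ℕ => 2 * n)).comp φ.continuous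
    refine ⟨⟨ψ, hψ⟩, ?_⟩
    have hψa : ψ a = 2 * φ a + 1 := piecewise_eq_of_mem _ _ _ haV
    have hψE : ∀ b ∈ E, ψ b = 2 * φ b := fun b hb => piecewise_eq_of_notMem _ _ _ (hEV b hb)
    intro x hx y hy hxy
    simp only [Finset.coe_insert, mem_insert_iff, Finset.mem_coe] at hx hy
    change ψ x = ψ y at hxy
    rcases hx with rfl | hx <;> rcases hy with rfl | hy
    · rfl
    · rw [hψa, hψE y hy] at hxy; omega
    · rw [hψa, hψE x hx] at hxy; omega
    · rw [hψE x hx, hψE y hy] at hxy
      exact hφ hx hy (by omega)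

theorem exists_map_ne_one (hsep : ∀ x y : C, x ≠ y → ∃ U : Set C, IsClopen U ∧ x ∈ U ∧ y ∉ U)
    (w : FreeGroup C) (hw : w ≠ 1) : ∃ φ : C(C, ℕ), FreeGroup.map φ w ≠ 1 := by
  classical
  obtain ⟨E, hE⟩ := exists_finset_map_eq C w
  obtain ⟨φ, hφ⟩ := exists_injOn hsep E
  rcases isEmpty_or_nonempty C with hC | hC
  · refine absurd ?_ hw
    have : E = ∅ := Finset.eq_empty_of_isEmpty E
    have h1 := hE id (by simp)
    exact Subsingleton.elim _ _
  refine ⟨φ, fun h => hw ?_⟩
  have h1 := hE (Function.invFunOn φ E ∘ φ) (fun c hc => by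
    exact hφ.leftInvOn_invFunOn (Finset.mem_coe.2 hc))
  have h2 : FreeGroup.map (Function.invFunOn φ E ∘ φ) w =
      FreeGroup.map (Function.invFunOn φ (E : Set C)) (FreeGroup.map φ w) := by
    rw [FreeGroup.map.comp]
  rw [← h1, h2, h, map_one]

theorem finTop_t2 (hsep : ∀ x y : C, x ≠ y → ∃ U : Set C, IsClopen U ∧ x ∈ U ∧ y ∉ U) :
    @T2Space (FreeGroup C) (finTop C) := by
  refine @T2Space.mk _ (finTop C) ?_
  intro v w hvw
  obtain ⟨φ, hφ⟩ := exists_map_ne_one hsep (v * w⁻¹) (by
    intro h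
    exact hvw (mul_inv_eq_one.1 h))
  have hne : FreeGroup.map φ v ≠ FreeGroup.map φ w := by
    intro h
    apply hφ
    rw [map_mul, map_inv, h, mul_inv_cancel]
  have hop : ∀ S : Set (FreeGroup ℕ), IsOpen[finTop C] (FreeGroup.map φ ⁻¹' S) := by
    intro S
    have hle : finTop C ≤ TopologicalSpace.induced (FreeGroup.map φ) ⊥ := iInf_le _ φ
    apply hle
    exact ⟨S, trivial, rfl⟩
  exact ⟨_, _, hop {FreeGroup.map φ v}, hop {FreeGroup.map φ w}, rfl, rfl, by
    rw [Set.disjoint_left]
    intro x hx hy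
    exact hne ((hx.symm).trans hy)⟩

end FinTop

end Pool.Agent.Helper50
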