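import Mathlib
import Pool.Agent.Helper50.FinTop

open Topology Set Filter
open scoped Pointwise

namespace Pool.Agent.Helper50

universe u v

section Free

/-- The finest group topology on the free group for which the generators map continuously. -/
def freeTop (X : Type u) [TopologicalSpace X] : TopologicalSpace (FreeGroup X) :=
  (GroupTopology.coinduced (FreeGroup.of : X → FreeGroup X)).toTopologicalSpace

variable (X : Type u) [TopologicalSpace X]

theorem freeTop_isTopologicalGroup : @IsTopologicalGroup (FreeGroup X) (freeTop X) _ :=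
  (GroupTopology.coinduced (FreeGroup.of : X → FreeGroup X)).toIsTopologicalGroup

theorem freeTop_continuous_of : @Continuous X (FreeGroup X) _ (freeTop X) FreeGroup.of :=
  GroupTopology.coinduced_continuous _

theorem freeTop_continuous_lift {G : Type v} [Group G] (tG : TopologicalSpace G)
    (hG : @IsTopologicalGroup G tG _) (f : X → G) (hf : @Continuous X G _ tG f) :
    @Continuous (FreeGroup X) G (freeTop X) tG (FreeGroup.lift f) := by
  let t' : GroupTopology (FreeGroup X) :=
    ⟨TopologicalSpace.induced (FreeGroup.lift f) tG, topologicalGroup_induced (FreeGroup.lift f)⟩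
  have h : GroupTopology.coinduced (FreeGroup.of : X → FreeGroup X) ≤ t' := by
    apply sInf_le
    change TopologicalSpace.coinduced _ _ ≤ TopologicalSpace.induced (FreeGroup.lift f) tG
    rw [← continuous_iff_coinduced_le, continuous_induced_rng]
    have : (FreeGroup.lift f ∘ FreeGroup.of : X → G) = f := by
      ext x; simp
    rw [this]
    exact hf
  exact continuous_iff_le_induced.2 h

/-- A letter with exponent `-1`, `0` or `1`. -/
def letter {X : Type u} (z : X × SignType) : FreeGroup X := FreeGroup.of z.1 ^ (z.2 : ℤ)

/-- The product of a tuple of letters. -/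
def word {X : Type u} (n : ℕ) (v : Fin n → X × SignType) : FreeGroup X :=
  (List.ofFn fun i => letter (v i)).prod

variable {X}

theorem continuous_letter (t : TopologicalSpace (FreeGroup X))
    (ht : @IsTopologicalGroup (FreeGroup X) t _) (hof : @Continuous X (FreeGroup X) _ t FreeGroup.of) :
    @Continuous (X × SignType) (FreeGroup X) _ t letter := by
  rw [continuous_prod_of_discrete_right]
  intro s
  exact (continuous_zpow (s : ℤ)).comp hof

theorem continuous_word (t : TopologicalSpace (FreeGroup X))
    (ht : @IsTopologicalGroup (FreeGroup X) t _) (hof : @Continuous X (FreeGroup X) _ t FreeGroup.of)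
    (n : ℕ) :
    @Continuous (Fin n → X × SignType) (FreeGroup X) _ t (word n) := by
  have : (word n : (Fin n → X × SignType) → FreeGroup X) =
      fun v => ((List.finRange n).map fun i => letter (v i)).prod := by
    ext v
    rw [word, List.ofFn_eq_map]
  rw [this]
  apply continuous_list_prod
  intro i _
  exact (continuous_letter t ht hof).comp (continuous_apply i)

theorem map_letter {X' : Type v} (h : X → X') (z : X × SignType) :
    FreeGroup.map h (letter z) = letter (h z.1, z.2) := by
  simp [letter]

theorem map_word {X' : Type v} (h : X → X') (n : ℕ) (v : Fin n → X × SignType) :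
    FreeGroup.map h (word n v) = word n (fun i => (h (v i).1, (v i).2)) := by
  rw [word, word, map_list_prod, List.map_ofFn]
  congr 1
  congr 1
  ext i
  simp [map_letter]

variable (X) in
/-- The set of letters. -/
def letters : Set (FreeGroup X) := range (letter (X := X))

theorem one_mem_letters [Nonempty X] : (1 : FreeGroup X) ∈ letters X :=
  ⟨(Classical.arbitrary X, 0), by simp [letter]⟩

theorem inv_mem_letters {w : FreeGroup X} (hw : w ∈ letters X) : w⁻¹ ∈ letters X := by
  obtain ⟨z, rfl⟩ := hw
  refine ⟨(z.1, -z.2), ?_⟩
  rcases z with ⟨c, s⟩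
  rcases s with _ | _ | _ <;> simp [letter]

theorem letters_inv : (letters X)⁻¹ = letters X := by
  ext w
  rw [Set.mem_inv]
  exact ⟨fun h => by simpa using inv_mem_letters h, inv_mem_letters⟩

theorem of_mem_letters (x : X) : FreeGroup.of x ∈ letters X := ⟨(x, 1), by simp [letter]⟩

theorem mem_letters_pow_iff {n : ℕ} {w : FreeGroup X} :
    w ∈ letters X ^ n ↔ ∃ v : Fin n → X × SignType, word n v = w := by
  rw [Set.mem_pow]
  constructor
  · rintro ⟨f, rfl⟩
    choose v hv using fun i => (f i).2
    refine ⟨v, ?_⟩
    rw [word]
    congr 1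
    congr 1
    ext i
    rw [hv i]
  · rintro ⟨v, rfl⟩
    exact ⟨fun i => ⟨letter (v i), v i, rfl⟩, rfl⟩

theorem letters_pow_mono [Nonempty X] : Monotone fun n => letters X ^ n := by
  intro m n h
  exact Set.pow_subset_pow_right one_mem_letters h

theorem exists_mem_letters_pow (w : FreeGroup X) : ∃ n, w ∈ letters X ^ n := by
  induction w using FreeGroup.induction_on with
  | C1 => exact ⟨0, by simp⟩
  | of x => exact ⟨1, by simpa using of_mem_letters x⟩
  | inv_of x ih => exact ⟨1, by simpa using inv_mem_letters (of_mem_letters x)⟩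
  | mul x y hx hy =>
    obtain ⟨m, hm⟩ := hx
    obtain ⟨n, hn⟩ := hy
    exact ⟨m + n, by rw [pow_add]; exact Set.mul_mem_mul hm hn⟩

theorem letters_pow_mul (n : ℕ) (x : FreeGroup X) (hx : x ∈ letters X ^ n) (y : FreeGroup X)
    (hy : y ∈ letters X ^ n) : x * y ∈ letters X ^ (2 * n) := by
  rw [two_mul, pow_add]
  exact Set.mul_mem_mul hx hy

theorem letters_pow_inv (n : ℕ) (x : FreeGroup X) (hx : x ∈ letters X ^ n) :
    x⁻¹ ∈ letters X ^ n := by
  have : (letters X ^ n)⁻¹ = letters X ^ n := by
    rw [← inv_pow, letters_inv]
  rw [← this]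
  simpa using hx

end Free

section KOf

theorem continuous_of_kOmega {C : Type u} [TopologicalSpace C] [t : TopologicalSpace (FreeGroup C)]
    [IsTopologicalGroup (FreeGroup C)] [T2Space (FreeGroup C)] (K : ℕ → Set (FreeGroup C))
    (hK : ∀ n, IsCompact (K n)) (hof : Continuous (FreeGroup.of : C → FreeGroup C))
    (h1 : ∀ c, FreeGroup.of c ∈ K 1) :
    @Continuous C (FreeGroup C) _ (kOmega K hK) FreeGroup.of := by
  rw [continuous_def]
  intro S hS
  have h2 : FreeGroup.of ⁻¹' S = (FreeGroup.of ⁻¹' (K 1 \ S) : Set C)ᶜ := by
    ext c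
    simp [h1 c]
  rw [h2]
  exact ((hS 1).isClosed.preimage hof).isOpen_compl

end KOf

section Compact

variable {C : Type u} [TopologicalSpace C] [CompactSpace C]

theorem isCompact_letters_pow (t : TopologicalSpace (FreeGroup C))
    (ht : @IsTopologicalGroup (FreeGroup C) t _) (hof : @Continuous C (FreeGroup C) _ t FreeGroup.of)
    (n : ℕ) : @IsCompact (FreeGroup C) t (letters C ^ n) := by
  have : letters C ^ n = range (word (X := C) n) := by
    ext w
    rw [mem_letters_pow_iff, mem_range]
  rw [this]
  exact isCompact_range (continuous_word t ht hof n)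

end Compact

end Pool.Agent.Helper50
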