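import Mathlib
import Pool.Agent.Helper50.FreeTop

open Topology Set Filter OnePoint

namespace Pool.Agent.Helper50

universe u v

section Plank

variable {A : Type u} (a₀ : A)

/-- The product of `A` with a convergent sequence, minus the corner. -/
abbrev Plank : Type u := {c : A × OnePoint ℕ // c ≠ (a₀, ∞)}

theorem ne_corner_of_ne {a : A} (h : a ≠ a₀) (j : OnePoint ℕ) : (a, j) ≠ (a₀, ∞) := by
  intro h'
  exact h (congrArg Prod.fst h')

theorem ne_corner_coe (a : A) (n : ℕ) : (a, (n : OnePoint ℕ)) ≠ (a₀, ∞) := by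
  intro h'
  exact OnePoint.coe_ne_infty n (congrArg Prod.snd h')

variable [TopologicalSpace A]

variable {a₀}

theorem local_const {Y : Type v} [TopologicalSpace Y] [LocallyCompactSpace Y]
    (hP : ∀ U : ℕ → Set A, (∀ n, U n ∈ 𝓝 a₀) → (⋂ n, U n) ∈ 𝓝 a₀)
    (f : Y × Plank a₀ → ℝ) (hf : Continuous f) (y0 : Y) :
    ∃ Y0 ∈ 𝓝 y0, ∃ U ∈ 𝓝 a₀, ∀ y ∈ Y0, ∀ a ∈ U, ∀ a' ∈ U, ∀ (j : OnePoint ℕ)
      (h : (a, j) ≠ (a₀, ∞)) (h' : (a', j) ≠ (a₀, ∞)), f (y, ⟨(a, j), h⟩) = f (y, ⟨(a', j), h'⟩) := by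
  obtain ⟨Y0, hY0, hY0n⟩ := exists_compact_mem_nhds y0
  let F : ℕ → A × Y → ℝ := fun n p =>
    f (p.2, ⟨(p.1, n), ne_corner_coe a₀ p.1 n⟩) - f (p.2, ⟨(a₀, n), ne_corner_coe a₀ a₀ n⟩)
  have hF : ∀ n, Continuous (F n) := by
    intro n
    apply Continuous.sub
    · apply hf.comp
      apply Continuous.prodMk continuous_snd
      apply Continuous.subtype_mk
      exact Continuous.prodMk continuous_fst continuous_const
    · apply hf.comp
      apply Continuous.prodMk continuous_snd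
      exact continuous_const
  let T : ℕ → ℕ → Set A := fun n m => {a | ∀ y ∈ Y0, |F n (a, y)| < 1 / ((m : ℝ) + 1)}
  have hT : ∀ n m, T n m ∈ 𝓝 a₀ := by
    intro n m
    have h1 : ∀ y ∈ Y0, ∀ᶠ z : A × Y in 𝓝 (a₀, y), |F n (z.1, z.2)| < 1 / ((m : ℝ) + 1) := by
      intro y _
      have h2 : Continuous fun z : A × Y => |F n (z.1, z.2)| := (hF n).abs
      apply h2.continuousAt.eventually_lt continuousAt_const
      have : F n (a₀, y) = 0 := by simp [F]
      simp only [this, abs_zero]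
      positivity
    exact hY0.eventually_forall_of_forall_eventually h1
  refine ⟨Y0, hY0n, ⋂ n, ⋂ m, T n m, hP _ fun n => hP _ fun m => hT n m, ?_⟩
  intro y hy a ha a' ha'
  have hzero : ∀ b ∈ ⋂ n, ⋂ m, T n m, ∀ n, F n (b, y) = 0 := by
    intro b hb n
    have h1 : ∀ m : ℕ, |F n (b, y)| < 1 / ((m : ℝ) + 1) := by
      intro m
      have := mem_iInter.1 (mem_iInter.1 hb n) m
      exact this y hy
    by_contra hne
    have hpos : 0 < |F n (b, y)| := abs_pos.2 hne
    obtain ⟨m, hm⟩ := exists_nat_one_div_lt hpos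
    exact lt_irrefl _ ((h1 m).trans hm)
  have hn : ∀ n : ℕ, f (y, ⟨(a, n), ne_corner_coe a₀ a n⟩) =
      f (y, ⟨(a', n), ne_corner_coe a₀ a' n⟩) := by
    intro n
    have h1 := hzero a ha n
    have h2 := hzero a' ha' n
    simp only [F] at h1 h2
    linarith
  intro j
  induction j using OnePoint.rec with
  | coe n => exact fun _ _ => hn n
  | infty =>
    intro h h'
    have hne : a ≠ a₀ := fun h1 => h (by rw [h1])
    have hne' : a' ≠ a₀ := fun h1 => h' (by rw [h1])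
    have hlim : ∀ b (hb : b ≠ a₀), Tendsto
        (fun n : ℕ => f (y, ⟨(b, n), ne_corner_coe a₀ b n⟩)) atTop
        (𝓝 (f (y, ⟨(b, ∞), ne_corner_of_ne a₀ hb ∞⟩))) := by
      intro b hb
      have hc : Continuous fun j : OnePoint ℕ => f (y, ⟨(b, j), ne_corner_of_ne a₀ hb j⟩) := by
        apply hf.comp
        apply Continuous.prodMk continuous_const
        apply Continuous.subtype_mk
        exact Continuous.prodMk continuous_const continuous_id
      exact (continuous_iff_from_nat _).1 hc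
    have h1 := hlim a hne
    have h2 := hlim a' hne'
    simp only [hn] at h1
    exact tendsto_nhds_unique h1 h2

variable [T1Space A]

theorem isOpenEmbedding_val : IsOpenEmbedding (Subtype.val : Plank a₀ → A × OnePoint ℕ) :=
  (isOpen_compl_singleton (x := (a₀, ∞))).isOpenEmbedding_subtypeVal

theorem extend_one {Y : Type v} [TopologicalSpace Y] [LocallyCompactSpace Y]
    (hP : ∀ U : ℕ → Set A, (∀ n, U n ∈ 𝓝 a₀) → (⋂ n, U n) ∈ 𝓝 a₀)
    (hNI : (𝓝[≠] a₀).NeBot)
    (f : Y × Plank a₀ → ℝ) (hf : Continuous f) :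
    ∃ g : Y × (A × OnePoint ℕ) → ℝ, Continuous g ∧
      ∀ y (x : Plank a₀), g (y, x.1) = f (y, x) := by
  classical
  choose Y0 hY0 U hU hUf using local_const hP f hf
  have hpt : ∀ V ∈ 𝓝 a₀, ∃ a ∈ V, a ≠ a₀ := by
    intro V hV
    have : V ∈ 𝓝[≠] a₀ := mem_nhdsWithin_of_mem_nhds hV
    have h2 : V ∩ {a₀}ᶜ ∈ 𝓝[≠] a₀ := inter_mem this self_mem_nhdsWithin
    obtain ⟨a, ha1, ha2⟩ := hNI.nonempty_of_mem h2
    exact ⟨a, ha1, ha2⟩
  choose p hpU hpne using fun y => hpt (U y) (hU y)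
  let L : Y → ℝ := fun y => f (y, ⟨(p y, ∞), ne_corner_of_ne a₀ (hpne y) ∞⟩)
  let g : Y × (A × OnePoint ℕ) → ℝ := fun q =>
    if h : q.2 ≠ (a₀, ∞) then f (q.1, ⟨q.2, h⟩) else L q.1
  have hg : ∀ y (x : Plank a₀), g (y, x.1) = f (y, x) := by
    intro y x
    have hx : x.1 ≠ (a₀, ∞) := x.2
    simp only [g]
    rw [dif_pos hx]
  refine ⟨g, ?_, hg⟩
  rw [continuous_iff_continuousAt]
  rintro ⟨y0, c0⟩
  by_cases hc : c0 = (a₀, ∞)
  · subst hc
    -- near the corner
    obtain ⟨a1, ha1U, ha1⟩ := hpt (U y0) (hU y0)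
    let k : Y × (A × OnePoint ℕ) → ℝ := fun q =>
      f (q.1, ⟨(a1, q.2.2), ne_corner_of_ne a₀ ha1 _⟩)
    have hk : Continuous k := by
      apply hf.comp
      apply Continuous.prodMk continuous_fst
      apply Continuous.subtype_mk
      exact Continuous.prodMk continuous_const (continuous_snd.comp continuous_snd)
    have hgk : g =ᶠ[𝓝 (y0, (a₀, ∞))] k := by
      have hmem : Y0 y0 ×ˢ (U y0 ×ˢ (univ : Set (OnePoint ℕ))) ∈ 𝓝 (y0, (a₀, (∞ : OnePoint ℕ))) :=
        prod_mem_nhds (hY0 y0) (prod_mem_nhds (hU y0) univ_mem)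
      filter_upwards [hmem]
      rintro ⟨y, a, j⟩ ⟨hy, ha, _⟩
      simp only at hy ha
      by_cases hcor : (a, j) = (a₀, ∞)
      · have hj : j = ∞ := congrArg Prod.snd hcor
        have hgv : g (y, (a, j)) = L y := by
          simp only [g]
          rw [dif_neg (by simpa using hcor)]
        rw [hgv]
        obtain ⟨a2, ha2, ha2ne⟩ := hpt (U y0 ∩ U y) (inter_mem (hU y0) (hU y))
        have h1 : L y = f (y, ⟨(a2, ∞), ne_corner_of_ne a₀ ha2ne ∞⟩) :=
          hUf y y (mem_of_mem_nhds (hY0 y)) _ (hpU y) _ ha2.2 _ _ _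
        have h2 : f (y, ⟨(a2, ∞), ne_corner_of_ne a₀ ha2ne ∞⟩) =
            f (y, ⟨(a1, ∞), ne_corner_of_ne a₀ ha1 ∞⟩) :=
          hUf y0 y hy _ ha2.1 _ ha1U _ _ _
        rw [h1, h2]
        subst hj
        rfl
      · have hgv : g (y, (a, j)) = f (y, ⟨(a, j), hcor⟩) := hg y ⟨(a, j), hcor⟩
        rw [hgv]
        exact hUf y0 y hy _ ha _ ha1U _ _ _
    exact hk.continuousAt.congr hgk.symm
  · have hemb : IsOpenEmbedding (Prod.map (id : Y → Y) (Subtype.val : Plank a₀ → A × OnePoint ℕ)) :=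
      IsOpenEmbedding.id.prodMap isOpenEmbedding_val
    have h1 : ContinuousAt (g ∘ Prod.map (id : Y → Y) (Subtype.val : Plank a₀ → A × OnePoint ℕ))
        (y0, ⟨c0, hc⟩) := by
      have : g ∘ Prod.map (id : Y → Y) (Subtype.val : Plank a₀ → A × OnePoint ℕ) = f := by
        ext ⟨y, x⟩
        exact hg y x
      rw [this]
      exact hf.continuousAt
    exact hemb.continuousAt_iff.1 h1

end Plank

end Pool.Agent.Helper50
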