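import Mathlib
import Pool.Agent.Helper50.Plank

open Topology Set Filter OnePoint
open scoped Pointwise

namespace Pool.Agent.Helper50

universe u v

/-- A space is a `k_R`-space if every real function that is continuous on each compact subset is
continuous. -/
def IsKRSpace (Y : Type*) [TopologicalSpace Y] : Prop :=
  ∀ f : Y → ℝ, (∀ K : Set Y, IsCompact K → ContinuousOn f K) → Continuous f

section Ext

variable {A : Type u} {a₀ : A} [TopologicalSpace A] [T2Space A] [CompactSpace A]

instance plank_locallyCompact : LocallyCompactSpace (Plank a₀) :=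
  (isOpen_compl_singleton (x := (a₀, (∞ : OnePoint ℕ)))).locallyCompactSpace

theorem extend_words
    (hP : ∀ U : ℕ → Set A, (∀ n, U n ∈ 𝓝 a₀) → (⋂ n, U n) ∈ 𝓝 a₀)
    (hNI : (𝓝[≠] a₀).NeBot) (n : ℕ) :
    ∀ (Y : Type u) [TopologicalSpace Y] [LocallyCompactSpace Y]
    (f : Y × (Fin n → Plank a₀ × SignType) → ℝ) (_ : Continuous f),
    ∃ g : Y × (Fin n → (A × OnePoint ℕ) × SignType) → ℝ, Continuous g ∧
      ∀ y (v : Fin n → Plank a₀ × SignType), g (y, fun i => ((v i).1.1, (v i).2)) = f (y, v) := by
  induction n with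
  | zero =>
    intro Y _ _ f hf
    refine ⟨fun p => f (p.1, Fin.elim0), ?_, ?_⟩
    · exact hf.comp (Continuous.prodMk continuous_fst continuous_const)
    · intro y v
      have : v = Fin.elim0 := Subsingleton.elim _ _
      rw [this]
  | succ n ih =>
    intro Y _ _ f hf
    let f1 : (Y × (Plank a₀ × SignType)) × (Fin n → Plank a₀ × SignType) → ℝ :=
      fun p => f (p.1.1, Fin.cons p.1.2 p.2)
    have hf1 : Continuous f1 := by
      apply hf.comp
      apply Continuous.prodMk (continuous_fst.comp continuous_fst)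
      apply continuous_pi
      intro i
      refine Fin.cases ?_ ?_ i
      · simp only [Fin.cons_zero]
        exact continuous_snd.comp continuous_fst
      · intro j
        simp only [Fin.cons_succ]
        exact (continuous_apply j).comp continuous_snd
    obtain ⟨g1, hg1, hg1f⟩ := ih (Y × (Plank a₀ × SignType)) f1 hf1
    let f2 : (Y × SignType × (Fin n → (A × OnePoint ℕ) × SignType)) × Plank a₀ → ℝ :=
      fun p => g1 ((p.1.1, (p.2, p.1.2.1)), p.1.2.2)
    have hf2 : Continuous f2 := by
      apply hg1.comp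
      fun_prop
    obtain ⟨g2, hg2, hg2f⟩ := extend_one hP hNI f2 hf2
    refine ⟨fun p => g2 ((p.1, (p.2 0).2, fun i => p.2 i.succ), (p.2 0).1), ?_, ?_⟩
    · apply hg2.comp
      fun_prop
    · intro y v
      have h1 := hg2f (y, (v 0).2, fun i => ((v i.succ).1.1, (v i.succ).2)) (v 0).1
      have h2 := hg1f (y, v 0) (fun i => v i.succ)
      simp only [f2, f1] at h1 h2
      refine h1.trans (h2.trans ?_)
      congr 2
      exact Fin.cons_self_tail v

theorem extend_words' (hP : ∀ U : ℕ → Set A, (∀ n, U n ∈ 𝓝 a₀) → (⋂ n, U n) ∈ 𝓝 a₀)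
    (hNI : (𝓝[≠] a₀).NeBot) (n : ℕ)
    (f : (Fin n → Plank a₀ × SignType) → ℝ) (hf : Continuous f) :
    ∃ g : (Fin n → (A × OnePoint ℕ) × SignType) → ℝ, Continuous g ∧
      ∀ (v : Fin n → Plank a₀ × SignType), g (fun i => ((v i).1.1, (v i).2)) = f v := by
  obtain ⟨g, hg, hgf⟩ := extend_words hP hNI n PUnit (fun p => f p.2) (hf.comp continuous_snd)
  exact ⟨fun v => g (PUnit.unit, v), hg.comp (Continuous.prodMk continuous_const continuous_id),
    fun v => hgf PUnit.unit v⟩

/-- The substitution sending the corner to `x` and fixing everything else. -/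
noncomputable def subst (x : Plank a₀) (c : A × OnePoint ℕ) : Plank a₀ :=
  open Classical in if h : c ≠ (a₀, ∞) then ⟨c, h⟩ else x

omit [TopologicalSpace A] [T2Space A] [CompactSpace A] in
theorem subst_val (x y : Plank a₀) : subst x y.1 = y := by
  rw [subst, dif_pos y.2]

omit [TopologicalSpace A] [T2Space A] [CompactSpace A] in
theorem subst_corner (x : Plank a₀) : subst x (a₀, ∞) = x := by
  rw [subst, dif_neg (by simp)]

omit [TopologicalSpace A] [T2Space A] [CompactSpace A] in
theorem map_subst_map_val (x : Plank a₀) (w : FreeGroup (Plank a₀)) :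
    FreeGroup.map (subst x) (FreeGroup.map Subtype.val w) = w := by
  rw [FreeGroup.map.comp]
  have : (subst x ∘ Subtype.val : Plank a₀ → Plank a₀) = id := by
    ext1 y
    exact subst_val x y
  rw [this]
  exact FreeGroup.map.id w

/-- The trace of the neighbourhood filter of the corner. -/
def cornerFilter (a₀ : A) : Filter (Plank a₀) := comap Subtype.val (𝓝 (a₀, ∞))

theorem cornerFilter_neBot (hNI : (𝓝[≠] a₀).NeBot) : (cornerFilter a₀).NeBot := by
  rw [cornerFilter, comap_neBot_iff]
  intro t ht
  have h1 : Continuous fun a : A => (a, (∞ : OnePoint ℕ)) := by fun_prop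
  have h2 : (fun a : A => (a, (∞ : OnePoint ℕ))) ⁻¹' t ∈ 𝓝 a₀ := h1.continuousAt.preimage_mem_nhds ht
  have h3 : ((fun a : A => (a, (∞ : OnePoint ℕ))) ⁻¹' t) ∩ {a₀}ᶜ ∈ 𝓝[≠] a₀ :=
    inter_mem (mem_nhdsWithin_of_mem_nhds h2) self_mem_nhdsWithin
  obtain ⟨a, ha1, ha2⟩ := hNI.nonempty_of_mem h3
  exact ⟨⟨(a, ∞), ne_corner_of_ne a₀ ha2 ∞⟩, ha1⟩

theorem tendsto_subst (c : A × OnePoint ℕ) :
    Tendsto (fun x : Plank a₀ => (subst x c).1) (cornerFilter a₀) (𝓝 c) := by
  by_cases h : c = (a₀, ∞)
  · subst h
    have : (fun x : Plank a₀ => (subst x (a₀, ∞)).1) = Subtype.val := by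
      ext1 x
      rw [subst_corner]
    rw [this]
    exact tendsto_comap
  · have : (fun x : Plank a₀ => (subst x c).1) = fun _ => c := by
      ext1 x
      rw [subst, dif_pos h]
    rw [this]
    exact tendsto_const_nhds

/-- The free topological group of the plank is a `k_R`-space. -/
theorem freeTop_isKRSpace (hP : ∀ U : ℕ → Set A, (∀ n, U n ∈ 𝓝 a₀) → (⋂ n, U n) ∈ 𝓝 a₀)
    (hNI : (𝓝[≠] a₀).NeBot)
    (hsep : ∀ x y : A × OnePoint ℕ, x ≠ y → ∃ U : Set (A × OnePoint ℕ), IsClopen U ∧ x ∈ U ∧ y ∉ U) :
    @IsKRSpace (FreeGroup (Plank a₀)) (freeTop (Plank a₀)) := by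
  letI : TopologicalSpace (FreeGroup (Plank a₀)) := freeTop (Plank a₀)
  haveI : IsTopologicalGroup (FreeGroup (Plank a₀)) := freeTop_isTopologicalGroup _
  intro f hf
  haveI := cornerFilter_neBot hNI
  -- `f` composed with the word maps is continuous
  have hfw : ∀ n, Continuous fun v : Fin n → Plank a₀ × SignType => f (word n v) := by
    intro n
    have hw := continuous_word (freeTop (Plank a₀)) (freeTop_isTopologicalGroup _)
      (freeTop_continuous_of _) n
    rw [continuous_iff_continuousAt]
    intro v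
    obtain ⟨V, hVc, hV⟩ := exists_compact_mem_nhds v
    have h2 := hf _ (hVc.image hw)
    have h3 : ContinuousOn (fun v => f (word n v)) V :=
      h2.comp hw.continuousOn (mapsTo_image _ _)
    exact h3.continuousAt hV
  choose g hg hgf using fun n => extend_words' hP hNI n (fun v => f (word n v)) (hfw n)
  -- limits along the corner filter
  have hlim : ∀ n (v : Fin n → (A × OnePoint ℕ) × SignType),
      Tendsto (fun x : Plank a₀ => f (FreeGroup.map (subst x) (word n v))) (cornerFilter a₀)
        (𝓝 (g n v)) := by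
    intro n v
    have h1 : (fun x : Plank a₀ => f (FreeGroup.map (subst x) (word n v))) =
        fun x => g n (fun i => ((subst x (v i).1).1, (v i).2)) := by
      ext x
      rw [map_word]
      exact (hgf n (fun i => (subst x (v i).1, (v i).2))).symm
    rw [h1]
    apply ((hg n).tendsto v).comp
    rw [tendsto_pi_nhds]
    intro i
    exact (tendsto_subst (v i).1).prodMk_nhds tendsto_const_nhds
  have hex : ∀ w : FreeGroup (A × OnePoint ℕ), ∃ l : ℝ,
      Tendsto (fun x : Plank a₀ => f (FreeGroup.map (subst x) w)) (cornerFilter a₀) (𝓝 l) := by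
    intro w
    obtain ⟨n, hn⟩ := exists_mem_letters_pow w
    obtain ⟨v, rfl⟩ := mem_letters_pow_iff.1 hn
    exact ⟨_, hlim n v⟩
  choose G hG using hex
  have hGw : ∀ n (v : Fin n → (A × OnePoint ℕ) × SignType), G (word n v) = g n v :=
    fun n v => tendsto_nhds_unique (hG _) (hlim n v)
  have hGf : ∀ w : FreeGroup (Plank a₀), G (FreeGroup.map Subtype.val w) = f w := by
    intro w
    have h1 := hG (FreeGroup.map Subtype.val w)
    simp only [map_subst_map_val] at h1
    exact tendsto_nhds_unique h1 tendsto_const_nhds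
  -- the `kOmega` topology on the free group over the full product
  haveI : Nonempty (A × OnePoint ℕ) := ⟨(a₀, ∞)⟩
  letI tfin : TopologicalSpace (FreeGroup (A × OnePoint ℕ)) := finTop (A × OnePoint ℕ)
  haveI : IsTopologicalGroup (FreeGroup (A × OnePoint ℕ)) := finTop_isTopologicalGroup _
  haveI : T2Space (FreeGroup (A × OnePoint ℕ)) := finTop_t2 hsep
  have hofC : Continuous (FreeGroup.of : A × OnePoint ℕ → FreeGroup (A × OnePoint ℕ)) :=
    continuous_of_finTop _
  let K : ℕ → Set (FreeGroup (A × OnePoint ℕ)) := fun n => letters (A × OnePoint ℕ) ^ n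
  have hK : ∀ n, IsCompact (K n) := fun n => isCompact_letters_pow tfin inferInstance hofC n
  have hgrp : @IsTopologicalGroup (FreeGroup (A × OnePoint ℕ)) (kOmega K hK) _ :=
    kOmega_isTopologicalGroup K hK letters_pow_mono exists_mem_letters_pow
      (fun n x hx y hy => letters_pow_mul n x hx y hy) (fun n x hx => letters_pow_inv n x hx)
  have hGc : @Continuous _ _ (kOmega K hK) _ G := by
    rw [continuous_def]
    intro S hS n
    have h1 : K n \ G ⁻¹' S = word n '' (g n ⁻¹' Sᶜ) := by
      ext w
      simp only [Set.mem_sdiff, mem_preimage, mem_image, mem_compl_iff]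
      constructor
      · rintro ⟨h2, h3⟩
        obtain ⟨v, rfl⟩ := mem_letters_pow_iff.1 h2
        exact ⟨v, by rwa [← hGw], rfl⟩
      · rintro ⟨v, h2, rfl⟩
        exact ⟨mem_letters_pow_iff.2 ⟨v, rfl⟩, by rwa [hGw]⟩
    rw [h1]
    have h2 : IsCompact (g n ⁻¹' Sᶜ) := (hS.isClosed_compl.preimage (hg n)).isCompact
    exact h2.image (continuous_word tfin inferInstance hofC n)
  have hofk : @Continuous (A × OnePoint ℕ) _ _ (kOmega K hK) FreeGroup.of :=
    continuous_of_kOmega K hK hofC (fun c => by simpa [K] using of_mem_letters c)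
  have hι : @Continuous (FreeGroup (Plank a₀)) (FreeGroup (A × OnePoint ℕ)) _ (kOmega K hK)
      (FreeGroup.map Subtype.val) := by
    have h1 : (FreeGroup.map Subtype.val : FreeGroup (Plank a₀) →* FreeGroup (A × OnePoint ℕ)) =
        FreeGroup.lift (fun x : Plank a₀ => FreeGroup.of x.1) := by
      ext x
      simp
    rw [h1]
    apply freeTop_continuous_lift (Plank a₀) (kOmega K hK) hgrp
    exact @Continuous.comp (Plank a₀) (A × OnePoint ℕ) (FreeGroup (A × OnePoint ℕ)) _ _
      (kOmega K hK) Subtype.val FreeGroup.of hofk continuous_subtype_val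
  have h1 : f = G ∘ FreeGroup.map Subtype.val := by
    ext w
    exact (hGf w).symm
  rw [h1]
  exact @Continuous.comp _ _ _ _ (kOmega K hK) _ _ _ hGc hι

end Ext

end Pool.Agent.Helper50
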