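import Mathlib
import Pool.Agent.Helper50.KRFree

open Topology Set Filter OnePoint
open scoped Pointwise

namespace Pool.Agent.Helper50

universe u v

section Edge

variable {A : Type u} (a₀ : A)

/-- The points of the right edge of the plank. -/
def xpt (n : ℕ) : Plank a₀ := ⟨(a₀, n), ne_corner_coe a₀ a₀ n⟩

/-- The subgroup generated by the right edge. -/
def edgeSubgroup : Subgroup (FreeGroup (Plank a₀)) :=
  Subgroup.closure (range fun n => FreeGroup.of (xpt a₀ n))

/-- Retraction of the full product to its right edge. -/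
def retr (c : A × OnePoint ℕ) : A × OnePoint ℕ := (a₀, c.2)

theorem map_mem_of_forall {X : Type u} {X' : Type v} (h : X → X') (S : Subgroup (FreeGroup X'))
    (hS : ∀ x, FreeGroup.of (h x) ∈ S) (w : FreeGroup X) : FreeGroup.map h w ∈ S := by
  induction w using FreeGroup.induction_on with
  | C1 => rw [map_one]; exact one_mem _
  | of x => rw [FreeGroup.map.of]; exact hS x
  | inv_of x ih => rw [map_inv]; exact inv_mem ih
  | mul x y hx hy => rw [map_mul]; exact mul_mem hx hy

theorem mem_edgeSubgroup_iff (w : FreeGroup (Plank a₀)) :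
    w ∈ edgeSubgroup a₀ ↔
      FreeGroup.map (retr a₀) (FreeGroup.map Subtype.val w) = FreeGroup.map Subtype.val w := by
  constructor
  · intro hw
    induction hw using Subgroup.closure_induction with
    | mem x hx =>
      obtain ⟨n, rfl⟩ := hx
      simp [xpt, retr]
    | one => simp
    | mul x y _ _ hx hy => rw [map_mul, map_mul, hx, hy]
    | inv x _ hx => rw [map_inv, map_inv, hx]
  · intro hw
    have h1 : w = FreeGroup.map (fun x : Plank a₀ => subst (xpt a₀ 0) (retr a₀ x.1)) w := by
      have h2 := congrArg (FreeGroup.map (subst (xpt a₀ 0))) hw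
      rw [map_subst_map_val] at h2
      conv_lhs => rw [← h2]
      rw [FreeGroup.map.comp, FreeGroup.map.comp]
      rfl
    rw [h1]
    have h3 : ∀ x : Plank a₀, ∃ n, subst (xpt a₀ 0) (retr a₀ x.1) = xpt a₀ n := by
      intro x
      obtain ⟨⟨a, j⟩, hx⟩ := x
      induction j using OnePoint.rec with
      | infty =>
        refine ⟨0, ?_⟩
        simp only [retr]
        exact subst_corner (xpt a₀ 0)
      | coe n =>
        refine ⟨n, ?_⟩
        simp only [retr]
        exact subst_val (xpt a₀ 0) (xpt a₀ n)
    apply map_mem_of_forall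
    intro x
    obtain ⟨n, hn⟩ := h3 x
    rw [hn]
    exact Subgroup.subset_closure ⟨n, rfl⟩

variable [TopologicalSpace A]

theorem freeTop_continuous_map {X : Type u} [TopologicalSpace X] {C : Type v}
    (t : TopologicalSpace (FreeGroup C)) (ht : @IsTopologicalGroup (FreeGroup C) t _)
    (h : X → C) (hh : @Continuous X (FreeGroup C) _ t (fun x => FreeGroup.of (h x))) :
    @Continuous (FreeGroup X) (FreeGroup C) (freeTop X) t (FreeGroup.map h) := by
  have h1 : (FreeGroup.map h : FreeGroup X →* FreeGroup C) =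
      FreeGroup.lift (fun x : X => FreeGroup.of (h x)) := by
    ext x
    simp
  rw [h1]
  exact freeTop_continuous_lift X t ht _ hh

theorem edgeSubgroup_isClosed
    (hsep : ∀ x y : A × OnePoint ℕ, x ≠ y → ∃ U : Set (A × OnePoint ℕ), IsClopen U ∧ x ∈ U ∧ y ∉ U) :
    @IsClosed (FreeGroup (Plank a₀)) (freeTop (Plank a₀)) (edgeSubgroup a₀ : Set _) := by
  letI : TopologicalSpace (FreeGroup (Plank a₀)) := freeTop (Plank a₀)
  letI tfin : TopologicalSpace (FreeGroup (A × OnePoint ℕ)) := finTop (A × OnePoint ℕ)
  haveI : IsTopologicalGroup (FreeGroup (A × OnePoint ℕ)) := finTop_isTopologicalGroup _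
  haveI : T2Space (FreeGroup (A × OnePoint ℕ)) := finTop_t2 hsep
  have hofC : Continuous (FreeGroup.of : A × OnePoint ℕ → FreeGroup (A × OnePoint ℕ)) :=
    continuous_of_finTop _
  have h1 : Continuous (FreeGroup.map (Subtype.val : Plank a₀ → A × OnePoint ℕ)) := by
    apply freeTop_continuous_map _ inferInstance
    exact hofC.comp continuous_subtype_val
  have h2 : Continuous (FreeGroup.map (fun x : Plank a₀ => retr a₀ x.1)) := by
    apply freeTop_continuous_map _ inferInstance
    apply hofC.comp
    exact Continuous.prodMk continuous_const (continuous_snd.comp continuous_subtype_val)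
  have h3 : (edgeSubgroup a₀ : Set (FreeGroup (Plank a₀))) =
      {w | FreeGroup.map (fun x : Plank a₀ => retr a₀ x.1) w = FreeGroup.map Subtype.val w} := by
    ext w
    rw [SetLike.mem_coe, mem_edgeSubgroup_iff, FreeGroup.map.comp]
    rfl
  rw [h3]
  exact isClosed_eq h2 h1

/-- Truncation of the convergent sequence. -/
def trunc (N : ℕ) (j : OnePoint ℕ) : OnePoint ℕ :=
  j.elim ∞ (fun n => if n ≤ N then (n : OnePoint ℕ) else ∞)

theorem trunc_infty (N : ℕ) : trunc N ∞ = ∞ := rfl

theorem trunc_of_le {N n : ℕ} (h : n ≤ N) : trunc N (n : OnePoint ℕ) = n := by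
  simp [trunc, h]

theorem trunc_of_lt {N n : ℕ} (h : N < n) : trunc N (n : OnePoint ℕ) = ∞ := by
  simp [trunc, h]

theorem trunc_trunc {M N : ℕ} (h : N ≤ M) (j : OnePoint ℕ) : trunc N (trunc M j) = trunc N j := by
  induction j using OnePoint.rec with
  | infty => rfl
  | coe n =>
    rcases le_or_gt n M with h1 | h1
    · rw [trunc_of_le h1]
    · rw [trunc_of_lt h1, trunc_of_lt (h.trans_lt h1), trunc_infty]

/-- The homomorphism recording the second coordinates truncated at `N`. -/
def rho (N : ℕ) : FreeGroup (Plank a₀) →* FreeGroup (OnePoint ℕ) :=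
  FreeGroup.map (fun x : Plank a₀ => trunc N x.1.2)

theorem map_trunc_rho {M N : ℕ} (h : N ≤ M) (w : FreeGroup (Plank a₀)) :
    FreeGroup.map (trunc N) (rho a₀ M w) = rho a₀ N w := by
  rw [rho, rho, FreeGroup.map.comp]
  congr 2
  ext1 x
  exact trunc_trunc h _

theorem rho_continuous (N : ℕ) :
    @Continuous (FreeGroup (Plank a₀)) (FreeGroup (OnePoint ℕ)) (freeTop (Plank a₀)) ⊥
      (rho a₀ N) := by
  letI : TopologicalSpace (FreeGroup (OnePoint ℕ)) := ⊥
  haveI : DiscreteTopology (FreeGroup (OnePoint ℕ)) := ⟨rfl⟩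
  apply freeTop_continuous_map _ inferInstance
  have h1 : Continuous (fun j : OnePoint ℕ => FreeGroup.of (trunc N j)) := by
    rw [continuous_iff_from_nat]
    apply tendsto_const_nhds.congr'
    filter_upwards [eventually_gt_atTop N] with n hn
    rw [trunc_of_lt hn, trunc_infty]
  exact h1.comp (continuous_snd.comp continuous_subtype_val)

/-- The exponent sum of the letters marked by `p`. -/
def expo {Y : Type v} (p : Y → Prop) [DecidablePred p] : FreeGroup Y →* Multiplicative ℤ :=
  FreeGroup.lift (fun y => Multiplicative.ofAdd (if p y then 1 else 0))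

theorem expo_letters {Y : Type v} [TopologicalSpace Y] (p : Y → Prop) [DecidablePred p] (m : ℕ)
    (w : FreeGroup Y) (hw : w ∈ letters Y ^ m) : |Multiplicative.toAdd (expo p w)| ≤ m := by
  induction m generalizing w with
  | zero =>
    rw [pow_zero, Set.mem_one] at hw
    simp [hw]
  | succ m ih =>
    rw [pow_succ, Set.mem_mul] at hw
    obtain ⟨u, hu, l, hl, rfl⟩ := hw
    obtain ⟨⟨y, s⟩, rfl⟩ := hl
    have h1 := ih u hu
    have h2 : |Multiplicative.toAdd (expo p (letter (y, s)))| ≤ 1 := by
      simp only [letter, map_zpow, toAdd_zpow, expo, FreeGroup.lift_apply_of, toAdd_ofAdd]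
      rcases s with _ | _ | _ <;> split_ifs <;> simp
    rw [map_mul, toAdd_mul]
    push_cast
    exact (abs_add_le _ _).trans (by linarith)

end Edge

end Pool.Agent.Helper50
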