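import Mathlib
import Pool.Agent.Helper50.KREdge

open Topology Set Filter OnePoint
open scoped Pointwise

namespace Pool.Agent.Helper50

universe u v

section Not

variable {A : Type u} (a₀ : A)

theorem aux_group1 {G : Type v} [Group G] (a b c : G) : a * c⁻¹ / (b * c⁻¹) = a * b⁻¹ := by
  rw [div_eq_mul_inv]
  group

theorem aux_group2 {G : Type v} [Group G] (a b c d : G) :
    (a * b⁻¹)⁻¹ * (a * c⁻¹) * (c * d⁻¹) = b * d⁻¹ := by
  group

/-- The fan points. -/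
def fan (n k : ℕ) : FreeGroup (Plank a₀) :=
  FreeGroup.of (xpt a₀ k) * (FreeGroup.of (xpt a₀ n))⁻¹ *
    (FreeGroup.of (xpt a₀ n) * (FreeGroup.of (xpt a₀ (n + 1)))⁻¹) ^ k

/-- The images of the fan points. -/
def gam (n k : ℕ) : FreeGroup (OnePoint ℕ) :=
  FreeGroup.of (k : OnePoint ℕ) * (FreeGroup.of (n : OnePoint ℕ))⁻¹ *
    (FreeGroup.of (n : OnePoint ℕ) * (FreeGroup.of ((n + 1 : ℕ) : OnePoint ℕ))⁻¹) ^ k

theorem fan_mem (n k : ℕ) : fan a₀ n k ∈ edgeSubgroup a₀ := by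
  have h : ∀ m, FreeGroup.of (xpt a₀ m) ∈ edgeSubgroup a₀ := fun m =>
    Subgroup.subset_closure ⟨m, rfl⟩
  exact mul_mem (mul_mem (h k) (inv_mem (h n)))
    (pow_mem (mul_mem (h n) (inv_mem (h (n + 1)))) k)

theorem rho_fan {n k : ℕ} (h : k < n) : rho a₀ (n + 1) (fan a₀ n k) = gam n k := by
  have h1 : ∀ m, m ≤ n + 1 → rho a₀ (n + 1) (FreeGroup.of (xpt a₀ m)) =
      FreeGroup.of (m : OnePoint ℕ) := by
    intro m hm
    rw [rho, FreeGroup.map.of]
    simp only [xpt]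
    rw [trunc_of_le hm]
  rw [fan, gam, map_mul, map_mul, map_pow, map_mul, map_inv, map_inv, h1 k (by omega),
    h1 n (by omega), h1 (n + 1) le_rfl]

theorem map_trunc_gam {N n k : ℕ} (hk : k ≤ N) (hn : N < n) :
    FreeGroup.map (trunc N) (gam n k) =
      FreeGroup.of (k : OnePoint ℕ) * (FreeGroup.of (∞ : OnePoint ℕ))⁻¹ := by
  rw [gam, map_mul, map_mul, map_pow, map_mul, map_inv, map_inv, FreeGroup.map.of,
    FreeGroup.map.of, FreeGroup.map.of, trunc_of_le hk, trunc_of_lt hn,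
    trunc_of_lt (hn.trans (Nat.lt_succ_self n)), mul_inv_cancel, one_pow, mul_one]

open Classical in
theorem expo_gam {n k : ℕ} (h : k < n) :
    expo (fun j : OnePoint ℕ => j = ((n + 1 : ℕ) : OnePoint ℕ)) (gam n k) =
      Multiplicative.ofAdd (-(k : ℤ)) := by
  have h1 : ∀ m, m ≤ n → expo (fun j : OnePoint ℕ => j = ((n + 1 : ℕ) : OnePoint ℕ))
      (FreeGroup.of (m : OnePoint ℕ)) = 1 := by
    intro m hm
    rw [expo, FreeGroup.lift_apply_of, if_neg, ofAdd_zero]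
    rw [OnePoint.coe_eq_coe]
    omega
  have h2 : expo (fun j : OnePoint ℕ => j = ((n + 1 : ℕ) : OnePoint ℕ))
      (FreeGroup.of ((n + 1 : ℕ) : OnePoint ℕ)) = Multiplicative.ofAdd 1 := by
    rw [expo, FreeGroup.lift_apply_of, if_pos rfl]
  rw [gam, map_mul, map_mul, map_pow, map_mul, map_inv, map_inv, h1 k h.le, h1 n le_rfl, h2,
    inv_one, mul_one, one_mul, one_mul, ← ofAdd_neg, ← ofAdd_nsmul]
  simp

open Classical in
theorem expo_infty_of_mem {w : FreeGroup (Plank a₀)} (hw : w ∈ edgeSubgroup a₀) :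
    ∃ N0, ∀ N, N0 ≤ N → expo (fun j : OnePoint ℕ => j = ∞) (rho a₀ N w) = 1 := by
  induction hw using Subgroup.closure_induction with
  | mem x hx =>
    obtain ⟨n, rfl⟩ := hx
    refine ⟨n, fun N hN => ?_⟩
    simp only
    rw [rho, FreeGroup.map.of]
    simp only [xpt]
    rw [trunc_of_le hN, expo, FreeGroup.lift_apply_of, if_neg (OnePoint.coe_ne_infty n), ofAdd_zero]
  | one => exact ⟨0, fun N _ => by rw [map_one, map_one]⟩
  | mul x y _ _ hx hy =>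
    obtain ⟨M, hM⟩ := hx
    obtain ⟨M', hM'⟩ := hy
    refine ⟨max M M', fun N hN => ?_⟩
    rw [map_mul, map_mul, hM N (le_trans (le_max_left _ _) hN),
      hM' N (le_trans (le_max_right _ _) hN), mul_one]
  | inv x _ hx =>
    obtain ⟨M, hM⟩ := hx
    exact ⟨M, fun N hN => by rw [map_inv, map_inv, hM N hN, inv_one]⟩

variable [TopologicalSpace A]

/-- The right edge is a Cauchy sequence in every group topology making the plank continuous. -/
theorem cauchy_edge (hP : ∀ U : ℕ → Set A, (∀ n, U n ∈ 𝓝 a₀) → (⋂ n, U n) ∈ 𝓝 a₀)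
    (hNI : (𝓝[≠] a₀).NeBot)
    [t : TopologicalSpace (FreeGroup (Plank a₀))] [IsTopologicalGroup (FreeGroup (Plank a₀))]
    (hof : Continuous (FreeGroup.of : Plank a₀ → FreeGroup (Plank a₀)))
    {V : Set (FreeGroup (Plank a₀))} (hV : V ∈ 𝓝 (1 : FreeGroup (Plank a₀))) :
    ∃ k0, ∀ m, k0 ≤ m → ∀ n, k0 ≤ n →
      FreeGroup.of (xpt a₀ m) * (FreeGroup.of (xpt a₀ n))⁻¹ ∈ V := by
  obtain ⟨V2, hV2, h2⟩ := exists_nhds_one_split hV
  obtain ⟨V3, hV3, h3⟩ := exists_nhds_one_split hV2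
  set V1 := V3 ∩ V3⁻¹ ∩ V2 with hV1def
  have hV1 : V1 ∈ 𝓝 (1 : FreeGroup (Plank a₀)) :=
    inter_mem (inter_mem hV3 (inv_mem_nhds_one _ hV3)) hV2
  have hV1V : ∀ a ∈ V1, ∀ b ∈ V1, ∀ c ∈ V1, a⁻¹ * b * c ∈ V := by
    rintro a ⟨⟨_, ha⟩, _⟩ b ⟨⟨hb, _⟩, _⟩ c ⟨_, hc⟩
    exact h2 _ (h3 _ ha _ hb) _ hc
  have hn : ∀ n : ℕ, {a : A | FreeGroup.of (⟨(a, n), ne_corner_coe a₀ a n⟩ : Plank a₀) *
      (FreeGroup.of (xpt a₀ n))⁻¹ ∈ V1} ∈ 𝓝 a₀ := by
    intro n
    have hc : Continuous fun a : A => FreeGroup.of (⟨(a, n), ne_corner_coe a₀ a n⟩ : Plank a₀) *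
      (FreeGroup.of (xpt a₀ n))⁻¹ := by
      refine (hof.comp ?_).mul continuous_const
      apply Continuous.subtype_mk
      exact Continuous.prodMk continuous_id continuous_const
    have h1 : FreeGroup.of (⟨(a₀, n), ne_corner_coe a₀ a₀ n⟩ : Plank a₀) *
      (FreeGroup.of (xpt a₀ n))⁻¹ = 1 := mul_inv_cancel _
    have h4 := hc.continuousAt (x := a₀)
    rw [ContinuousAt, h1] at h4
    exact h4 hV1
  have hall := hP _ hn
  have h5 : (⋂ n : ℕ, {a : A | FreeGroup.of (⟨(a, n), ne_corner_coe a₀ a n⟩ : Plank a₀) *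
      (FreeGroup.of (xpt a₀ n))⁻¹ ∈ V1}) ∩ {a₀}ᶜ ∈ 𝓝[≠] a₀ :=
    inter_mem (mem_nhdsWithin_of_mem_nhds hall) self_mem_nhdsWithin
  obtain ⟨a1, ha1, ha1ne⟩ := hNI.nonempty_of_mem h5
  rw [mem_iInter] at ha1
  let y : OnePoint ℕ → FreeGroup (Plank a₀) := fun j =>
    FreeGroup.of (⟨(a1, j), ne_corner_of_ne a₀ ha1ne j⟩ : Plank a₀)
  have hy : Continuous y := by
    apply hof.comp
    apply Continuous.subtype_mk
    exact Continuous.prodMk continuous_const continuous_id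
  obtain ⟨W, hW, hWV⟩ := exists_nhds_split_inv hV1
  have hlim : Tendsto (fun n : ℕ => y n * (y ∞)⁻¹) atTop (𝓝 1) := by
    have h6 := (continuous_iff_from_nat _).1 hy
    have h7 := h6.mul (tendsto_const_nhds (x := (y ∞)⁻¹))
    rwa [mul_inv_cancel] at h7
  obtain ⟨k0, hk0⟩ := eventually_atTop.1 (hlim.eventually hW)
  refine ⟨k0, fun m hm n hn => ?_⟩
  have h8 : y m * (y n)⁻¹ ∈ V1 := by
    have h9 := hWV _ (hk0 m hm) _ (hk0 n hn)
    have h10 : y m * (y ∞)⁻¹ / (y n * (y ∞)⁻¹) = y m * (y n)⁻¹ := aux_group1 _ _ _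
    rwa [h10] at h9
  have h11 := hV1V _ (ha1 m) _ h8 _ (ha1 n)
  have h12 : (FreeGroup.of (⟨(a1, m), ne_corner_coe a₀ a1 m⟩ : Plank a₀) *
      (FreeGroup.of (xpt a₀ m))⁻¹)⁻¹ * (y m * (y n)⁻¹) *
      (FreeGroup.of (⟨(a1, n), ne_corner_coe a₀ a1 n⟩ : Plank a₀) *
      (FreeGroup.of (xpt a₀ n))⁻¹) = FreeGroup.of (xpt a₀ m) * (FreeGroup.of (xpt a₀ n))⁻¹ :=
    aux_group2 _ _ _ _
  rwa [h12] at h11

theorem exists_fan_mem (hP : ∀ U : ℕ → Set A, (∀ n, U n ∈ 𝓝 a₀) → (⋂ n, U n) ∈ 𝓝 a₀)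
    (hNI : (𝓝[≠] a₀).NeBot)
    [t : TopologicalSpace (FreeGroup (Plank a₀))] [IsTopologicalGroup (FreeGroup (Plank a₀))]
    (hof : Continuous (FreeGroup.of : Plank a₀ → FreeGroup (Plank a₀)))
    {O : Set (FreeGroup (Plank a₀))} (hO : O ∈ 𝓝 (1 : FreeGroup (Plank a₀))) :
    ∃ k n, 1 ≤ k ∧ k < n ∧ fan a₀ n k ∈ O := by
  obtain ⟨V, hV, hVO⟩ := exists_nhds_one_split hO
  obtain ⟨k0, hk0⟩ := cauchy_edge a₀ hP hNI hof hV
  set k := k0 + 1 with hk
  have hlim : Tendsto (fun n : ℕ => FreeGroup.of (xpt a₀ n) * (FreeGroup.of (xpt a₀ (n + 1)))⁻¹)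
      atTop (𝓝 1) := by
    intro W hW
    obtain ⟨k1, hk1⟩ := cauchy_edge a₀ hP hNI hof hW
    rw [mem_map]
    filter_upwards [eventually_ge_atTop k1] with n hn
    exact hk1 n hn (n + 1) (by omega)
  have hlim2 := hlim.pow k
  rw [one_pow] at hlim2
  obtain ⟨n, hn1, hn2⟩ := ((hlim2.eventually hV).and (eventually_gt_atTop k)).exists
  exact ⟨k, n, by omega, hn2, hVO _ (hk0 k (by omega) n (by omega)) _ hn1⟩

/-- Compact subsets of the free topological group of the plank have bounded length. -/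
theorem compact_bounded [T2Space A] [CompactSpace A]
    (hsep : ∀ x y : A × OnePoint ℕ, x ≠ y → ∃ U : Set (A × OnePoint ℕ), IsClopen U ∧ x ∈ U ∧ y ∉ U)
    {S : Set (FreeGroup (Plank a₀))} (hS : @IsCompact _ (freeTop (Plank a₀)) S) :
    ∃ m : ℕ, ∀ w ∈ S, FreeGroup.map Subtype.val w ∈ letters (A × OnePoint ℕ) ^ m := by
  letI : TopologicalSpace (FreeGroup (Plank a₀)) := freeTop (Plank a₀)
  haveI : Nonempty (A × OnePoint ℕ) := ⟨(a₀, ∞)⟩
  letI tfin : TopologicalSpace (FreeGroup (A × OnePoint ℕ)) := finTop (A × OnePoint ℕ)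
  haveI : IsTopologicalGroup (FreeGroup (A × OnePoint ℕ)) := finTop_isTopologicalGroup _
  haveI : T2Space (FreeGroup (A × OnePoint ℕ)) := finTop_t2 hsep
  have hofC : Continuous (FreeGroup.of : A × OnePoint ℕ → FreeGroup (A × OnePoint ℕ)) :=
    continuous_of_finTop _
  let K : ℕ → Set (FreeGroup (A × OnePoint ℕ)) := fun n => letters (A × OnePoint ℕ) ^ n
  have hK : ∀ n, IsCompact (K n) := fun n => isCompact_letters_pow tfin inferInstance hofC n
  have hgrp : @IsTopologicalGroup (FreeGroup (A × OnePoint ℕ)) (kOmega K hK) _ :=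
    kOmega_isTopologicalGroup K hK letters_pow_mono exists_mem_letters_pow
      (fun n x hx y hy => letters_pow_mul n x hx y hy) (fun n x hx => letters_pow_inv n x hx)
  have hofk : @Continuous (A × OnePoint ℕ) _ _ (kOmega K hK) FreeGroup.of :=
    continuous_of_kOmega K hK hofC (fun c => by simpa [K] using of_mem_letters c)
  have hι : @Continuous (FreeGroup (Plank a₀)) (FreeGroup (A × OnePoint ℕ)) _ (kOmega K hK)
      (FreeGroup.map Subtype.val) := by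
    apply freeTop_continuous_map (kOmega K hK) hgrp
    exact @Continuous.comp (Plank a₀) (A × OnePoint ℕ) (FreeGroup (A × OnePoint ℕ)) _ _
      (kOmega K hK) Subtype.val FreeGroup.of hofk continuous_subtype_val
  have h1 := @IsCompact.image _ _ _ (kOmega K hK) _ _ hS hι
  obtain ⟨m, hm⟩ := kOmega_isCompact_subset K hK letters_pow_mono exists_mem_letters_pow h1
  exact ⟨m, fun w hw => hm ⟨w, hw, rfl⟩⟩

end Not

end Pool.Agent.Helper50
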