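import Mathlib
import Pool.Agent.Helper50.KRNot

open Topology Set Filter OnePoint
open scoped Pointwise

namespace Pool.Agent.Helper50

universe u v

section Main

theorem map_mem_letters_pow {X : Type u} {X' : Type v} [TopologicalSpace X] [TopologicalSpace X']
    (h : X → X') (m : ℕ) {w : FreeGroup X} (hw : w ∈ letters X ^ m) :
    FreeGroup.map h w ∈ letters X' ^ m := by
  obtain ⟨v, rfl⟩ := mem_letters_pow_iff.1 hw
  rw [map_word]
  exact mem_letters_pow_iff.2 ⟨_, rfl⟩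

variable {A : Type u} (a₀ : A) [TopologicalSpace A] [T2Space A] [CompactSpace A]

theorem bounded_k
    (hsep : ∀ x y : A × OnePoint ℕ, x ≠ y → ∃ U : Set (A × OnePoint ℕ), IsClopen U ∧ x ∈ U ∧ y ∉ U)
    {S : Set (FreeGroup (Plank a₀))} (hS : @IsCompact _ (freeTop (Plank a₀)) S) :
    ∃ m : ℕ, ∀ w ∈ S, ∀ k n, k < n → rho a₀ (n + 1) w = gam n k → k ≤ m := by
  classical
  obtain ⟨m, hm⟩ := compact_bounded a₀ hsep hS
  refine ⟨m, fun w hw k n hkn hrho => ?_⟩
  have h1 := hm w hw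
  have h2 : FreeGroup.map (fun c : A × OnePoint ℕ => trunc (n + 1) c.2)
      (FreeGroup.map Subtype.val w) = rho a₀ (n + 1) w := by
    rw [FreeGroup.map.comp, rho]
    rfl
  have h3 := map_mem_letters_pow (fun c : A × OnePoint ℕ => trunc (n + 1) c.2) m h1
  rw [h2, hrho] at h3
  have h4 := expo_letters (fun j : OnePoint ℕ => j = ((n + 1 : ℕ) : OnePoint ℕ)) m _ h3
  rw [expo_gam hkn, toAdd_ofAdd, abs_neg, Nat.abs_cast] at h4
  exact_mod_cast h4

theorem finite_n (k : ℕ) {S : Set (FreeGroup (Plank a₀))}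
    (hSe : S ⊆ edgeSubgroup a₀) (hS : @IsCompact _ (freeTop (Plank a₀)) S) :
    {n | k < n ∧ ∃ w ∈ S, rho a₀ (n + 1) w = gam n k}.Finite := by
  classical
  letI : TopologicalSpace (FreeGroup (Plank a₀)) := freeTop (Plank a₀)
  by_contra hinf
  have hinf' : ∃ᶠ n in atTop, k < n ∧ ∃ w ∈ S, rho a₀ (n + 1) w = gam n k :=
    Nat.frequently_atTop_iff_infinite.2 hinf
  obtain ⟨φ, hφm, hφ⟩ := extraction_of_frequently_atTop hinf'
  choose hkφ w hwS hrho using hφ
  obtain ⟨z, hzS, hz⟩ := hS.exists_mapClusterPt (f := atTop) (u := w)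
    (tendsto_principal.2 (Eventually.of_forall hwS))
  have hzN : ∀ N, k ≤ N → rho a₀ N z =
      FreeGroup.of (k : OnePoint ℕ) * (FreeGroup.of (∞ : OnePoint ℕ))⁻¹ := by
    intro N hN
    letI : TopologicalSpace (FreeGroup (OnePoint ℕ)) := ⊥
    haveI : DiscreteTopology (FreeGroup (OnePoint ℕ)) := ⟨rfl⟩
    have hcont : Continuous (rho a₀ N) := rho_continuous a₀ N
    have hnhds : (rho a₀ N) ⁻¹' {rho a₀ N z} ∈ 𝓝 z :=
      ((isOpen_discrete _).preimage hcont).mem_nhds rfl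
    have hfreq := (mapClusterPt_iff_frequently.1 hz) _ hnhds
    obtain ⟨i, hi1, hi2⟩ := (hfreq.and_eventually (eventually_gt_atTop N)).exists
    have hNφ : N < φ i := hi2.trans_le (hφm.id_le i)
    have h1 : rho a₀ N (w i) = rho a₀ N z := hi1
    rw [← h1, ← map_trunc_rho a₀ (by omega : N ≤ φ i + 1), hrho i, map_trunc_gam hN hNφ]
  obtain ⟨N0, hN0⟩ := expo_infty_of_mem a₀ (hSe hzS)
  have h1 := hN0 (max N0 k) (le_max_left _ _)
  rw [hzN _ (le_max_right _ _), map_mul, map_inv, expo, FreeGroup.lift_apply_of,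
    FreeGroup.lift_apply_of, if_neg (OnePoint.coe_ne_infty k), if_pos rfl] at h1
  have h2 := congrArg Multiplicative.toAdd h1
  simp at h2

theorem edge_not_kR (hP : ∀ U : ℕ → Set A, (∀ n, U n ∈ 𝓝 a₀) → (⋂ n, U n) ∈ 𝓝 a₀)
    (hNI : (𝓝[≠] a₀).NeBot)
    (hsep : ∀ x y : A × OnePoint ℕ, x ≠ y → ∃ U : Set (A × OnePoint ℕ), IsClopen U ∧ x ∈ U ∧ y ∉ U) :
    ¬ @IsKRSpace (edgeSubgroup a₀)
      (@instTopologicalSpaceSubtype (FreeGroup (Plank a₀)) _ (freeTop (Plank a₀))) := by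
  classical
  letI : TopologicalSpace (FreeGroup (Plank a₀)) := freeTop (Plank a₀)
  haveI : IsTopologicalGroup (FreeGroup (Plank a₀)) := freeTop_isTopologicalGroup _
  intro hKR
  let P : edgeSubgroup a₀ → Prop := fun w =>
    ∃ k n, 1 ≤ k ∧ k < n ∧ rho a₀ (n + 1) w.1 = gam n k
  let f : edgeSubgroup a₀ → ℝ := fun w => if P w then 1 else 0
  have hf : ∀ K : Set (edgeSubgroup a₀), IsCompact K → ContinuousOn f K := by
    intro K hK
    have hS : IsCompact (Subtype.val '' K) := hK.image continuous_subtype_val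
    have hSe : Subtype.val '' K ⊆ (edgeSubgroup a₀ : Set (FreeGroup (Plank a₀))) := by
      rintro _ ⟨w, _, rfl⟩
      exact w.2
    obtain ⟨m, hm⟩ := bounded_k a₀ hsep hS
    let T : Set (ℕ × ℕ) := {p | p.1 < p.2 ∧ ∃ w ∈ Subtype.val '' K, rho a₀ (p.2 + 1) w = gam p.2 p.1}
    have hT : T.Finite := by
      have h1 : T ⊆ ⋃ k ∈ {k | k ≤ m}, (fun n => (k, n)) ''
          {n | k < n ∧ ∃ w ∈ Subtype.val '' K, rho a₀ (n + 1) w = gam n k} := by
        rintro ⟨k, n⟩ ⟨h1, w, hw, h2⟩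
        simp only [mem_iUnion]
        exact ⟨k, hm w hw k n h1 h2, n, ⟨h1, w, hw, h2⟩, rfl⟩
      refine Set.Finite.subset ?_ h1
      apply Set.Finite.biUnion (Set.finite_le_nat m)
      intro k _
      exact (finite_n a₀ k hSe hS).image _
    intro w0 hw0
    have hev : ∀ᶠ w in 𝓝[K] w0, P w ↔ P w0 := by
      have h1 : ∀ᶠ w in 𝓝 w0, ∀ p ∈ T, rho a₀ (p.2 + 1) w.1 = rho a₀ (p.2 + 1) w0.1 := by
        rw [hT.eventually_all]
        intro p _
        letI : TopologicalSpace (FreeGroup (OnePoint ℕ)) := ⊥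
        haveI : DiscreteTopology (FreeGroup (OnePoint ℕ)) := ⟨rfl⟩
        have hcont : Continuous (fun w : edgeSubgroup a₀ => rho a₀ (p.2 + 1) w.1) :=
          (rho_continuous a₀ (p.2 + 1)).comp continuous_subtype_val
        exact ((isOpen_discrete {rho a₀ (p.2 + 1) w0.1}).preimage hcont).mem_nhds rfl
      filter_upwards [mem_nhdsWithin_of_mem_nhds h1, self_mem_nhdsWithin] with w hw hwK
      constructor
      · rintro ⟨k, n, hk, hkn, h2⟩
        refine ⟨k, n, hk, hkn, ?_⟩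
        rw [← hw (k, n) ⟨hkn, w.1, ⟨w, hwK, rfl⟩, h2⟩]
        exact h2
      · rintro ⟨k, n, hk, hkn, h2⟩
        refine ⟨k, n, hk, hkn, ?_⟩
        rw [hw (k, n) ⟨hkn, w0.1, ⟨w0, hw0, rfl⟩, h2⟩]
        exact h2
    have h2 : f =ᶠ[𝓝[K] w0] fun _ => f w0 := by
      filter_upwards [hev] with w hw
      simp only [f, hw]
    exact ContinuousWithinAt.congr_of_eventuallyEq continuousWithinAt_const h2 rfl
  have hc := hKR f hf
  have hP1 : ¬ P 1 := by
    rintro ⟨k, n, hk, hkn, h⟩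
    have h1 : rho a₀ (n + 1) ((1 : edgeSubgroup a₀) : FreeGroup (Plank a₀)) = 1 := by
      rw [OneMemClass.coe_one, map_one]
    rw [h1] at h
    have h2 := congrArg (expo (fun j : OnePoint ℕ => j = ((n + 1 : ℕ) : OnePoint ℕ))) h
    rw [map_one, expo_gam hkn] at h2
    have h3 := congrArg Multiplicative.toAdd h2
    simp at h3
    omega
  have h1 : f 1 = 0 := if_neg hP1
  have h2 : f ⁻¹' (Iio (1 / 2)) ∈ 𝓝 (1 : edgeSubgroup a₀) := by
    apply hc.continuousAt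
    rw [h1]
    exact Iio_mem_nhds (by norm_num)
  rw [nhds_subtype_eq_comap, mem_comap] at h2
  obtain ⟨O, hO, hOf⟩ := h2
  obtain ⟨k, n, hk, hkn, hfan⟩ := exists_fan_mem a₀ hP hNI (freeTop_continuous_of _) hO
  have h3 : f ⟨fan a₀ n k, fan_mem a₀ n k⟩ < 1 / 2 :=
    hOf (show (⟨fan a₀ n k, fan_mem a₀ n k⟩ : edgeSubgroup a₀) ∈ Subtype.val ⁻¹' O from hfan)
  have h4 : f ⟨fan a₀ n k, fan_mem a₀ n k⟩ = 1 := if_pos ⟨k, n, hk, hkn, rho_fan a₀ hkn⟩
  rw [h4] at h3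
  norm_num at h3

end Main

end Pool.Agent.Helper50
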