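import Mathlib

open Topology Set Filter OnePoint

namespace Pool.Agent.Helper50

section SpaceA

/-- Ultrafilters on the reals containing a countable set. -/
abbrev LL : Type := {u : Ultrafilter ℝ // ∃ s ∈ u, s.Countable}

theorem isOpen_LL : IsOpen {u : Ultrafilter ℝ | ∃ s ∈ u, s.Countable} := by
  have : {u : Ultrafilter ℝ | ∃ s ∈ u, s.Countable} =
      ⋃ s : {s : Set ℝ // s.Countable}, {u : Ultrafilter ℝ | s.1 ∈ u} := by
    ext u
    constructor
    · rintro ⟨s, hs, hc⟩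
      exact mem_iUnion.2 ⟨⟨s, hc⟩, hs⟩
    · intro hu
      obtain ⟨s, hs⟩ := mem_iUnion.1 hu
      exact ⟨s.1, hs, s.2⟩
  rw [this]
  exact isOpen_iUnion fun s => ultrafilter_isOpen_basic s.1

instance : LocallyCompactSpace LL := isOpen_LL.locallyCompactSpace

/-- Basic clopen compact sets. -/
def BB (s : Set ℝ) : Set LL := {u | s ∈ u.1}

theorem isOpen_BB (s : Set ℝ) : IsOpen (BB s) :=
  (ultrafilter_isOpen_basic s).preimage continuous_subtype_val

theorem isClosed_BB (s : Set ℝ) : IsClosed (BB s) :=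
  (ultrafilter_isClosed_basic s).preimage continuous_subtype_val

theorem isCompact_BB {s : Set ℝ} (hs : s.Countable) : IsCompact (BB s) := by
  rw [Subtype.isCompact_iff]
  have : (Subtype.val '' BB s : Set (Ultrafilter ℝ)) = {u : Ultrafilter ℝ | s ∈ u} := by
    ext u
    constructor
    · rintro ⟨v, hv, rfl⟩
      exact hv
    · intro hu
      exact ⟨⟨u, s, hu, hs⟩, hu, rfl⟩
  rw [this]
  exact (ultrafilter_isClosed_basic s).isCompact

theorem exists_BB_of_isCompact {K : Set LL} (hK : IsCompact K) :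
    ∃ s : Set ℝ, s.Countable ∧ K ⊆ BB s := by
  haveI : Nonempty {s : Set ℝ // s.Countable} := ⟨⟨∅, countable_empty⟩⟩
  obtain ⟨s, hs⟩ := hK.elim_directed_cover (fun s : {s : Set ℝ // s.Countable} => BB s.1)
    (fun s => isOpen_BB s.1) (by
      intro u _
      obtain ⟨s, hs, hc⟩ := u.2
      exact mem_iUnion.2 ⟨⟨s, hc⟩, hs⟩) (by
      intro s t
      refine ⟨⟨s.1 ∪ t.1, s.2.union t.2⟩, ?_, ?_⟩
      · intro u hu
        exact mem_of_superset (f := (u.1 : Filter ℝ)) hu subset_union_left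
      · intro u hu
        exact mem_of_superset (f := (u.1 : Filter ℝ)) hu subset_union_right)
  exact ⟨s.1, s.2, hs⟩

theorem BB_ne_univ {s : Set ℝ} (hs : s.Countable) : BB s ≠ univ := by
  intro h
  obtain ⟨r, hr⟩ : ∃ r, r ∉ s := by
    by_contra hcon
    push Not at hcon
    have : s = univ := eq_univ_of_forall hcon
    rw [this] at hs
    exact not_countable_univ hs
  have h1 : (⟨pure r, {r}, by simp, countable_singleton r⟩ : LL) ∈ BB s := by
    rw [h]; exact mem_univ _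
  exact hr h1

instance : NoncompactSpace LL := by
  refine ⟨fun h => ?_⟩
  obtain ⟨s, hs, hK⟩ := exists_BB_of_isCompact h
  exact BB_ne_univ hs (univ_subset_iff.1 hK)

/-- The one-point compactification. -/
abbrev AA : Type := OnePoint LL

theorem AA_pPoint (U : ℕ → Set AA) (hU : ∀ n, U n ∈ 𝓝 (∞ : AA)) : (⋂ n, U n) ∈ 𝓝 (∞ : AA) := by
  have h1 : ∀ n, ∃ s : Set ℝ, s.Countable ∧ ((↑) : LL → AA) '' (BB s)ᶜ ∪ {∞} ⊆ U n := by
    intro n
    obtain ⟨K, ⟨_, hKc⟩, hK⟩ := hasBasis_nhds_infty.mem_iff.1 (hU n)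
    obtain ⟨s, hs, hKs⟩ := exists_BB_of_isCompact hKc
    refine ⟨s, hs, Subset.trans ?_ hK⟩
    apply union_subset_union_left
    apply image_mono
    exact compl_subset_compl.2 hKs
  choose s hs hsU using h1
  have h2 : (⋃ n, s n).Countable := countable_iUnion hs
  rw [hasBasis_nhds_infty.mem_iff]
  refine ⟨BB (⋃ n, s n), ⟨isClosed_BB _, isCompact_BB h2⟩, ?_⟩
  apply subset_iInter
  intro n
  refine Subset.trans ?_ (hsU n)
  apply union_subset_union_left
  apply image_mono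
  apply compl_subset_compl.2
  intro u hu
  exact mem_of_superset (f := (u.1 : Filter ℝ)) hu (subset_iUnion s n)

theorem AA_sep_coe (u : LL) (y : AA) (h : (u : AA) ≠ y) :
    ∃ U : Set AA, IsClopen U ∧ (u : AA) ∈ U ∧ y ∉ U := by
  obtain ⟨s, hs, hc⟩ := u.2
  induction y using OnePoint.rec with
  | infty =>
    refine ⟨(↑) '' BB s, ⟨?_, ?_⟩, ⟨u, hs, rfl⟩, ?_⟩
    · exact isClosed_image_coe.2 ⟨isClosed_BB s, isCompact_BB hc⟩
    · exact isOpen_image_coe.2 (isOpen_BB s)
    · exact infty_notMem_image_coe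
  | coe v =>
    have huv : u.1 ≠ v.1 := fun h' => h (by rw [Subtype.ext h'])
    obtain ⟨t, ht⟩ : ∃ t : Set ℝ, t ∈ u.1 ∧ t ∉ v.1 := by
      by_contra hcon
      push Not at hcon
      exact huv (Ultrafilter.coe_le_coe.1 fun t ht => by
        by_contra htu
        exact (Ultrafilter.compl_notMem_iff.2 ht) (hcon _ (Ultrafilter.compl_mem_iff_notMem.2 htu)))
    refine ⟨(↑) '' BB (s ∩ t), ⟨?_, ?_⟩, ⟨u, inter_mem (f := (u.1 : Filter ℝ)) hs ht.1, rfl⟩, ?_⟩
    · exact isClosed_image_coe.2 ⟨isClosed_BB _, isCompact_BB (hc.mono inter_subset_left)⟩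
    · exact isOpen_image_coe.2 (isOpen_BB _)
    · rintro ⟨v', hv', hvv⟩
      have : v' = v := OnePoint.coe_injective hvv
      subst this
      exact ht.2 (mem_of_superset (f := (v'.1 : Filter ℝ)) hv' inter_subset_right)

theorem AA_sep (x y : AA) (h : x ≠ y) : ∃ U : Set AA, IsClopen U ∧ x ∈ U ∧ y ∉ U := by
  induction x using OnePoint.rec with
  | coe u => exact AA_sep_coe u y h
  | infty =>
    induction y using OnePoint.rec with
    | infty => exact absurd rfl h
    | coe v =>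
      obtain ⟨U, hU, h1, h2⟩ := AA_sep_coe v ∞ h.symm
      exact ⟨Uᶜ, hU.compl, h2, fun h3 => h3 h1⟩

theorem natInf_sep (x y : OnePoint ℕ) (h : x ≠ y) :
    ∃ U : Set (OnePoint ℕ), IsClopen U ∧ x ∈ U ∧ y ∉ U := by
  have key : ∀ (n : ℕ) (y : OnePoint ℕ), (n : OnePoint ℕ) ≠ y →
      ∃ U : Set (OnePoint ℕ), IsClopen U ∧ (n : OnePoint ℕ) ∈ U ∧ y ∉ U := by
    intro n y hy
    refine ⟨{(n : OnePoint ℕ)}, ⟨isClosed_singleton, ?_⟩, rfl, fun h => hy (mem_singleton_iff.1 h).symm⟩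
    have : ({(n : OnePoint ℕ)} : Set (OnePoint ℕ)) = (↑) '' ({n} : Set ℕ) := by simp
    rw [this]
    exact isOpen_image_coe.2 (isOpen_discrete _)
  induction x using OnePoint.rec with
  | coe n => exact key n y h
  | infty =>
    induction y using OnePoint.rec with
    | infty => exact absurd rfl h
    | coe v =>
      obtain ⟨U, hU, h1, h2⟩ := key v ∞ h.symm
      exact ⟨Uᶜ, hU.compl, h2, fun h3 => h3 h1⟩

theorem AAN_sep (x y : AA × OnePoint ℕ) (h : x ≠ y) :
    ∃ U : Set (AA × OnePoint ℕ), IsClopen U ∧ x ∈ U ∧ y ∉ U := by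
  by_cases h1 : x.1 = y.1
  · have h2 : x.2 ≠ y.2 := fun h2 => h (Prod.ext h1 h2)
    obtain ⟨U, hU, hx, hy⟩ := natInf_sep _ _ h2
    exact ⟨Prod.snd ⁻¹' U, hU.preimage continuous_snd, hx, hy⟩
  · obtain ⟨U, hU, hx, hy⟩ := AA_sep _ _ h1
    exact ⟨Prod.fst ⁻¹' U, hU.preimage continuous_fst, hx, hy⟩

end SpaceA

end Pool.Agent.Helper50
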