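import Mathlib

/-!
# Support sets and semibiorthogonal sequences

Basic facts used for MP_3e6028_an.
-/

set_option autoImplicit false

open Set Topology

noncomputable section

namespace Pool.Agent.Helper50.Supp

universe u v w

/-- `X` contains a support set: a nonempty closed convex set every point of which minimises
some continuous linear functional which is not constant on the set. -/
def HasSupportSet (X : Type u) [NormedAddCommGroup X] [NormedSpace ℝ X] : Prop :=
  ∃ C : Set X, C.Nonempty ∧ IsClosed C ∧ Convex ℝ C ∧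
    ∀ x ∈ C, ∃ f : X →L[ℝ] ℝ, (∀ y ∈ C, f x ≤ f y) ∧ ∃ y ∈ C, f x < f y

section Semi

variable {X : Type u} [NormedAddCommGroup X] [NormedSpace ℝ X]

/-- An uncountable semibiorthogonal sequence gives a support set. -/
theorem hasSupportSet_of_semi {J : Type w} [LinearOrder J] [Nonempty J]
    (hsucc : ∀ i : J, ∃ j, i < j) (hJ : ∀ s : Set J, s.Countable → ∃ j, ∀ i ∈ s, i ≤ j)
    (z : J → X) (f : J → X →L[ℝ] ℝ) (h0 : ∀ i j, i < j → f j (z i) = 0)
    (h1 : ∀ i j, 0 ≤ f j (z i)) (h2 : ∀ i, 0 < f i (z i)) : HasSupportSet X := by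
  let S : Submodule NNReal X := Submodule.span NNReal (range z)
  have hS : ∀ y ∈ S, ∃ i, ∀ j, i ≤ j → f j y = 0 := by
    intro y hy
    induction hy using Submodule.span_induction with
    | mem y hy =>
      obtain ⟨i, rfl⟩ := hy
      obtain ⟨i', hi'⟩ := hsucc i
      exact ⟨i', fun j hj => h0 i j (lt_of_lt_of_le hi' hj)⟩
    | zero => exact ⟨Classical.arbitrary J, fun j _ => map_zero _⟩
    | add a b _ _ ha hb =>
      obtain ⟨i, hi⟩ := ha
      obtain ⟨i', hi'⟩ := hb
      refine ⟨max i i', fun j hj => ?_⟩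
      rw [map_add, hi j ((le_max_left _ _).trans hj), hi' j ((le_max_right _ _).trans hj),
        add_zero]
    | smul c a _ ha =>
      obtain ⟨i, hi⟩ := ha
      refine ⟨i, fun j hj => ?_⟩
      rw [NNReal.smul_def, map_smul, hi j hj, smul_zero]
  have hpos : ∀ y ∈ S, ∀ j, 0 ≤ f j y := by
    intro y hy
    induction hy using Submodule.span_induction with
    | mem y hy =>
      obtain ⟨i, rfl⟩ := hy
      exact fun j => h1 i j
    | zero => exact fun j => by rw [map_zero]
    | add a b _ _ ha hb =>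
      intro j
      rw [map_add]
      exact add_nonneg (ha j) (hb j)
    | smul c a _ ha =>
      intro j
      rw [NNReal.smul_def, map_smul, smul_eq_mul]
      exact mul_nonneg c.2 (ha j)
  have hconv : Convex ℝ (S : Set X) := by
    intro a ha b hb s t hs ht _
    have e1 := S.smul_mem (⟨s, hs⟩ : NNReal) ha
    have e2 := S.smul_mem (⟨t, ht⟩ : NNReal) hb
    exact S.add_mem e1 e2
  have hclpos : ∀ y ∈ closure (S : Set X), ∀ j, 0 ≤ f j y := by
    intro y hy j
    have hcl : IsClosed {y | 0 ≤ f j y} := isClosed_le continuous_const (f j).continuous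
    exact closure_minimal (fun y hy => hpos y hy j) hcl hy
  refine ⟨closure (S : Set X), ⟨0, subset_closure S.zero_mem⟩, isClosed_closure, hconv.closure,
    fun x hx => ?_⟩
  obtain ⟨y, hyS, hy⟩ := mem_closure_iff_seq_limit.mp hx
  choose i hi using fun n => hS (y n) (hyS n)
  obtain ⟨j, hj⟩ := hJ (range i) (countable_range i)
  have h3 : f j x = 0 := by
    have h4 : Filter.Tendsto (fun n => f j (y n)) Filter.atTop (𝓝 (f j x)) :=
      ((f j).continuous.tendsto x).comp hy
    have h5 : (fun n => f j (y n)) = fun _ => (0 : ℝ) := by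
      funext n
      exact hi n j (hj _ ⟨n, rfl⟩)
    rw [h5] at h4
    exact tendsto_nhds_unique h4 tendsto_const_nhds
  refine ⟨f j, fun y hy => ?_, z j, subset_closure (Submodule.subset_span ⟨j, rfl⟩), ?_⟩
  · rw [h3]
    exact hclpos y hy j
  · rw [h3]
    exact h2 j

end Semi

section Density

variable {K : Type v} [TopologicalSpace K] [CompactSpace K]

open Cardinal

/-- The continuous functions which are constant on the classes determined by at most `μ`
functions have density at most `μ`. -/
theorem exists_dense_of_factor {μ : Cardinal.{v}} (hμ : ℵ₀ ≤ μ) (S : Set C(K, ℝ))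
    (hS : #S ≤ μ) :
    ∃ D : Set C(K, ℝ), #D ≤ μ ∧
      ∀ g : C(K, ℝ), (∀ a b, (∀ f ∈ S, f a = f b) → g a = g b) → g ∈ closure D := by
  refine ⟨(Algebra.adjoin ℚ S : Set C(K, ℝ)), ?_, fun g hg => ?_⟩
  · have h := Algebra.lift_cardinalMk_adjoin_le ℚ S
    rw [Cardinal.mkRat, Cardinal.lift_aleph0] at h
    have h2 : (ℵ₀ ⊔ Cardinal.lift.{0} #S ⊔ ℵ₀ : Cardinal.{v}) ≤ μ := by
      refine max_le (max_le hμ ?_) hμ
      simpa using hS
    have h3 := h.trans h2
    simpa using h3
  -- real combinations
  let R : Subring C(K, ℝ) := (Algebra.adjoin ℚ S).toSubring.topologicalClosure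
  have hR : ∀ c : ℝ, algebraMap ℝ C(K, ℝ) c ∈ R := by
    intro c
    have h1 : Continuous (algebraMap ℝ C(K, ℝ)) := continuous_algebraMap ℝ C(K, ℝ)
    have h2 : c ∈ closure (range ((↑) : ℚ → ℝ)) := by
      rw [Rat.denseRange_cast.closure_range]
      trivial
    have h3 := image_closure_subset_closure_image h1 ⟨c, h2, rfl⟩
    refine closure_mono ?_ h3
    rintro _ ⟨_, ⟨q, rfl⟩, rfl⟩
    have h4 : algebraMap ℝ C(K, ℝ) (q : ℝ) = algebraMap ℚ C(K, ℝ) q := by
      ext k
      simp
    rw [h4]
    exact (Algebra.adjoin ℚ S).algebraMap_mem q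
  have hA : ∀ h ∈ Algebra.adjoin ℝ S, h ∈ R := by
    intro h hh
    induction hh using Algebra.adjoin_induction with
    | mem h hh => exact subset_closure (Algebra.subset_adjoin hh)
    | algebraMap c => exact hR c
    | add a b _ _ ha hb => exact R.add_mem ha hb
    | mul a b _ _ ha hb => exact R.mul_mem ha hb
  have hcl : closure (Algebra.adjoin ℝ S : Set C(K, ℝ)) ⊆
      closure (Algebra.adjoin ℚ S : Set C(K, ℝ)) := by
    refine closure_minimal (fun h hh => hA h hh) isClosed_closure
  refine hcl ?_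
  -- the quotient
  let Φ : K → (S → ℝ) := fun k s => (s : C(K, ℝ)) k
  have hΦ : Continuous Φ := continuous_pi fun s => (s : C(K, ℝ)).continuous
  have hcomp : CompactSpace (range Φ) := isCompact_iff_compactSpace.mp (isCompact_range hΦ)
  let F : C(K, range Φ) := ⟨rangeFactorization Φ, hΦ.subtype_mk _⟩
  have hsurj : Function.Surjective F := rangeFactorization_surjective
  have hq : IsQuotientMap F := F.continuous.isClosedMap.isQuotientMap F.continuous hsurj
  have hfac : Function.FactorsThrough g F := by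
    intro a b hab
    refine hg a b fun f hf => ?_
    have h1 := congrArg (fun t : range Φ => (t : S → ℝ) ⟨f, hf⟩) hab
    exact h1
  let g' : C(range Φ, ℝ) := hq.lift g hfac
  have hg' : g'.comp F = g := hq.lift_comp g hfac
  let coord : S → C(range Φ, ℝ) := fun s => ⟨fun t => (t : S → ℝ) s,
    (continuous_apply s).comp continuous_subtype_val⟩
  let B : Subalgebra ℝ C(range Φ, ℝ) := Algebra.adjoin ℝ (range coord)
  have hsep : B.SeparatesPoints := by
    intro s t hst
    have h1 : ∃ i, (s : S → ℝ) i ≠ (t : S → ℝ) i := by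
      by_contra hcon
      push Not at hcon
      exact hst (Subtype.ext (funext hcon))
    obtain ⟨i, hi⟩ := h1
    exact ⟨coord i, ⟨coord i, Algebra.subset_adjoin ⟨i, rfl⟩, rfl⟩, hi⟩
  have htop := ContinuousMap.subalgebra_topologicalClosure_eq_top_of_separatesPoints B hsep
  have hmem : g' ∈ closure (B : Set C(range Φ, ℝ)) := by
    rw [← Subalgebra.topologicalClosure_coe, htop]
    trivial
  let Ψ : C(range Φ, ℝ) →ₐ[ℝ] C(K, ℝ) := ContinuousMap.compRightAlgHom ℝ ℝ F
  have hΨ : Continuous Ψ := ContinuousMap.compRightAlgHom_continuous _ _ F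
  have h1 : Ψ g' ∈ closure (Ψ '' (B : Set C(range Φ, ℝ))) :=
    image_closure_subset_closure_image hΨ ⟨g', hmem, rfl⟩
  have h2 : Ψ g' = g := hg'
  rw [h2] at h1
  refine closure_mono ?_ h1
  rintro _ ⟨h, hh, rfl⟩
  have h3 : B.map Ψ ≤ Algebra.adjoin ℝ S := by
    rw [AlgHom.map_adjoin]
    refine Algebra.adjoin_le ?_
    rintro _ ⟨_, ⟨s, rfl⟩, rfl⟩
    have h4 : Ψ (coord s) = s := by
      ext k
      rfl
    rw [h4]
    exact Algebra.subset_adjoin s.2
  exact h3 ⟨h, hh, rfl⟩

end Density

end Pool.Agent.Helper50.Supp
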