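import Pool.Agent.Helper50.SupportBasic

/-!
# The combinatorial core

Chains of equivalence relations of regular length `μ > κ⁺` on a compact space of hereditary
Lindelöf degree at most `κ`.
-/

set_option autoImplicit false

open Set Topology Cardinal

noncomputable section

namespace Pool.Agent.Helper50.Supp

universe u v

theorem bdd_toType {κ : Cardinal.{u}} (h : κ.IsRegular) (s : Set κ.ord.ToType) (hs : #s < κ) :
    ∃ j, ∀ i ∈ s, i < j := by
  have h1 : Order.cof κ.ord.ToType = κ := by rw [Ordinal.cof_toType, h.cof_ord]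
  by_contra hcon
  push Not at hcon
  have h2 : IsCofinal s := fun j => by
    obtain ⟨i, hi, hij⟩ := hcon j
    exact ⟨i, hi, hij⟩
  have h3 := Order.cof_le h2
  rw [h1] at h3
  exact absurd hs (not_lt.mpr h3)

theorem iio_toType {κ : Cardinal.{u}} (i : κ.ord.ToType) : #(Iio i) < κ := by
  have h := mk_Iio_lt i (by simp)
  simpa using h

/-- Recursive choices along a well-order. -/
theorem exists_rec {I : Type u} [LinearOrder I] [WellFoundedLT I] {α : Type v}
    (P : (i : I) → (∀ j, j < i → α) → α → Prop) (h : ∀ i g, ∃ a, P i g a) :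
    ∃ F : I → α, ∀ i, P i (fun j _ => F j) (F i) := by
  let F : I → α := (wellFounded_lt (α := I)).fix (fun i g => Classical.choose (h i g))
  refine ⟨F, fun i => ?_⟩
  have h1 : F i = Classical.choose (h i fun j _ => F j) :=
    (wellFounded_lt (α := I)).fix_eq _ i
  rw [h1]
  exact Classical.choose_spec (h i fun j _ => F j)

/-- The hereditary Lindelöf degree of `K` is at most `κ`: every family of open sets has a
subfamily of size at most `κ` with the same union. -/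
def HLDegreeLE (K : Type u) [TopologicalSpace K] (κ : Cardinal.{u}) : Prop :=
  ∀ (ι : Type u) (U : ι → Set K), (∀ i, IsOpen (U i)) →
    ∃ t : Set ι, #t ≤ κ ∧ ⋃ i ∈ t, U i = ⋃ i, U i

theorem HLDegreeLE.closed {K : Type u} [TopologicalSpace K] {κ : Cardinal.{u}}
    (h : HLDegreeLE K κ) {ι : Type u} (C : ι → Set K) (hC : ∀ i, IsClosed (C i)) :
    ∃ t : Set ι, #t ≤ κ ∧ ⋂ i ∈ t, C i = ⋂ i, C i := by
  obtain ⟨t, ht, h1⟩ := h ι (fun i => (C i)ᶜ) fun i => (hC i).isOpen_compl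
  refine ⟨t, ht, ?_⟩
  rw [← compl_inj_iff]
  simpa only [compl_iInter] using h1

section Core

variable {K : Type u} [TopologicalSpace K] {I : Type u} [LinearOrder I]
  (φ : I → C(K, ℝ)) {κ : Cardinal.{u}}

/-- The class of a point with respect to the functions before `β`. -/
def cls (β : I) (k : K) : Set K := {k' | ∀ j < β, φ j k' = φ j k}

theorem cls_anti {β β' : I} (h : β ≤ β') (k : K) : cls φ β' k ⊆ cls φ β k :=
  fun _ hk' j hj => hk' j (lt_of_lt_of_le hj h)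

theorem isClosed_cls (β : I) (k : K) : IsClosed (cls φ β k) := by
  have : cls φ β k = ⋂ j : Iio β, {k' | φ j k' = φ j k} := by
    ext k'
    simp [cls]
  rw [this]
  exact isClosed_iInter fun j => isClosed_eq (φ j).continuous continuous_const

/-- The points whose class is mapped into `U`. -/
def good (g : C(K, ℝ)) (U : Set ℝ) (β : I) : Set K := {k | ∀ k' ∈ cls φ β k, g k' ∈ U}

theorem good_mono (g : C(K, ℝ)) (U : Set ℝ) {β β' : I} (h : β ≤ β') :
    good φ g U β ⊆ good φ g U β' := fun k hk k' hk' => hk k' (cls_anti φ h k hk')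

theorem isOpen_good [CompactSpace K] [T2Space K] (g : C(K, ℝ)) {U : Set ℝ} (hU : IsOpen U)
    (β : I) : IsOpen (good φ g U β) := by
  rw [← isClosed_compl_iff]
  have h1 : (good φ g U β)ᶜ =
      Prod.snd '' ({p : K × K | ∀ j : Iio β, φ j p.1 = φ j p.2} ∩ {p | g p.1 ∈ Uᶜ}) := by
    ext k
    constructor
    · intro hk
      have h2 : ¬ ∀ k' ∈ cls φ β k, g k' ∈ U := hk
      push Not at h2
      obtain ⟨k', h3, h4⟩ := h2
      exact ⟨(k', k), ⟨fun j => h3 j j.2, h4⟩, rfl⟩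
    · rintro ⟨⟨k', k''⟩, ⟨h3, h4⟩, rfl⟩ hk
      exact h4 (hk k' fun j hj => h3 ⟨j, hj⟩)
  rw [h1]
  have h2 : IsClosed ({p : K × K | ∀ j : Iio β, φ j p.1 = φ j p.2} ∩ {p | g p.1 ∈ Uᶜ}) := by
    refine IsClosed.inter ?_ (hU.isClosed_compl.preimage (g.continuous.comp continuous_fst))
    have h3 : {p : K × K | ∀ j : Iio β, φ j p.1 = φ j p.2} =
        ⋂ j : Iio β, {p : K × K | φ j p.1 = φ j p.2} := by
      ext p
      rw [mem_iInter]
      exact Iff.rfl
    rw [h3]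
    exact isClosed_iInter fun j => isClosed_eq ((φ j).continuous.comp continuous_fst)
      ((φ j).continuous.comp continuous_snd)
  exact (h2.isCompact.image continuous_snd).isClosed

/-- The limit property: every set of at most `κ` smaller elements is bounded by a smaller
one. -/
def Lim (κ : Cardinal.{u}) (δ : I) : Prop :=
  ∀ s : Set I, #s ≤ κ → (∀ i ∈ s, i < δ) → ∃ β < δ, ∀ i ∈ s, i < β

/-- By compactness the class of a point at a limit is the limit of the classes. -/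
theorem exists_good [CompactSpace K] {δ : I} (hκ : ℵ₀ ≤ κ) (hδ : Lim κ δ) (g : C(K, ℝ))
    {U : Set ℝ} (hU : IsOpen U) {k : K} (hk : k ∈ good φ g U δ) :
    ∃ β < δ, k ∈ good φ g U β := by
  by_contra hcon
  push Not at hcon
  obtain ⟨β₀, hβ₀, -⟩ := hδ ∅ (by simp) (by simp)
  have : Nonempty (Iio δ) := ⟨⟨β₀, hβ₀⟩⟩
  have hne := IsCompact.nonempty_iInter_of_directed_nonempty_isCompact_isClosed
    (fun β : Iio δ => cls φ β k ∩ {k' | g k' ∈ Uᶜ}) (by
      intro β β'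
      refine ⟨max β β', ?_, ?_⟩
      · exact inter_subset_inter_left _ (cls_anti φ (le_max_left β.1 β'.1) k)
      · exact inter_subset_inter_left _ (cls_anti φ (le_max_right β.1 β'.1) k)) (by
      intro β
      have h1 : ¬ ∀ k' ∈ cls φ β k, g k' ∈ U := hcon β β.2
      push Not at h1
      obtain ⟨k', h2, h3⟩ := h1
      exact ⟨k', h2, h3⟩) (by
      intro β
      exact ((isClosed_cls φ β k).inter (hU.isClosed_compl.preimage g.continuous)).isCompact) (by
      intro β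
      exact (isClosed_cls φ β k).inter (hU.isClosed_compl.preimage g.continuous))
  obtain ⟨k', hk'⟩ := hne
  rw [mem_iInter] at hk'
  refine (hk' ⟨β₀, hβ₀⟩).2 (hk k' fun j hj => ?_)
  obtain ⟨β, hβ, h1⟩ := hδ {j} (by simpa using one_le_aleph0.trans hκ) (by simpa using hj)
  exact (hk' ⟨β, hβ⟩).1 j (h1 j rfl)

theorem stab [CompactSpace K] [T2Space K] (hκ : ℵ₀ ≤ κ) (hK : HLDegreeLE K κ) {δ : I}
    (hδ : Lim κ δ) (g : C(K, ℝ)) {U : Set ℝ} (hU : IsOpen U) :
    ∃ β < δ, good φ g U δ ⊆ good φ g U β := by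
  obtain ⟨t, ht, htu⟩ := hK (Iio δ) (fun β => good φ g U β)
    fun β => isOpen_good φ g hU β
  obtain ⟨β, hβ, h1⟩ := hδ (Subtype.val '' t) (mk_image_le.trans ht) (by
    rintro _ ⟨i, -, rfl⟩
    exact i.2)
  refine ⟨β, hβ, fun k hk => ?_⟩
  obtain ⟨β', hβ', h2⟩ := exists_good φ hκ hδ g hU hk
  have h3 : k ∈ ⋃ β : Iio δ, good φ g U β := mem_iUnion.mpr ⟨⟨β', hβ'⟩, h2⟩
  rw [← htu] at h3
  obtain ⟨i, hi, h4⟩ := mem_iUnion₂.mp h3
  exact good_mono φ g U (h1 i ⟨i, hi, rfl⟩).le h4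

/-- All basic open sets at once. -/
def Refl (δ β : I) : Prop :=
  ∀ U ∈ TopologicalSpace.countableBasis ℝ, good φ (φ δ) U δ ⊆ good φ (φ δ) U β

theorem Refl.mono {δ β β' : I} (h : Refl φ δ β) (hβ : β ≤ β') : Refl φ δ β' :=
  fun U hU => (h U hU).trans (good_mono φ _ U hβ)

theorem exists_refl [CompactSpace K] [T2Space K] (hκ : ℵ₀ ≤ κ) (hK : HLDegreeLE K κ) {δ : I}
    (hδ : Lim κ δ) : ∃ β < δ, Refl φ δ β := by
  have h1 : ∀ U : TopologicalSpace.countableBasis ℝ, ∃ β < δ,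
      good φ (φ δ) U δ ⊆ good φ (φ δ) U β := fun U =>
    stab φ hκ hK hδ (φ δ) ((TopologicalSpace.isBasis_countableBasis ℝ).isOpen U.2)
  choose B hB h2 using h1
  have : Countable (TopologicalSpace.countableBasis ℝ) :=
    (TopologicalSpace.countable_countableBasis ℝ).to_subtype
  obtain ⟨β, hβ, h3⟩ := hδ (range B)
    ((mk_le_aleph0_iff.mpr (countable_range B).to_subtype).trans hκ) (by
      rintro _ ⟨U, rfl⟩
      exact hB U)
  exact ⟨β, hβ, fun U hU => (h2 ⟨U, hU⟩).trans (good_mono φ _ U (h3 _ ⟨⟨U, hU⟩, rfl⟩).le)⟩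

/-- A function which is constant on the class at `δ` is constant on the class at `β`. -/
theorem Refl.const {δ β : I} (h : Refl φ δ β) {k : K}
    (hk : ∀ k' ∈ cls φ δ k, φ δ k' = φ δ k) {k' : K} (hk' : k' ∈ cls φ β k) :
    φ δ k' = φ δ k := by
  by_contra hne
  obtain ⟨U, hU, h1, h2⟩ := (TopologicalSpace.isBasis_countableBasis ℝ).exists_subset_of_mem_open
    (show φ δ k ∈ ({φ δ k'}ᶜ : Set ℝ) from fun h => hne h.symm) isOpen_compl_singleton
  have h3 : k ∈ good φ (φ δ) U δ := fun k'' hk'' => by rwa [hk k'' hk'']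
  exact h2 (h U hU h3 k' hk') rfl

end Core

/-- Pressing down: a chain of length `μ` which reflects at all places with the limit property
reflects at a fixed place cofinally often. -/
theorem pressing {κ μ : Cardinal.{u}} (hκ : ℵ₀ ≤ κ) (hμ : μ.IsRegular)
    (hκμ : Order.succ κ < μ) (R : μ.ord.ToType → μ.ord.ToType → Prop)
    (hmono : ∀ {δ β β'}, R δ β → β ≤ β' → R δ β') (hR : ∀ δ, Lim κ δ → ∃ β < δ, R δ β) :
    ∃ β, ∀ i, ∃ δ, i < δ ∧ R δ β := by
  have hreg1 : (Order.succ κ).IsRegular := isRegular_succ hκ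
  have hlt1 : κ < Order.succ κ := Order.lt_succ κ
  have hbd := fun s hs => bdd_toType hμ s hs
  by_contra hcon
  push Not at hcon
  choose h hh using hcon
  obtain ⟨γ, hγ⟩ := exists_rec (I := (Order.succ κ).ord.ToType)
    (P := fun i g a => ∀ j (hj : j < i), g j hj < a ∧ h (g j hj) < a) (by
      intro i g
      obtain ⟨a, ha⟩ := hbd (range (fun j : Iio i => g j j.2) ∪
          range (fun j : Iio i => h (g j j.2))) (by
        refine (mk_union_le _ _).trans_lt ?_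
        have e1 : #(Iio i) < μ := (iio_toType i).trans hκμ
        exact add_lt_of_lt hμ.1 (mk_range_le.trans_lt e1) (mk_range_le.trans_lt e1))
      exact ⟨a, fun j hj => ⟨ha _ (Or.inl ⟨⟨j, hj⟩, rfl⟩), ha _ (Or.inr ⟨⟨j, hj⟩, rfl⟩)⟩⟩)
  obtain ⟨δ₀, hδ₀⟩ := hbd (range γ) (by
    refine mk_range_le.trans_lt ?_
    rw [mk_toType, card_ord]
    exact hκμ)
  obtain ⟨δ, hδ, hδmin⟩ := (wellFounded_lt (α := μ.ord.ToType)).has_min
    {δ | ∀ ξ, γ ξ < δ} ⟨δ₀, fun ξ => hδ₀ _ ⟨ξ, rfl⟩⟩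
  have hlt : ∀ i, i < δ → ∃ ξ, i ≤ γ ξ := by
    intro i hi
    by_contra hcon
    push Not at hcon
    exact hδmin i hcon hi
  have hnext : ∀ s : Set (Order.succ κ).ord.ToType, #s ≤ κ → ∃ ξ, ∀ η ∈ s, η < ξ :=
    fun s hs => bdd_toType hreg1 s (hs.trans_lt hlt1)
  have hlim : Lim κ δ := by
    intro s hs hsδ
    choose ξ hξ using fun i : s => hlt i (hsδ i i.2)
    obtain ⟨ζ, hζ⟩ := hnext (range ξ) (mk_range_le.trans hs)
    exact ⟨γ ζ, hδ ζ, fun i hi => (hξ ⟨i, hi⟩).trans_lt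
      (hγ ζ _ (hζ _ ⟨⟨i, hi⟩, rfl⟩)).1⟩
  obtain ⟨β, hβ, h2⟩ := hR δ hlim
  obtain ⟨ξ, hξ⟩ := hlt β hβ
  obtain ⟨ζ, hζ⟩ := hnext {ξ} (by
    rw [mk_singleton]
    exact one_le_aleph0.trans hκ)
  have h3 : h (γ ξ) < δ := (hγ ζ ξ (hζ ξ rfl)).2.trans (hδ ζ)
  exact hh (γ ξ) δ h3 (hmono h2 hξ)

section Main

variable {K : Type u} [TopologicalSpace K] [CompactSpace K] [T2Space K] {κ μ : Cardinal.{u}}

/-- The combinatorial core. -/
theorem core (hκ : ℵ₀ ≤ κ) (hμ : μ.IsRegular) (hκμ : Order.succ κ < μ) (hK : HLDegreeLE K κ)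
    (φ : μ.ord.ToType → C(K, ℝ)) (a b : μ.ord.ToType → K)
    (h1 : ∀ i j, j < i → φ j (a i) = φ j (b i)) :
    ∃ α : μ.ord.ToType → μ.ord.ToType,
      StrictMono α ∧ ∀ i j, i ≠ j → φ (α i) (a (α j)) = φ (α i) (b (α j)) := by
  have hlt1 : κ < Order.succ κ := Order.lt_succ κ
  have hbd := fun s hs => bdd_toType hμ s hs
  have hsing : ∀ j : μ.ord.ToType, #({j} : Set μ.ord.ToType) < μ := fun j => by
    rw [mk_singleton]
    exact (one_lt_aleph0.trans_le hμ.1)
  -- stabilisation of classes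
  have hst : ∀ k : K, ∃ α, ∀ k' ∈ cls φ α k, ∀ j, φ j k' = φ j k := by
    intro k
    obtain ⟨t, ht, h2⟩ := hK.closed (fun i => cls φ i k) fun i => isClosed_cls φ i k
    obtain ⟨α, hα⟩ := hbd t (ht.trans_lt (hlt1.trans hκμ))
    refine ⟨α, fun k' hk' j => ?_⟩
    have h3 : k' ∈ ⋂ i ∈ t, cls φ i k :=
      mem_iInter₂.mpr fun i hi => cls_anti φ (hα i hi).le k hk'
    rw [h2] at h3
    obtain ⟨i, hi⟩ := hbd {j} (hsing j)
    exact mem_iInter.mp h3 i j (hi j rfl)
  choose st hst using hst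
  -- pressing down
  obtain ⟨β, hβ⟩ := pressing hκ hμ hκμ (Refl φ) (fun h1 h2 => h1.mono φ h2)
    fun δ hδ => exists_refl φ hκ hK hδ
  -- the choice of the subsequence
  obtain ⟨α, hα⟩ := exists_rec (I := μ.ord.ToType)
    (P := fun i g c => (β < c ∧ Refl φ c β) ∧ ∀ j (hj : j < i), g j hj < c ∧ st (a (g j hj)) < c)
    (by
      intro i g
      obtain ⟨c, hc⟩ := hbd ({β} ∪ (range (fun j : Iio i => g j j.2) ∪
          range (fun j : Iio i => st (a (g j j.2))))) (by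
        refine (mk_union_le _ _).trans_lt (add_lt_of_lt hμ.1 (hsing β) ?_)
        refine (mk_union_le _ _).trans_lt ?_
        exact add_lt_of_lt hμ.1 (mk_range_le.trans_lt (iio_toType i))
          (mk_range_le.trans_lt (iio_toType i)))
      obtain ⟨δ, hδ, h2⟩ := hβ c
      exact ⟨δ, ⟨(hc β (Or.inl rfl)).trans hδ, h2⟩, fun j hj =>
        ⟨(hc _ (Or.inr (Or.inl ⟨⟨j, hj⟩, rfl⟩))).trans hδ,
          (hc _ (Or.inr (Or.inr ⟨⟨j, hj⟩, rfl⟩))).trans hδ⟩⟩)
  refine ⟨α, fun j i hj => ((hα i).2 j hj).1, fun i j hij => ?_⟩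
  rcases lt_or_gt_of_ne hij with hij | hij
  · exact h1 _ _ ((hα j).2 i hij).1
  · have h2 : ∀ k' ∈ cls φ (α i) (a (α j)), φ (α i) k' = φ (α i) (a (α j)) := fun k' hk' =>
      hst _ k' (cls_anti φ ((hα i).2 j hij).2.le _ hk') _
    refine ((hα i).1.2.const φ h2 (k' := b (α j)) fun l hl => ?_).symm
    exact (h1 (α j) l (hl.trans (hα j).1.1)).symm

end Main

end Pool.Agent.Helper50.Supp
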