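import Pool.Agent.Helper50.SupportOp

/-!
# Operators with lattice-like range
-/

set_option autoImplicit false

open Set Topology Cardinal

noncomputable section

namespace Pool.Agent.Helper50.Supp

universe u

variable {X : Type u} [NormedAddCommGroup X] [NormedSpace ℝ X]
  {K : Type u} [TopologicalSpace K] [CompactSpace K]

/-- The sets `{T y > 0}` with `T y ≥ 0` form a base of the topology on `K` generated by all the
sets `{T x > 0}`. -/
def LatticeLike (T : X →L[ℝ] C(K, ℝ)) : Prop :=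
  ∀ (x₁ x₂ : X) (k : K), 0 < T x₁ k → 0 < T x₂ k → ∃ y : X, (∀ k', 0 ≤ T y k') ∧ 0 < T y k ∧
    ∀ k', 0 < T y k' → 0 < T x₁ k' ∧ 0 < T x₂ k'

/-- Countable subfamilies for the sets `{T y > 0}` with `T y ≥ 0`. -/
def PosLindelof (T : X →L[ℝ] C(K, ℝ)) : Prop :=
  ∀ A : Set X, (∀ y ∈ A, ∀ k, 0 ≤ T y k) → ∃ t : Set X, t.Countable ∧ t ⊆ A ∧
    ∀ y ∈ A, ∀ k, 0 < T y k → ∃ y' ∈ t, 0 < T y' k

omit [CompactSpace K] in
theorem evalT (T : X →L[ℝ] C(K, ℝ)) (k : K) (x : X) :
    ((ContinuousMap.evalCLM ℝ k).comp T) x = T x k := rfl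

omit [CompactSpace K] in
theorem hasSupportSet_or_posLindelof (T : X →L[ℝ] C(K, ℝ)) (h : ¬ PosLindelof T) :
    HasSupportSet X := by
  unfold PosLindelof at h
  push Not at h
  obtain ⟨A, hA, hcov⟩ := h
  obtain ⟨F, hF⟩ := exists_rec (I := (ℵ_ 1 : Cardinal.{u}).ord.ToType) (α := A × K)
    (P := fun i g p => 0 < T p.1 p.2 ∧ ∀ j (hj : j < i), ¬ 0 < T (g j hj).1 p.2) (by
      intro i g
      obtain ⟨y, hy, k, hk, h1⟩ := hcov (range fun j : Iio i => ((g j j.2).1 : X)) (by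
        have h1 := iio_toType i
        have h2 : #(Iio i) ≤ ℵ₀ := by
          refine Order.lt_succ_iff.mp ?_
          rw [succ_aleph0]
          exact h1
        have : Countable (Iio i) := mk_le_aleph0_iff.mp h2
        exact countable_range _) (by
        rintro _ ⟨j, rfl⟩
        exact (g j j.2).1.2)
      exact ⟨(⟨y, hy⟩, k), hk, fun j hj => not_lt.mpr (h1 _ ⟨⟨j, hj⟩, rfl⟩)⟩)
  refine hasSupportSet_of_omega1 (fun i => ((F i).1 : X))
    (fun i => (ContinuousMap.evalCLM ℝ (F i).2).comp T) ?_ ?_ ?_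
  · intro i j hij
    rw [evalT]
    exact le_antisymm (not_lt.mp ((hF j).2 i hij)) (hA _ (F i).1.2 _)
  · intro i j
    rw [evalT]
    exact hA _ (F i).1.2 _
  · intro i
    rw [evalT]
    exact (hF i).1

/-- Multiples of evaluations, as functions on `X`. -/
def Psi (T : X →L[ℝ] C(K, ℝ)) (p : K × unitInterval) : X → ℝ := fun x => (p.2 : ℝ) * T x p.1

omit [CompactSpace K] in
theorem continuous_Psi (T : X →L[ℝ] C(K, ℝ)) : Continuous (Psi T) :=
  continuous_pi fun x => (continuous_subtype_val.comp continuous_snd).mul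
    ((T x).continuous.comp continuous_fst)

/-- The compact space of multiples of evaluations. -/
abbrev KK (T : X →L[ℝ] C(K, ℝ)) : Type u := range (Psi T)

instance compactKK (T : X →L[ℝ] C(K, ℝ)) : CompactSpace (KK T) :=
  isCompact_iff_compactSpace.mp (isCompact_range (continuous_Psi T))

/-- The point of `KK T` given by a point and a number. -/
def pt (T : X →L[ℝ] C(K, ℝ)) (k : K) (s : unitInterval) : KK T := ⟨Psi T (k, s), ⟨(k, s), rfl⟩⟩

omit [CompactSpace K] in
theorem pt_apply (T : X →L[ℝ] C(K, ℝ)) (k : K) (s : unitInterval) (x : X) :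
    (pt T k s).1 x = (s : ℝ) * T x k := rfl

omit [CompactSpace K] in
/-- Basic neighbourhoods in terms of the positive elements. -/
theorem exists_basic {T : X →L[ℝ] C(K, ℝ)} (hT : LatticeLike T) {y₀ : X}
    (hy₀ : ∀ k, 0 ≤ T y₀ k) {k : K} (hk : 0 < T y₀ k) {s : ℝ} (hs : 0 < s) (F : Finset X)
    (V : X → Set ℝ) (hV : ∀ a ∈ F, IsOpen (V a) ∧ s * T a k ∈ V a) :
    ∃ (c d : ℝ) (w : X), c < s * T y₀ k ∧ s * T y₀ k < d ∧ (∀ k', 0 ≤ T w k') ∧ 0 < T w k ∧
      ∀ k' (s' : ℝ), 0 ≤ s' → c < s' * T y₀ k' → s' * T y₀ k' < d → 0 < T w k' →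
        ∀ a ∈ F, s' * T a k' ∈ V a := by
  classical
  induction F using Finset.induction_on with
  | empty =>
    exact ⟨s * T y₀ k - 1, s * T y₀ k + 1, y₀, by linarith, by linarith, hy₀, hk, by simp⟩
  | insert a F ha ih =>
    obtain ⟨c, d, w, hc, hd, hw, hwk, hprop⟩ := ih fun b hb => hV b (Finset.mem_insert_of_mem hb)
    obtain ⟨hVo, hVm⟩ := hV a (Finset.mem_insert_self _ _)
    set s₀ := s * T y₀ k with hs₀
    have hs₀pos : 0 < s₀ := mul_pos hs hk
    set r₀ := T a k / T y₀ k with hr₀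
    have h1 : s₀ * r₀ ∈ V a := by
      have : s₀ * r₀ = s * T a k := by
        rw [hs₀, hr₀]
        field_simp
      rwa [this]
    have hop : IsOpen ((fun p : ℝ × ℝ => p.1 * p.2) ⁻¹' V a) :=
      hVo.preimage (continuous_fst.mul continuous_snd)
    obtain ⟨δ, hδ, hball⟩ := Metric.isOpen_iff.mp hop (s₀, r₀) h1
    have hδ' : ∀ s' r' : ℝ, |s' - s₀| < δ → |r' - r₀| < δ → s' * r' ∈ V a := by
      intro s' r' h2 h3
      refine hball (a := (s', r')) ?_
      rw [Metric.mem_ball, Prod.dist_eq]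
      exact max_lt h2 h3
    have hw1 : 0 < T (a - (r₀ - δ) • y₀) k := by
      have e : T (a - (r₀ - δ) • y₀) k = δ * T y₀ k := by
        rw [map_sub, map_smul, ContinuousMap.sub_apply, ContinuousMap.smul_apply, smul_eq_mul,
          hr₀]
        field_simp
        ring
      rw [e]
      exact mul_pos hδ hk
    have hw2 : 0 < T ((r₀ + δ) • y₀ - a) k := by
      have e : T ((r₀ + δ) • y₀ - a) k = δ * T y₀ k := by
        rw [map_sub, map_smul, ContinuousMap.sub_apply, ContinuousMap.smul_apply, smul_eq_mul,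
          hr₀]
        field_simp
        ring
      rw [e]
      exact mul_pos hδ hk
    obtain ⟨y', -, hy'k, hy'⟩ := hT _ _ k hw1 hw2
    obtain ⟨w', hw', hw'k, hw'p⟩ := hT _ _ k hy'k hwk
    refine ⟨max c (max 0 (s₀ - δ)), min d (s₀ + δ), w', ?_, ?_, hw', hw'k, ?_⟩
    · exact max_lt hc (max_lt hs₀pos (by linarith))
    · exact lt_min hd (by linarith)
    · intro k' s' hs' h2 h3 h4 b hb
      obtain ⟨h5, h6⟩ := max_lt_iff.mp h2
      obtain ⟨h7, h8⟩ := max_lt_iff.mp h6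
      obtain ⟨h9, h10⟩ := lt_min_iff.mp h3
      obtain ⟨h11, h12⟩ := hw'p k' h4
      obtain ⟨h13, h14⟩ := hy' k' h11
      rcases Finset.mem_insert.mp hb with rfl | hb
      · have hTy : 0 < T y₀ k' := by
          rcases (hy₀ k').lt_or_eq with h | h
          · exact h
          · rw [← h, mul_zero] at h7
            exact absurd h7 (lt_irrefl _)
        have e : s' * T b k' = s' * T y₀ k' * (T b k' / T y₀ k') := by field_simp
        rw [e]
        refine hδ' _ _ ?_ ?_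
        · rw [abs_lt]
          constructor <;> linarith
        · rw [map_sub, map_smul, ContinuousMap.sub_apply, ContinuousMap.smul_apply,
            smul_eq_mul] at h13 h14
          rw [abs_lt]
          constructor
          · have : r₀ - δ < T b k' / T y₀ k' := by
              rw [lt_div_iff₀ hTy]
              linarith
            linarith
          · have : T b k' / T y₀ k' < r₀ + δ := by
              rw [div_lt_iff₀ hTy]
              linarith
            linarith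
      · exact hprop k' s' hs' h5 h9 h12 b hb

omit [CompactSpace K] in
/-- Under the Lindelöf property for positive elements the space `KK T` is hereditarily
Lindelöf. -/
theorem hlKK {T : X →L[ℝ] C(K, ℝ)} (hT : LatticeLike T) (hP : PosLindelof T) :
    HLDegreeLE (KK T) ℵ₀ := by
  intro ι U hU
  obtain ⟨t₀, ht₀, ht₀A, hcov₀⟩ := hP {y | ∀ k, 0 ≤ T y k} fun y hy => hy
  -- the families
  let A : t₀ × ℚ × ℚ → Set X := fun p => {w | (∀ k, 0 ≤ T w k) ∧ ∃ i, ∀ k' (s' : unitInterval),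
    (p.2.1 : ℝ) < s' * T p.1 k' → (s' : ℝ) * T p.1 k' < p.2.2 → 0 < T w k' → pt T k' s' ∈ U i}
  have hA : ∀ p, ∃ t : Set X, t.Countable ∧ t ⊆ A p ∧
      ∀ y ∈ A p, ∀ k, 0 < T y k → ∃ y' ∈ t, 0 < T y' k := fun p => hP (A p) fun y hy => hy.1
  choose t htc htA htcov using hA
  have hidx : ∀ p (w : t p), ∃ i, ∀ k' (s' : unitInterval), (p.2.1 : ℝ) < s' * T p.1 k' →
      (s' : ℝ) * T p.1 k' < p.2.2 → 0 < T w k' → pt T k' s' ∈ U i := fun p w => (htA p w.2).2
  choose idx hidx using hidx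
  have : Countable t₀ := ht₀.to_subtype
  have : ∀ p, Countable (t p) := fun p => (htc p).to_subtype
  let S : Set ι := range fun q : (Σ p, t p) => idx q.1 q.2
  have hS : S.Countable := countable_range _
  -- the zero point
  have hzero : ∃ Z : Set ι, Z.Countable ∧ ∀ i, ∀ p ∈ U i, p.1 = 0 → ∃ j ∈ Z, p ∈ U j := by
    by_cases h : ∃ i, ∃ p ∈ U i, p.1 = 0
    · obtain ⟨i, p, hp, hp0⟩ := h
      refine ⟨{i}, countable_singleton i, fun i' p' _ hp' => ⟨i, rfl, ?_⟩⟩
      have : p' = p := Subtype.ext (hp'.trans hp0.symm)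
      rwa [this]
    · exact ⟨∅, countable_empty, fun i p hp hp0 => absurd ⟨i, p, hp, hp0⟩ h⟩
  obtain ⟨Z, hZ, hZ'⟩ := hzero
  refine ⟨S ∪ Z, mk_le_aleph0_iff.mpr (hS.union hZ).to_subtype, ?_⟩
  apply subset_antisymm
  · exact iUnion₂_subset fun i _ => subset_iUnion U i
  intro p hp
  obtain ⟨i, hi⟩ := mem_iUnion.mp hp
  by_cases h0 : p.1 = 0
  · obtain ⟨j, hj, hpj⟩ := hZ' i p hi h0
    exact mem_iUnion₂.mpr ⟨j, Or.inr hj, hpj⟩
  obtain ⟨⟨k, s⟩, hks⟩ := p.2
  have hpt : p = pt T k s := Subtype.ext hks.symm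
  rw [hpt] at hi h0 ⊢
  have h1 : ∃ x, (s : ℝ) * T x k ≠ 0 := by
    by_contra hcon
    push Not at hcon
    exact h0 (funext hcon)
  obtain ⟨x, hx⟩ := h1
  have hs : 0 < (s : ℝ) := lt_of_le_of_ne s.2.1 fun h => by
    rw [← h, zero_mul] at hx
    exact hx rfl
  have hx' : ∃ x, 0 < T x k := by
    rcases lt_or_gt_of_ne (right_ne_zero_of_mul hx) with h | h
    · refine ⟨-x, ?_⟩
      rw [map_neg, ContinuousMap.neg_apply]
      linarith
    · exact ⟨x, h⟩
  obtain ⟨x, hx⟩ := hx'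
  obtain ⟨y, hy, hyk, -⟩ := hT x x k hx hx
  obtain ⟨y₀, hy₀, hy₀k⟩ := hcov₀ y hy k hyk
  have hy₀' : ∀ k, 0 ≤ T y₀ k := ht₀A hy₀
  -- a basic neighbourhood
  obtain ⟨V, hV, hVU⟩ := isOpen_induced_iff.mp (hU i)
  have hpV : (pt T k s).1 ∈ V := by
    have : pt T k s ∈ Subtype.val ⁻¹' V := by rwa [hVU]
    exact this
  obtain ⟨F, u, hu, huV⟩ := isOpen_pi_iff.mp hV _ hpV
  obtain ⟨c, d, w, hc, hd, hw, hwk, hprop⟩ := exists_basic hT hy₀' hy₀k hs F u hu
  obtain ⟨q₁, hq₁, hq₁'⟩ := exists_rat_btwn hc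
  obtain ⟨q₂, hq₂, hq₂'⟩ := exists_rat_btwn hd
  have hwA : w ∈ A (⟨y₀, hy₀⟩, q₁, q₂) := by
    refine ⟨hw, i, fun k' s' h2 h3 h4 => ?_⟩
    have h5 := hprop k' s' s'.2.1 (hq₁.trans h2) (h3.trans hq₂') h4
    have h6 : (pt T k' s').1 ∈ V := huV fun a ha => h5 a ha
    rw [← hVU]
    exact h6
  obtain ⟨w', hw', hw'k⟩ := htcov _ w hwA k hwk
  refine mem_iUnion₂.mpr ⟨idx (⟨y₀, hy₀⟩, q₁, q₂) ⟨w', hw'⟩,
    Or.inl ⟨⟨(⟨y₀, hy₀⟩, q₁, q₂), ⟨w', hw'⟩⟩, rfl⟩, ?_⟩
  exact hidx (⟨y₀, hy₀⟩, q₁, q₂) ⟨w', hw'⟩ k s hq₁' hq₂ hw'k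

/-- The operator into the continuous functions on `KK T`. -/
def TT (T : X →L[ℝ] C(K, ℝ)) : X →L[ℝ] C(KK T, ℝ) :=
  LinearMap.mkContinuous
    { toFun := fun x => ⟨fun p => p.1 x, (continuous_apply x).comp continuous_subtype_val⟩
      map_add' := fun x y => by
        ext p
        obtain ⟨⟨k, s⟩, hks⟩ := p.2
        change p.1 (x + y) = p.1 x + p.1 y
        rw [← hks]
        change (s : ℝ) * T (x + y) k = s * T x k + s * T y k
        rw [map_add, ContinuousMap.add_apply, mul_add]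
      map_smul' := fun r x => by
        ext p
        obtain ⟨⟨k, s⟩, hks⟩ := p.2
        change p.1 (r • x) = r * p.1 x
        rw [← hks]
        change (s : ℝ) * T (r • x) k = r * (s * T x k)
        rw [map_smul, ContinuousMap.smul_apply, smul_eq_mul]
        ring } ‖T‖ fun x => by
      rw [ContinuousMap.norm_le _ (by positivity)]
      intro p
      obtain ⟨⟨k, s⟩, hks⟩ := p.2
      change ‖p.1 x‖ ≤ _
      rw [← hks]
      change ‖(s : ℝ) * T x k‖ ≤ _
      rw [norm_mul]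
      have h1 : ‖(s : ℝ)‖ ≤ 1 := by
        rw [Real.norm_eq_abs, abs_of_nonneg s.2.1]
        exact s.2.2
      calc ‖(s : ℝ)‖ * ‖T x k‖ ≤ 1 * ‖T x‖ :=
            mul_le_mul h1 ((T x).norm_coe_le_norm k) (norm_nonneg _) zero_le_one
        _ ≤ ‖T‖ * ‖x‖ := by
            rw [one_mul]
            exact T.le_opNorm x

theorem TT_apply (T : X →L[ℝ] C(K, ℝ)) (x : X) (p : KK T) : TT T x p = p.1 x := rfl

theorem rangeDensity_TT {T : X →L[ℝ] C(K, ℝ)} {μ : Cardinal.{u}} (h : RangeDensityGE T μ) :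
    RangeDensityGE (TT T) μ := by
  intro s hs
  apply h s
  have hcont : Continuous fun k : K => pt T k 1 :=
    ((continuous_Psi T).comp (continuous_id.prodMk continuous_const)).subtype_mk _
  let R : C(KK T, ℝ) → C(K, ℝ) := fun g => g.comp ⟨fun k => pt T k 1, hcont⟩
  have hR : Continuous R := ContinuousMap.continuous_precomp _
  have hRT : ∀ x, R (TT T x) = T x := fun x => by
    ext k
    change (pt T k 1).1 x = T x k
    rw [pt_apply]
    simp
  rintro _ ⟨x, rfl⟩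
  have h1 := image_closure_subset_closure_image hR ⟨TT T x, hs ⟨x, rfl⟩, rfl⟩
  rw [hRT] at h1
  refine closure_mono ?_ h1
  rintro _ ⟨_, ⟨y, hy, rfl⟩, rfl⟩
  rw [hRT]
  exact ⟨y, hy, rfl⟩

/-- Operators with lattice-like range of density greater than `ℵ₁`. -/
theorem hasSupportSet_of_latticeLike (T : X →L[ℝ] C(K, ℝ)) (hT : RangeDensityGE T (ℵ_ 2))
    (hL : LatticeLike T) : HasSupportSet X := by
  by_cases hP : PosLindelof T
  · have hreg : (ℵ_ 2 : Cardinal.{u}).IsRegular := by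
      have := isRegular_aleph_add_one.{u} 1
      rwa [one_add_one_eq_two] at this
    have hlt : (ℵ_ 1 : Cardinal.{u}) < ℵ_ 2 := aleph_lt_aleph.mpr (by norm_num)
    obtain ⟨z, f, h1, h2⟩ := exists_biorth le_rfl hreg (by rwa [succ_aleph0]) (hlKK hL hP)
      (TT T) (rangeDensity_TT hT)
    refine hasSupportSet_of_biorth ?_ z f h1 h2
    rw [mk_toType, card_ord]
    exact hlt.le
  · exact hasSupportSet_or_posLindelof T hP

end Pool.Agent.Helper50.Supp
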