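import Pool.Agent.Helper50.SupportComb

/-!
# Operators into spaces of continuous functions
-/

set_option autoImplicit false

open Set Topology Cardinal

noncomputable section

namespace Pool.Agent.Helper50.Supp

universe u

variable {X : Type u} [NormedAddCommGroup X] [NormedSpace ℝ X]

/-- The index set of type `ω₁`. -/
theorem omega1_succ (i : (ℵ_ 1 : Cardinal.{u}).ord.ToType) : ∃ j, i < j := by
  obtain ⟨j, hj⟩ := bdd_toType isRegular_aleph_one {i} (by
    rw [mk_singleton]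
    exact one_lt_aleph0.trans_le (aleph0_le_aleph 1))
  exact ⟨j, hj i rfl⟩

theorem omega1_bdd (s : Set (ℵ_ 1 : Cardinal.{u}).ord.ToType) (hs : s.Countable) :
    ∃ j, ∀ i ∈ s, i < j :=
  bdd_toType isRegular_aleph_one s ((mk_le_aleph0_iff.mpr hs.to_subtype).trans_lt
    (aleph0_lt_aleph.mpr (by norm_num)))

instance omega1_nonempty : Nonempty (ℵ_ 1 : Cardinal.{u}).ord.ToType := by
  obtain ⟨j, -⟩ := omega1_bdd ∅ countable_empty
  exact ⟨j⟩

/-- A semibiorthogonal sequence of length `ω₁` gives a support set. -/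
theorem hasSupportSet_of_omega1 (z : (ℵ_ 1 : Cardinal.{u}).ord.ToType → X)
    (f : (ℵ_ 1 : Cardinal.{u}).ord.ToType → X →L[ℝ] ℝ) (h0 : ∀ i j, i < j → f j (z i) = 0)
    (h1 : ∀ i j, 0 ≤ f j (z i)) (h2 : ∀ i, 0 < f i (z i)) : HasSupportSet X :=
  hasSupportSet_of_semi omega1_succ (fun s hs => by
    obtain ⟨j, hj⟩ := omega1_bdd s hs
    exact ⟨j, fun i hi => (hj i hi).le⟩) z f h0 h1 h2

/-- An uncountable biorthogonal system gives a support set. -/
theorem hasSupportSet_of_biorth {ι : Type u} (hι : ℵ₁ ≤ #ι) (z : ι → X) (f : ι → X →L[ℝ] ℝ)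
    (h1 : ∀ i, f i (z i) = 1) (h0 : ∀ i j, i ≠ j → f i (z j) = 0) : HasSupportSet X := by
  have h : #(ℵ_ 1 : Cardinal.{u}).ord.ToType ≤ #ι := by rwa [mk_toType, card_ord]
  obtain ⟨e⟩ := h
  refine hasSupportSet_of_omega1 (fun i => z (e i)) (fun i => f (e i)) ?_ ?_ ?_
  · intro i j hij
    exact h0 _ _ fun h => hij.ne' (e.injective h)
  · intro i j
    by_cases hij : j = i
    · rw [hij, h1]
      exact zero_le_one
    · rw [h0 _ _ fun h => hij (e.injective h)]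
  · intro i
    rw [h1]
    exact zero_lt_one

variable {K : Type u} [TopologicalSpace K] [CompactSpace K]

/-- The density character of the range of `T` is at least `μ`. -/
def RangeDensityGE {Y : Type u} [NormedAddCommGroup Y] [NormedSpace ℝ Y] (T : X →L[ℝ] Y)
    (μ : Cardinal.{u}) : Prop :=
  ∀ s : Set X, range T ⊆ closure (T '' s) → μ ≤ #s

theorem RangeDensityGE.not_subset {Y : Type u} [NormedAddCommGroup Y] [NormedSpace ℝ Y]
    {T : X →L[ℝ] Y} {μ : Cardinal.{u}} (hμ : ℵ₀ < μ) (hT : RangeDensityGE T μ) (D : Set Y)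
    (hD : #D < μ) : ∃ x, T x ∉ closure D := by
  by_contra hcon
  push Not at hcon
  have h2 : ∀ p : D × ℕ, ∃ x : X, (∃ y, dist (T y) p.1 < 1 / ((p.2 : ℝ) + 1)) →
      dist (T x) p.1 < 1 / ((p.2 : ℝ) + 1) := by
    intro p
    by_cases h : ∃ y, dist (T y) p.1 < 1 / ((p.2 : ℝ) + 1)
    · obtain ⟨y, hy⟩ := h
      exact ⟨y, fun _ => hy⟩
    · exact ⟨0, fun h' => absurd h' h⟩
  choose F hF using h2
  have h3 : #(range F) < μ := by
    refine mk_range_le.trans_lt ?_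
    rw [mk_prod, lift_uzero, mk_nat, lift_aleph0]
    exact mul_lt_of_lt hμ.le hD hμ
  refine absurd (hT (range F) ?_) (not_le.mpr h3)
  rintro _ ⟨x, rfl⟩
  rw [Metric.mem_closure_iff]
  intro ε hε
  obtain ⟨n, hn⟩ := exists_nat_one_div_lt (half_pos hε)
  obtain ⟨d, hd, hxd⟩ := Metric.mem_closure_iff.mp (hcon x) (1 / ((n : ℝ) + 1)) (by positivity)
  have h4 := hF (⟨d, hd⟩, n) ⟨x, hxd⟩
  refine ⟨T (F (⟨d, hd⟩, n)), ⟨_, ⟨_, rfl⟩, rfl⟩, ?_⟩
  calc dist (T x) (T (F (⟨d, hd⟩, n))) ≤ dist (T x) d + dist d (T (F (⟨d, hd⟩, n))) :=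
        dist_triangle _ _ _
    _ < ε / 2 + ε / 2 := by
        rw [dist_comm d]
        exact add_lt_add (hxd.trans hn) (h4.trans hn)
    _ = ε := add_halves ε

variable {K : Type u} [TopologicalSpace K] [CompactSpace K]

theorem RangeDensityGE.exists_sep {T : X →L[ℝ] C(K, ℝ)} {μ : Cardinal.{u}} (hμ : ℵ₀ < μ)
    (hT : RangeDensityGE T μ) (S : Set X) (hS : #S < μ) :
    ∃ (x : X) (a b : K), (∀ y ∈ S, T y a = T y b) ∧ T x a ≠ T x b := by
  by_contra hcon
  push Not at hcon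
  obtain ⟨D, hD, hcl⟩ := exists_dense_of_factor (μ := max ℵ₀ #S) (le_max_left _ _) (T '' S)
    (mk_image_le.trans (le_max_right _ _))
  obtain ⟨x, hx⟩ := hT.not_subset hμ D (hD.trans_lt (max_lt hμ hS))
  exact hx (hcl (T x) fun a b hab => hcon x a b fun y hy => hab (T y) ⟨y, hy, rfl⟩)

/-- A compact space of small hereditary Lindelöf degree: large biorthogonal systems. -/
theorem exists_biorth [T2Space K] {κ μ : Cardinal.{u}} (hκ : ℵ₀ ≤ κ) (hμ : μ.IsRegular)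
    (hκμ : Order.succ κ < μ) (hK : HLDegreeLE K κ) (T : X →L[ℝ] C(K, ℝ))
    (hT : RangeDensityGE T μ) :
    ∃ (z : μ.ord.ToType → X) (f : μ.ord.ToType → X →L[ℝ] ℝ),
      (∀ i, f i (z i) = 1) ∧ ∀ i j, i ≠ j → f i (z j) = 0 := by
  have hμ0 : ℵ₀ < μ := (hκ.trans (Order.le_succ κ)).trans_lt hκμ
  obtain ⟨F, hF⟩ := exists_rec (I := μ.ord.ToType)
    (α := X × K × K)
    (P := fun i g p => (∀ j (hj : j < i), T (g j hj).1 p.2.1 = T (g j hj).1 p.2.2) ∧
      T p.1 p.2.1 ≠ T p.1 p.2.2) (by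
      intro i g
      obtain ⟨x, a, b, h1, h2⟩ := hT.exists_sep hμ0 (range fun j : Iio i => (g j j.2).1)
        (mk_range_le.trans_lt (iio_toType i))
      exact ⟨(x, a, b), fun j hj => h1 _ ⟨⟨j, hj⟩, rfl⟩, h2⟩)
  obtain ⟨α, -, hα⟩ := core hκ hμ hκμ hK (fun i => T (F i).1) (fun i => (F i).2.1)
    (fun i => (F i).2.2) fun i j hj => (hF i).1 j hj
  let c : μ.ord.ToType → ℝ := fun i =>
    T (F (α i)).1 (F (α i)).2.1 - T (F (α i)).1 (F (α i)).2.2
  have hc : ∀ i, c i ≠ 0 := fun i => sub_ne_zero.mpr (hF (α i)).2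
  let ev : K → X →L[ℝ] ℝ := fun k => (ContinuousMap.evalCLM ℝ k).comp T
  have hev : ∀ k x, ev k x = T x k := fun k x => rfl
  refine ⟨fun i => (c i)⁻¹ • (F (α i)).1, fun i => ev (F (α i)).2.1 - ev (F (α i)).2.2, ?_, ?_⟩
  · intro i
    rw [map_smul, sub_apply, hev, hev, smul_eq_mul]
    exact inv_mul_cancel₀ (hc i)
  · intro i j hij
    rw [map_smul, sub_apply, hev, hev, smul_eq_mul,
      hα j i hij.symm, sub_self, mul_zero]

end Pool.Agent.Helper50.Supp
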