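import Pool.Agent.Helper50.SupportOp

/-!
# Operators into spaces with many small functionals
-/

set_option autoImplicit false

open Set Topology Cardinal

noncomputable section

namespace Pool.Agent.Helper50.Supp

universe u

section RatComb

variable {Y : Type u} [NormedAddCommGroup Y] [NormedSpace ℝ Y]

/-- Rational combinations of the elements of a set. -/
def ratComb (A : Set Y) : Set Y :=
  range fun c : A →₀ ℚ => c.sum fun a q => (q : ℝ) • (a : Y)

theorem mk_ratComb {μ : Cardinal.{u}} (hμ : ℵ₀ < μ) {A : Set Y} (hA : #A < μ) :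
    #(ratComb A) < μ := by
  refine mk_range_le.trans_lt ?_
  rcases isEmpty_or_nonempty A with h | h
  · have : Subsingleton (A →₀ ℚ) := inferInstance
    exact (Cardinal.le_one_iff_subsingleton.mpr this).trans_lt (one_lt_aleph0.trans hμ)
  · rw [mk_finsupp_lift_of_infinite']
    simp only [lift_uzero, Cardinal.mkRat, lift_aleph0]
    exact max_lt hA hμ

theorem subset_ratComb (A : Set Y) : A ⊆ ratComb A := by
  intro a ha
  refine ⟨Finsupp.single ⟨a, ha⟩ 1, ?_⟩
  simp

theorem zero_mem_ratComb (A : Set Y) : (0 : Y) ∈ ratComb A := ⟨0, by simp⟩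

theorem add_mem_ratComb {A : Set Y} {x y : Y} (hx : x ∈ ratComb A) (hy : y ∈ ratComb A) :
    x + y ∈ ratComb A := by
  obtain ⟨c, rfl⟩ := hx
  obtain ⟨d, rfl⟩ := hy
  refine ⟨c + d, ?_⟩
  simp only
  rw [Finsupp.sum_add_index']
  · intro a
    simp
  · intro a q q'
    push_cast
    rw [add_smul]

theorem smul_mem_ratComb {A : Set Y} {x : Y} (hx : x ∈ ratComb A) (q : ℚ) :
    (q : ℝ) • x ∈ ratComb A := by
  obtain ⟨c, rfl⟩ := hx
  refine ⟨q • c, ?_⟩
  simp only
  rw [Finsupp.sum_smul_index' (fun a => by simp), Finsupp.smul_sum]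
  refine Finsupp.sum_congr fun a _ => ?_
  rw [smul_smul, smul_eq_mul, Rat.cast_mul]

theorem span_subset_closure_ratComb (A : Set Y) :
    (Submodule.span ℝ A : Set Y) ⊆ closure (ratComb A) := by
  intro x hx
  induction hx using Submodule.span_induction with
  | mem x hx => exact subset_closure (subset_ratComb A hx)
  | zero => exact subset_closure (zero_mem_ratComb A)
  | add x y _ _ hx hy =>
    exact map_mem_closure₂ continuous_add hx hy fun a ha b hb => add_mem_ratComb ha hb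
  | smul c x _ hx =>
    have hc : c ∈ closure (range ((↑) : ℚ → ℝ)) := by
      rw [Rat.denseRange_cast.closure_range]
      trivial
    refine map_mem_closure₂ continuous_smul hc hx ?_
    rintro _ ⟨q, rfl⟩ b hb
    exact smul_mem_ratComb hb q

/-- Every element of the closed span lies in the closed span of a countable subset. -/
theorem exists_countable_span {Λ : Set Y} {y : Y} (hy : y ∈ closure (Submodule.span ℝ Λ : Set Y)) :
    ∃ C : Set Y, C.Countable ∧ C ⊆ Λ ∧ y ∈ closure (Submodule.span ℝ C : Set Y) := by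
  obtain ⟨s, hs, hlim⟩ := mem_closure_iff_seq_limit.mp hy
  choose F hF hsF using fun n => Submodule.mem_span_finite_of_mem_span (hs n)
  refine ⟨⋃ n, (F n : Set Y), countable_iUnion fun n => (F n).countable_toSet,
    iUnion_subset hF, ?_⟩
  refine mem_closure_of_tendsto hlim (Filter.Eventually.of_forall fun n => ?_)
  exact Submodule.span_mono (subset_iUnion (fun n => (F n : Set Y)) n) (hsF n)

theorem eq_zero_of_closure_span {C : Set Y} {g : Y →L[ℝ] ℝ} (hg : ∀ c ∈ C, g c = 0) {y : Y}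
    (hy : y ∈ closure (Submodule.span ℝ C : Set Y)) : g y = 0 := by
  have h1 : (Submodule.span ℝ C : Set Y) ⊆ {y | g y = 0} := by
    intro x hx
    induction hx using Submodule.span_induction with
    | mem x hx => exact hg x hx
    | zero => exact map_zero g
    | add x y _ _ hx hy =>
      change g (x + y) = 0
      rw [map_add, show g x = 0 from hx, show g y = 0 from hy, add_zero]
    | smul c x _ hx =>
      change g (c • x) = 0
      rw [map_smul, show g x = 0 from hx, smul_zero]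
  exact closure_minimal h1 (isClosed_eq g.continuous continuous_const) hy

end RatComb

variable {Y : Type u} [NormedAddCommGroup Y] [NormedSpace ℝ Y]

/-- The support of a functional in a set of vectors. -/
def fsupp (Λ : Set Y) (f : Y →L[ℝ] ℝ) : Set Y := {v | v ∈ Λ ∧ f v ≠ 0}

/-- The set `Λ` is linearly dense in `Y`, and the functionals which vanish on `Λ` except for
fewer than `μ` vectors are norming. -/
structure IsSmallNorming (μ : Cardinal.{u}) (Λ : Set Y) : Prop where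
  dense : ∀ y, y ∈ closure (Submodule.span ℝ Λ : Set Y)
  norming : ∃ r : ℝ, 0 < r ∧ ∀ y, ∃ f : Y →L[ℝ] ℝ, #(fsupp Λ f) < μ ∧ ‖f‖ ≤ 1 ∧ r * ‖y‖ ≤ |f y|

/-- Every small set is contained in a small good set. -/
theorem exists_good_set {μ : Cardinal.{u}} (hμ : μ.IsRegular) (hμ0 : ℵ₀ < μ) {Λ : Set Y}
    {F : Y → Y →L[ℝ] ℝ} (hF : ∀ y, #(fsupp Λ (F y)) < μ) {A : Set Y} (hA : #A < μ)
    (hAΛ : A ⊆ Λ) : ∃ B : Set Y, A ⊆ B ∧ B ⊆ Λ ∧ #B < μ ∧ ∀ y ∈ ratComb B, fsupp Λ (F y) ⊆ B := by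
  have hunion : ∀ B : Set Y, #B < μ → #(⋃ y : ratComb B, fsupp Λ (F y) : Set Y) < μ := by
    intro B hB
    exact (card_iUnion_lt_iff_forall_of_isRegular hμ (mk_ratComb hμ0 hB)).mpr fun y => hF y
  let S : ℕ → Set Y := fun n => Nat.rec A (fun _ B => B ∪ ⋃ y : ratComb B, fsupp Λ (F y)) n
  have hS : ∀ n, #↥(S n) < μ := by
    intro n
    induction n with
    | zero => exact hA
    | succ n ih => exact (mk_union_le _ _).trans_lt (add_lt_of_lt hμ.1 ih (hunion _ ih))
  have hSΛ : ∀ n, S n ⊆ Λ := by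
    intro n
    induction n with
    | zero => exact hAΛ
    | succ n ih => exact union_subset ih (iUnion_subset fun y => fun v hv => hv.1)
  have hmono : Monotone S := monotone_nat_of_le_succ fun n => subset_union_left
  refine ⟨⋃ n, S n, subset_iUnion S 0, iUnion_subset hSΛ, ?_, ?_⟩
  · have h1 : #(⋃ n : ULift.{u} ℕ, S n.down : Set Y) < μ :=
      (card_iUnion_lt_iff_forall_of_isRegular hμ (by simpa using hμ0)).mpr fun n => hS n.down
    have h2 : (⋃ n : ULift.{u} ℕ, S n.down) = ⋃ n, S n := by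
      ext v
      simp only [mem_iUnion]
      exact ⟨fun ⟨n, hn⟩ => ⟨n.down, hn⟩, fun ⟨n, hn⟩ => ⟨⟨n⟩, hn⟩⟩
    rwa [h2] at h1
  · rintro y ⟨c, rfl⟩
    -- the combination lies in some stage
    have h1 : ∃ n, ∀ a ∈ c.support, (a : Y) ∈ S n := by
      have h2 : ∀ a : (⋃ n, S n : Set Y), ∃ n, (a : Y) ∈ S n := fun a => mem_iUnion.mp a.2
      choose N hN using h2
      refine ⟨c.support.sup N, fun a ha => hmono (Finset.le_sup ha) (hN a)⟩
    obtain ⟨n, hn⟩ := h1
    have h3 : (c.sum fun a q => (q : ℝ) • (a : Y)) ∈ ratComb (S n) := by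
      refine Finset.sum_induction _ (· ∈ ratComb (S n)) (fun _ _ => add_mem_ratComb)
        (zero_mem_ratComb _) fun a ha => ?_
      exact smul_mem_ratComb (subset_ratComb _ (hn a ha)) _
    intro v hv
    exact mem_iUnion.mpr ⟨n + 1, Or.inr (mem_iUnion.mpr ⟨⟨_, h3⟩, hv⟩)⟩

/-- A good set: points outside its closed span are separated from it by small functionals. -/
theorem exists_sep_functional [CompleteSpace Y] {μ : Cardinal.{u}} {Λ : Set Y} {r : ℝ}
    (hdense : ∀ y, y ∈ closure (Submodule.span ℝ Λ : Set Y)) (hr : 0 < r)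
    {F : Y → Y →L[ℝ] ℝ} (hF : ∀ y, #(fsupp Λ (F y)) < μ) (hF1 : ∀ y, ‖F y‖ ≤ 1)
    (hF2 : ∀ y, r * ‖y‖ ≤ |F y y|) {B : Set Y}
    (hB : ∀ y ∈ ratComb B, fsupp Λ (F y) ⊆ B) {y : Y}
    (hy : y ∉ closure (Submodule.span ℝ B : Set Y)) :
    ∃ g : Y →L[ℝ] ℝ, #(fsupp Λ g) < μ ∧ (∀ v ∈ B, g v = 0) ∧ g y ≠ 0 := by
  let E : Submodule ℝ Y := (Submodule.span ℝ B).topologicalClosure
  let G : Submodule ℝ Y := (Submodule.span ℝ (Λ \ B)).topologicalClosure
  have hG : ∀ d ∈ ratComb B, ∀ b ∈ G, F d b = 0 := by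
    intro d hd b hb
    refine eq_zero_of_closure_span (C := Λ \ B) (fun v hv => ?_) hb
    by_contra hne
    exact hv.2 (hB d hd ⟨hv.1, hne⟩)
  have hEcl : (E : Set Y) ⊆ closure (ratComb B) := by
    rw [Submodule.topologicalClosure_coe]
    exact closure_minimal (span_subset_closure_ratComb B) isClosed_closure
  have key : ∀ a ∈ E, ∀ b ∈ G, r * ‖a‖ ≤ ‖a + b‖ := by
    intro a ha b hb
    have hcl : IsClosed {a : Y | r * ‖a‖ ≤ ‖a + b‖} :=
      isClosed_le (continuous_const.mul continuous_norm) (continuous_id.add continuous_const).norm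
    refine closure_minimal (fun d hd => ?_) hcl (hEcl ha)
    change r * ‖d‖ ≤ ‖d + b‖
    have h1 : F d (d + b) = F d d := by rw [map_add, hG d hd b hb, add_zero]
    calc r * ‖d‖ ≤ |F d d| := hF2 d
      _ = ‖F d (d + b)‖ := by rw [h1, Real.norm_eq_abs]
      _ ≤ ‖F d‖ * ‖d + b‖ := (F d).le_opNorm _
      _ ≤ 1 * ‖d + b‖ := mul_le_mul_of_nonneg_right (hF1 d) (norm_nonneg _)
      _ = ‖d + b‖ := one_mul _
  -- the direct sum
  have hEc : CompleteSpace E := (Submodule.isClosed_topologicalClosure _).completeSpace_coe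
  have hGc : CompleteSpace G := (Submodule.isClosed_topologicalClosure _).completeSpace_coe
  let Φ : (E × G) →L[ℝ] Y := (E.subtypeL.comp (ContinuousLinearMap.fst ℝ E G)) +
    (G.subtypeL.comp (ContinuousLinearMap.snd ℝ E G))
  have hΦ : ∀ p : E × G, Φ p = (p.1 : Y) + (p.2 : Y) := fun p => rfl
  have hlow : ∀ p : E × G, ‖p‖ ≤ (1 + 1 / r) * ‖Φ p‖ := by
    intro p
    have h1 := key p.1 p.1.2 p.2 p.2.2
    rw [← hΦ] at h1
    have h2 : ‖(p.1 : Y)‖ ≤ 1 / r * ‖Φ p‖ := by
      rw [div_mul_eq_mul_div, one_mul, le_div_iff₀ hr]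
      linarith
    have h3 : ‖(p.2 : Y)‖ ≤ ‖Φ p‖ + ‖(p.1 : Y)‖ := by
      have : (p.2 : Y) = Φ p - p.1 := by rw [hΦ]; abel
      rw [this]
      exact norm_sub_le _ _
    rw [Prod.norm_def]
    refine max_le ?_ ?_
    · change ‖(p.1 : Y)‖ ≤ _
      nlinarith [norm_nonneg (Φ p)]
    · change ‖(p.2 : Y)‖ ≤ _
      linarith
  have hanti : AntilipschitzWith ⟨1 + 1 / r, by positivity⟩ Φ := by
    refine AddMonoidHomClass.antilipschitz_of_bound Φ fun p => ?_
    exact hlow p
  have hinj : Function.Injective Φ := hanti.injective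
  have hclosed : IsClosed (range Φ) := hanti.isClosed_range Φ.uniformContinuous
  have hsurj : ∀ v, v ∈ range Φ := by
    intro v
    have h1 : (Submodule.span ℝ Λ : Set Y) ⊆ range Φ := by
      intro x hx
      induction hx using Submodule.span_induction with
      | mem x hx =>
        by_cases hxB : x ∈ B
        · refine ⟨(⟨x, subset_closure (Submodule.subset_span hxB)⟩, 0), ?_⟩
          rw [hΦ]
          simp
        · refine ⟨(0, ⟨x, subset_closure (Submodule.subset_span ⟨hx, hxB⟩)⟩), ?_⟩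
          rw [hΦ]
          simp
      | zero => exact ⟨0, map_zero Φ⟩
      | add x y _ _ hx hy =>
        obtain ⟨p, rfl⟩ := hx
        obtain ⟨q, rfl⟩ := hy
        exact ⟨p + q, map_add Φ p q⟩
      | smul c x _ hx =>
        obtain ⟨p, rfl⟩ := hx
        exact ⟨c • p, map_smul Φ c p⟩
    exact closure_minimal h1 hclosed (hdense v)
  let e : (E × G) ≃L[ℝ] Y := ContinuousLinearEquiv.ofBijective Φ
    (LinearMap.ker_eq_bot.mpr hinj) (LinearMap.range_eq_top.mpr hsurj)
  have he : ∀ p, e p = (p.1 : Y) + (p.2 : Y) := fun p => rfl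
  let Q : Y →L[ℝ] Y := (G.subtypeL.comp (ContinuousLinearMap.snd ℝ E G)).comp
    (e.symm : Y →L[ℝ] E × G)
  have hQE : ∀ v ∈ E, Q v = 0 := by
    intro v hv
    have h1 : e.symm v = (⟨v, hv⟩, 0) := by
      rw [ContinuousLinearEquiv.symm_apply_eq, he]
      simp
    change (((e.symm v).2 : G) : Y) = 0
    rw [h1]
    rfl
  have hQG : ∀ v ∈ G, Q v = v := by
    intro v hv
    have h1 : e.symm v = (0, ⟨v, hv⟩) := by
      rw [ContinuousLinearEquiv.symm_apply_eq, he]
      simp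
    change (((e.symm v).2 : G) : Y) = v
    rw [h1]
  have hQy : Q y ≠ 0 := by
    intro h0
    apply hy
    have h1 : e (e.symm y) = y := e.apply_symm_apply y
    rw [he] at h1
    have h2 : (((e.symm y).2 : G) : Y) = 0 := h0
    rw [h2, add_zero] at h1
    rw [← h1]
    exact (e.symm y).1.2
  refine ⟨(F (Q y)).comp Q, ?_, ?_, ?_⟩
  · refine (mk_le_mk_of_subset ?_).trans_lt (hF (Q y))
    rintro v ⟨hv, hne⟩
    refine ⟨hv, fun h0 => hne ?_⟩
    change F (Q y) (Q v) = 0
    by_cases hvB : v ∈ B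
    · rw [hQE v (subset_closure (Submodule.subset_span hvB)), map_zero]
    · rw [hQG v (subset_closure (Submodule.subset_span ⟨hv, hvB⟩)), h0]
  · intro v hv
    change F (Q y) (Q v) = 0
    rw [hQE v (subset_closure (Submodule.subset_span hv)), map_zero]
  · change F (Q y) (Q y) ≠ 0
    intro h0
    have h1 := hF2 (Q y)
    rw [h0, abs_zero] at h1
    have h2 : 0 < ‖Q y‖ := norm_pos_iff.mpr hQy
    nlinarith

/-- Operators with range of large density into spaces with many small functionals. -/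
theorem exists_biorth_small [CompleteSpace Y] {X : Type u} [NormedAddCommGroup X]
    [NormedSpace ℝ X] {μ : Cardinal.{u}} (hμ : μ.IsRegular) (hμ1 : ℵ₁ < μ) {Λ : Set Y}
    (hΛ : IsSmallNorming μ Λ) (T : X →L[ℝ] Y) (hT : RangeDensityGE T μ) :
    ∃ (z : μ.ord.ToType → X) (f : μ.ord.ToType → X →L[ℝ] ℝ),
      (∀ i, f i (z i) = 1) ∧ ∀ i j, i ≠ j → f i (z j) = 0 := by
  have hμ0 : ℵ₀ < μ := (aleph0_lt_aleph_one).trans hμ1
  obtain ⟨r, hr, hF⟩ := hΛ.norming
  choose F hF hF1 hF2 using hF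
  choose C hCc hCΛ hC using fun y => exists_countable_span (hΛ.dense y)
  have hCμ : ∀ y, #(C y) < μ := fun y =>
    (mk_le_aleph0_iff.mpr (hCc y).to_subtype).trans_lt hμ0
  -- the recursive choices: a vector, a functional and a small set
  let α : Type u := {p : X × (Y →L[ℝ] ℝ) × Set Y // #(fsupp Λ p.2.1) < μ ∧ #p.2.2 < μ ∧
    p.2.2 ⊆ Λ}
  let part : α → Set Y := fun p => p.1.2.2 ∪ (fsupp Λ p.1.2.1 ∪ C (T p.1.1))
  have hpart : ∀ p, #(part p) < μ := fun p =>
    (mk_union_le _ _).trans_lt (add_lt_of_lt hμ.1 p.2.2.1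
      ((mk_union_le _ _).trans_lt (add_lt_of_lt hμ.1 p.2.1 (hCμ _))))
  have hpartΛ : ∀ p, part p ⊆ Λ := fun p =>
    union_subset p.2.2.2 (union_subset (fun v hv => hv.1) (hCΛ _))
  obtain ⟨R, hR⟩ := exists_rec (I := μ.ord.ToType) (α := α)
    (P := fun i g p => (∀ j (hj : j < i), part (g j hj) ⊆ p.1.2.2) ∧
      (∀ v ∈ p.1.2.2, p.1.2.1 v = 0) ∧ p.1.2.1 (T p.1.1) ≠ 0) (by
      intro i g
      have h1 : #(⋃ j : Iio i, part (g j j.2) : Set Y) < μ :=
        (card_iUnion_lt_iff_forall_of_isRegular hμ (iio_toType i)).mpr fun j => hpart _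
      obtain ⟨B, hUB, hBΛ, hBμ, hB⟩ := exists_good_set hμ hμ0 hF h1
        (iUnion_subset fun j => hpartΛ _)
      obtain ⟨x, hx⟩ := hT.not_subset hμ0 (ratComb B) (mk_ratComb hμ0 hBμ)
      have hx' : T x ∉ closure (Submodule.span ℝ B : Set Y) := fun h =>
        hx (closure_minimal (span_subset_closure_ratComb B) isClosed_closure h)
      obtain ⟨g', hg1, hg2, hg3⟩ := exists_sep_functional hΛ.dense hr hF hF1 hF2 hB hx'
      exact ⟨⟨(x, g', B), hg1, hBμ, hBΛ⟩, fun j hj =>
        (subset_iUnion (fun j : Iio i => part (g j j.2)) ⟨j, hj⟩).trans hUB, hg2, hg3⟩)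
  let U : μ.ord.ToType → Set Y := fun i => ⋃ j : Iio i, part (R j)
  have hU : ∀ i, U i ⊆ (R i).1.2.2 := fun i => iUnion_subset fun j => (hR i).1 j j.2
  have hUmono : ∀ {i j}, i ≤ j → U i ⊆ U j := by
    intro i j hij
    refine iUnion_subset fun l => ?_
    exact subset_iUnion (fun j : Iio j => part (R j)) ⟨l, lt_of_lt_of_le l.2 hij⟩
  -- reflection
  obtain ⟨β, hβ⟩ := pressing (κ := ℵ₀) le_rfl hμ (by rwa [succ_aleph0])
    (fun δ β => C (T (R δ).1.1) ∩ U δ ⊆ U β) (fun h h' => h.trans (hUmono h')) (by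
      intro δ hδ
      have h1 : ∀ v : (C (T (R δ).1.1) ∩ U δ : Set Y), ∃ j : Iio δ, (v : Y) ∈ part (R j) :=
        fun v => mem_iUnion.mp v.2.2
      choose J hJ using h1
      have hc : (C (T (R δ).1.1) ∩ U δ).Countable := (hCc _).mono inter_subset_left
      have := hc.to_subtype
      obtain ⟨β, hβ, h2⟩ := hδ (range fun v => (J v : μ.ord.ToType))
        (mk_le_aleph0_iff.mpr (countable_range _).to_subtype) (by
          rintro _ ⟨v, rfl⟩
          exact (J v).2)
      refine ⟨β, hβ, fun v hv => ?_⟩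
      exact mem_iUnion.mpr ⟨⟨J ⟨v, hv⟩, h2 _ ⟨⟨v, hv⟩, rfl⟩⟩, hJ ⟨v, hv⟩⟩)
  -- the subsequence
  obtain ⟨σ, hσ⟩ := exists_rec (I := μ.ord.ToType) (α := μ.ord.ToType)
    (P := fun i g c => β < c ∧ C (T (R c).1.1) ∩ U c ⊆ U β ∧ ∀ j (hj : j < i), g j hj < c) (by
      intro i g
      obtain ⟨c, hc⟩ := bdd_toType hμ ({β} ∪ range (fun j : Iio i => g j j.2)) (by
        refine (mk_union_le _ _).trans_lt (add_lt_of_lt hμ.1 ?_
          (mk_range_le.trans_lt (iio_toType i)))
        rw [mk_singleton]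
        exact one_lt_aleph0.trans hμ0)
      obtain ⟨δ, hδ, h2⟩ := hβ c
      exact ⟨δ, (hc β (Or.inl rfl)).trans hδ, h2, fun j hj =>
        (hc _ (Or.inr ⟨⟨j, hj⟩, rfl⟩)).trans hδ⟩)
  let x : μ.ord.ToType → X := fun i => (R (σ i)).1.1
  let g : μ.ord.ToType → Y →L[ℝ] ℝ := fun i => (R (σ i)).1.2.1
  have hne : ∀ i, g i (T (x i)) ≠ 0 := fun i => (hR (σ i)).2.2
  have hzero : ∀ i j, i ≠ j → g i (T (x j)) = 0 := by
    intro i j hij
    refine eq_zero_of_closure_span (C := C (T (x j))) (fun v hv => ?_) (hC _)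
    rcases lt_or_gt_of_ne hij with hij | hij
    · -- the later vector
      have h1 : σ i < σ j := (hσ j).2.2 i hij
      by_contra hne
      have h2 : v ∈ U (σ j) := mem_iUnion.mpr ⟨⟨σ i, h1⟩, Or.inr (Or.inl ⟨hCΛ _ hv, hne⟩)⟩
      have h3 : v ∈ U β := (hσ j).2.1 ⟨hv, h2⟩
      have h4 : v ∈ (R (σ i)).1.2.2 := hU _ (hUmono (hσ i).1.le h3)
      exact hne ((hR (σ i)).2.1 v h4)
    · -- the earlier vector
      have h1 : σ j < σ i := (hσ i).2.2 j hij
      exact (hR (σ i)).2.1 v ((hR (σ i)).1 (σ j) h1 (Or.inr (Or.inr hv)))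
  refine ⟨fun i => (g i (T (x i)))⁻¹ • x i, fun i => (g i).comp T, ?_, ?_⟩
  · intro i
    rw [map_smul, smul_eq_mul]
    exact inv_mul_cancel₀ (hne i)
  · intro i j hij
    rw [map_smul, smul_eq_mul]
    change _ * g i (T (x j)) = 0
    rw [hzero i j hij, mul_zero]

end Pool.Agent.Helper50.Supp
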